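import Mathlib

open Set Filter Topology

namespace Pool.Agent.Lib.MP_861931_gt

/-! ### Cut points -/

/-- `(U, V)` is a separation of the complement of `y`. -/
structure CutAt {Y : Type*} [TopologicalSpace Y] (y : Y) (U V : Set Y) : Prop where
  oU : IsOpen U
  oV : IsOpen V
  nU : U.Nonempty
  nV : V.Nonempty
  dis : Disjoint U V
  cov : U ∪ V = {y}ᶜ

namespace CutAt

variable {Y : Type*} [TopologicalSpace Y] {y : Y} {U V : Set Y}

theorem symm (h : CutAt y U V) : CutAt y V U :=
  ⟨h.oV, h.oU, h.nV, h.nU, h.dis.symm, by rw [union_comm]; exact h.cov⟩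

theorem not_mem_left (h : CutAt y U V) : y ∉ U := fun hy =>
  (h.cov ▸ Or.inl hy : y ∈ ({y}ᶜ : Set Y)) rfl

theorem not_mem_right (h : CutAt y U V) : y ∉ V := h.symm.not_mem_left

theorem mem_or {z : Y} (h : CutAt y U V) (hz : z ≠ y) : z ∈ U ∨ z ∈ V := by
  have : z ∈ U ∪ V := h.cov ▸ (show z ∈ ({y}ᶜ : Set Y) from hz)
  exact this

/-- The complement of one side is connected. -/
theorem preconnected_compl [PreconnectedSpace Y] (h : CutAt y U V) : IsPreconnected Uᶜ := by
  have key : ∀ A B : Set Y, IsOpen A → IsOpen B → Uᶜ ⊆ A ∪ B → y ∈ A → (Uᶜ ∩ B).Nonempty →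
      (Uᶜ ∩ (A ∩ B)).Nonempty := by
    intro A B hA hB hcov hyA hBne
    by_contra hcon
    rw [not_nonempty_iff_eq_empty] at hcon
    have hyB : y ∉ B := fun hyB => by
      have : y ∈ Uᶜ ∩ (A ∩ B) := ⟨h.not_mem_left, hyA, hyB⟩
      rw [hcon] at this
      exact this
    have h1 : Uᶜ ∩ B = V ∩ B := by
      ext z
      constructor
      · rintro ⟨h2, h3⟩
        rcases h.mem_or (z := z) (fun h4 => hyB (h4 ▸ h3)) with h4 | h4
        · exact absurd h4 h2
        · exact ⟨h4, h3⟩
      · rintro ⟨h2, h3⟩
        exact ⟨fun h4 => disjoint_left.1 h.dis h4 h2, h3⟩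
    obtain ⟨z, hz⟩ := isPreconnected_univ (U ∪ A) (V ∩ B) (h.oU.union hA) (h.oV.inter hB) (by
      intro z _
      by_cases hzU : z ∈ U
      · exact Or.inl (Or.inl hzU)
      · rcases hcov hzU with h2 | h2
        · exact Or.inl (Or.inr h2)
        · right
          rw [← h1]
          exact ⟨hzU, h2⟩) (by
      exact ⟨y, mem_univ _, Or.inr hyA⟩) (by
      rw [h1] at hBne
      rw [univ_inter]
      exact hBne)
    rcases hz.2.1 with h2 | h2
    · exact disjoint_left.1 h.dis h2 hz.2.2.1
    · have h3 : z ∈ Uᶜ ∩ B := by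
        rw [h1]
        exact hz.2.2
      have : z ∈ Uᶜ ∩ (A ∩ B) := ⟨h3.1, h2, h3.2⟩
      rw [hcon] at this
      exact this
  intro A B hA hB hcov hAne hBne
  rcases hcov h.not_mem_left with hy | hy
  · exact key A B hA hB hcov hy hBne
  · rw [inter_comm A B]
    exact key B A hB hA (by rw [union_comm]; exact hcov) hy hAne

end CutAt

/-- A compact connected space has a point which is not a cut point. -/
theorem exists_noncut {Y : Type*} [TopologicalSpace Y] [CompactSpace Y] [ConnectedSpace Y] :
    ∃ y : Y, ¬ ∃ U V, CutAt y U V := by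
  by_contra hcon
  push Not at hcon
  -- pairs
  let P : Type _ := {t : Y × Set Y // ∃ V, CutAt t.1 t.2 V}
  let r : P → P → Prop := fun t t' => t = t' ∨ insert t'.1.1 t'.1.2 ⊆ t.1.2
  have hcl : ∀ t : P, IsClosed (insert t.1.1 t.1.2) := by
    rintro ⟨⟨y, U⟩, V, h⟩
    have : insert y U = Vᶜ := by
      ext z
      constructor
      · rintro (rfl | hz)
        · exact h.not_mem_right
        · exact fun hz' => disjoint_left.1 h.dis hz hz'
      · intro hz
        by_cases hzy : z = y
        · exact Or.inl hzy
        · exact Or.inr ((h.mem_or hzy).resolve_right hz)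
    show IsClosed (insert y U)
    rw [this]
    exact h.oV.isClosed_compl
  have hpre : ∀ t : P, IsPreconnected t.1.2ᶜ := by
    rintro ⟨⟨y, U⟩, V, h⟩
    exact h.preconnected_compl
  have htrans : ∀ {a b c : P}, r a b → r b c → r a c := by
    rintro a b c (rfl | h1) (rfl | h2)
    · exact Or.inl rfl
    · exact Or.inr h2
    · exact Or.inr h1
    · exact Or.inr (h2.trans ((subset_insert _ _).trans h1))
  -- the chain condition
  have hchain : ∀ c : Set P, IsChain r c → ∃ ub, ∀ a ∈ c, r a ub := by
    intro c hc
    by_cases hmax : ∃ m ∈ c, ∀ a ∈ c, r a m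
    · obtain ⟨m, -, hm⟩ := hmax
      exact ⟨m, hm⟩
    push Not at hmax
    have hstep : ∀ m ∈ c, ∃ a ∈ c, insert a.1.1 a.1.2 ⊆ m.1.2 := by
      intro m hm
      obtain ⟨a, ha, ham⟩ := hmax m hm
      have hne : a ≠ m := fun h => ham (Or.inl h)
      rcases hc ha hm hne with h | h
      · exact absurd h ham
      · rcases h with h | h
        · exact absurd h.symm hne
        · exact ⟨a, ha, h⟩
    rcases c.eq_empty_or_nonempty with rfl | hcne
    · obtain ⟨y⟩ : Nonempty Y := inferInstance
      obtain ⟨U, V, h⟩ := hcon y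
      exact ⟨⟨⟨y, U⟩, V, h⟩, fun a ha => absurd ha (notMem_empty a)⟩
    have hcne' : Nonempty c := hcne.to_subtype
    obtain ⟨p, hp⟩ := IsCompact.nonempty_iInter_of_directed_nonempty_isCompact_isClosed
      (fun m : c => insert m.1.1.1 m.1.1.2) (by
        intro a b
        by_cases hab : a = b
        · exact ⟨a, subset_rfl, by rw [hab]⟩
        have hab' : (a : P) ≠ b := fun h => hab (Subtype.ext h)
        rcases hc a.2 b.2 hab' with h | h
        · rcases h with h | h
          · exact absurd h hab'
          · exact ⟨b, h.trans (subset_insert _ _), subset_rfl⟩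
        · rcases h with h | h
          · exact absurd h.symm hab'
          · exact ⟨a, subset_rfl, h.trans (subset_insert _ _)⟩)
      (fun m => ⟨_, mem_insert _ _⟩) (fun m => (hcl m.1).isCompact) (fun m => hcl m.1)
    rw [mem_iInter] at hp
    have hpU : ∀ m ∈ c, p ∈ m.1.2 := by
      intro m hm
      obtain ⟨a, ha, ham⟩ := hstep m hm
      exact ham (hp ⟨a, ha⟩)
    have hLpre : IsPreconnected (⋃₀ ((fun m : P => m.1.2ᶜ) '' c)) := by
      apply IsPreconnected.sUnion_directed
      · rintro _ ⟨a, ha, rfl⟩ _ ⟨b, hb, rfl⟩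
        by_cases hab : a = b
        · exact ⟨_, ⟨a, ha, rfl⟩, subset_rfl, by rw [hab]⟩
        rcases hc ha hb hab with h | h
        · rcases h with h | h
          · exact absurd h hab
          · refine ⟨_, ⟨b, hb, rfl⟩, ?_, subset_rfl⟩
            exact compl_subset_compl.2 ((subset_insert _ _).trans h)
        · rcases h with h | h
          · exact absurd h.symm hab
          · refine ⟨_, ⟨a, ha, rfl⟩, subset_rfl, ?_⟩
            exact compl_subset_compl.2 ((subset_insert _ _).trans h)
      · rintro _ ⟨a, -, rfl⟩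
        exact hpre a
    obtain ⟨A, B, hAB⟩ := hcon p
    have hsub : ⋃₀ ((fun m : P => m.1.2ᶜ) '' c) ⊆ A ∪ B := by
      rw [hAB.cov]
      rintro z ⟨_, ⟨m, hm, rfl⟩, hz⟩ hzp
      exact hz (hzp ▸ hpU m hm)
    have hfin : ∀ A B : Set Y, CutAt p A B → ⋃₀ ((fun m : P => m.1.2ᶜ) '' c) ⊆ B →
        ∃ ub : P, ∀ a ∈ c, r a ub := by
      intro A B hAB hB
      refine ⟨⟨⟨p, A⟩, B, hAB⟩, fun a ha => Or.inr ?_⟩
      show insert p A ⊆ a.1.2
      rintro z (rfl | hz)
      · exact hpU a ha
      · by_contra hza
        have : z ∈ B := hB ⟨_, ⟨a, ha, rfl⟩, hza⟩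
        exact disjoint_left.1 hAB.dis hz this
    rcases hLpre.subset_or_subset hAB.oU hAB.oV hAB.dis hsub with h | h
    · exact hfin B A hAB.symm h
    · exact hfin A B hAB h
  obtain ⟨m, hm⟩ := exists_maximal_of_chains_bounded hchain htrans
  obtain ⟨V, hV⟩ := m.2
  obtain ⟨y', hy'⟩ := hV.nU
  obtain ⟨A, B, hAB⟩ := hcon y'
  have hfin : ∀ A B : Set Y, CutAt y' A B → m.1.2ᶜ ⊆ B → False := by
    intro A B hAB hB
    have h1 : r m ⟨⟨y', A⟩, B, hAB⟩ := by
      right
      show insert y' A ⊆ m.1.2
      rintro z (rfl | hz)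
      · exact hy'
      · by_contra hza
        exact disjoint_left.1 hAB.dis hz (hB hza)
    rcases hm _ h1 with h2 | h2
    · have h3 : y' = m.1.1 := congrArg (fun t : P => t.1.1) h2
      exact hV.not_mem_left (h3 ▸ hy')
    · have h3 : y' ∈ A := h2 (Or.inr hy')
      exact hAB.not_mem_left h3
  have hsub : m.1.2ᶜ ⊆ A ∪ B := by
    rw [hAB.cov]
    intro z hz hzy
    exact hz (hzy ▸ hy')
  rcases (hpre m).subset_or_subset hAB.oU hAB.oV hAB.dis hsub with h | h
  · exact hfin B A hAB.symm h
  · exact hfin A B hAB h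

/-- Monotone maps and cut points. -/
theorem cut_image {X Y : Type*} [TopologicalSpace X] [CompactSpace X] [TopologicalSpace Y]
    [T2Space Y] {f : X → Y} (hf : Continuous f) (hfs : Function.Surjective f)
    (hfm : ∀ y, IsConnected (f ⁻¹' {y})) {p : X} {U V : Set X} (h : CutAt p U V) {x x' : X}
    (hx : x ∈ U) (hx' : x' ∈ V) (hxp : f x ≠ f p) (hxp' : f x' ≠ f p) :
    ∃ A B, CutAt (f p) A B := by
  have key : ∀ U V : Set X, CutAt p U V → IsOpen (f '' (Uᶜ ∪ f ⁻¹' {f p}))ᶜ := by
    intro U V h
    have h1 : IsClosed (Uᶜ ∪ f ⁻¹' {f p}) :=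
      h.oU.isClosed_compl.union (isClosed_singleton.preimage hf)
    exact ((h1.isCompact.image hf).isClosed).isOpen_compl
  have hside : ∀ z : Y, z ≠ f p → f ⁻¹' {z} ⊆ U ∨ f ⁻¹' {z} ⊆ V := by
    intro z hz
    apply (hfm z).isPreconnected.subset_or_subset h.oU h.oV h.dis
    rw [h.cov]
    rintro w hw rfl
    exact hz (show f w = z from hw).symm
  have hmem : ∀ U V : Set X, CutAt p U V → ∀ z : Y, z ≠ f p → f ⁻¹' {z} ⊆ U →
      z ∈ (f '' (Uᶜ ∪ f ⁻¹' {f p}))ᶜ := by
    rintro U V h z hz hzU ⟨w, hw, hwz⟩
    rcases hw with hw | hw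
    · exact hw (hzU hwz)
    · exact hz (hwz.symm.trans hw)
  refine ⟨(f '' (Uᶜ ∪ f ⁻¹' {f p}))ᶜ, (f '' (Vᶜ ∪ f ⁻¹' {f p}))ᶜ, key U V h, key V U h.symm,
    ?_, ?_, ?_, ?_⟩
  · refine ⟨f x, hmem U V h _ hxp ?_⟩
    rcases hside _ hxp with h1 | h1
    · exact h1
    · exact absurd (h1 (show f x = f x from rfl)) (disjoint_left.1 h.dis hx)
  · refine ⟨f x', hmem V U h.symm _ hxp' ?_⟩
    rcases hside _ hxp' with h1 | h1
    · exact absurd hx' (disjoint_left.1 h.dis (h1 (show f x' = f x' from rfl)))
    · exact h1
  · rw [disjoint_left]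
    intro z hz hz'
    obtain ⟨w, rfl⟩ := hfs z
    have h1 : w ∈ U := by
      by_contra hcon
      exact hz ⟨w, Or.inl hcon, rfl⟩
    have h2 : w ∈ V := by
      by_contra hcon
      exact hz' ⟨w, Or.inl hcon, rfl⟩
    exact disjoint_left.1 h.dis h1 h2
  · ext z
    constructor
    · rintro (hz | hz) hzp
      · exact hz ⟨p, Or.inr rfl, hzp.symm⟩
      · exact hz ⟨p, Or.inr rfl, hzp.symm⟩
    · intro hz
      rcases hside z hz with h1 | h1
      · exact Or.inl (hmem U V h z hz h1)
      · exact Or.inr (hmem V U h.symm z hz h1)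

/-- In a homogeneous compact connected space there are no cut points. -/
theorem no_cut {Y : Type*} [TopologicalSpace Y] [CompactSpace Y] [ConnectedSpace Y]
    (hY : ∀ a b : Y, ∃ h : Y ≃ₜ Y, h a = b) (y : Y) : ¬ ∃ U V, CutAt y U V := by
  rintro ⟨U, V, hUV⟩
  obtain ⟨z, hz⟩ := exists_noncut (Y := Y)
  obtain ⟨h, hh⟩ := hY y z
  apply hz
  refine ⟨h '' U, h '' V, h.isOpenMap _ hUV.oU, h.isOpenMap _ hUV.oV, hUV.nU.image _,
    hUV.nV.image _, ?_, ?_⟩
  · exact (disjoint_image_iff h.injective).2 hUV.dis
  · rw [← image_union, hUV.cov, image_compl_eq h.bijective, image_singleton, hh]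

namespace Dend

/-- Letters: rational numbers in the open unit interval. -/
abbrev Q : Type := Set.Ioo (0 : ℚ) 1

/-- The value of a letter. -/
def val (q : Q) : ℝ := ((q : ℚ) : ℝ)

theorem val_pos (q : Q) : 0 < val q := by
  have := q.2.1
  unfold val
  exact_mod_cast this

theorem val_lt_one (q : Q) : val q < 1 := by
  have := q.2.2
  unfold val
  exact_mod_cast this

theorem val_inj {p q : Q} (h : val p = val q) : p = q := by
  apply Subtype.ext
  unfold val at h
  exact_mod_cast h

/-- Half of a letter. -/
def half (q : Q) : Q := ⟨(q : ℚ) / 2, by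
  have h1 := q.2.1
  have h2 := q.2.2
  constructor <;> linarith⟩

/-- The letter `1 - q / 2`. -/
def rfx (q : Q) : Q := ⟨1 - (q : ℚ) / 2, by
  have h1 := q.2.1
  have h2 := q.2.2
  constructor <;> linarith⟩

/-- The letter `1 / 2`. -/
def mid : Q := ⟨1 / 2, by constructor <;> norm_num⟩

@[simp] theorem val_half (q : Q) : val (half q) = val q / 2 := by
  unfold val half
  push_cast
  rfl

@[simp] theorem val_rfx (q : Q) : val (rfx q) = 1 - val q / 2 := by
  unfold val rfx
  push_cast
  rfl

@[simp] theorem val_mid : val mid = 1 / 2 := by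
  unfold val mid
  norm_num

theorem exists_double {q : Q} (h : val q < 1 / 2) : ∃ p : Q, half p = q := by
  have h1 := q.2.1
  have h2 : (q : ℚ) < 1 / 2 := by
    unfold val at h
    have : ((q : ℚ) : ℝ) < ((1 / 2 : ℚ) : ℝ) := by
      rw [Rat.cast_div, Rat.cast_one, Rat.cast_ofNat]
      exact h
    exact_mod_cast this
  refine ⟨⟨2 * (q : ℚ), by constructor <;> linarith⟩, ?_⟩
  apply Subtype.ext
  show 2 * (q : ℚ) / 2 = q
  ring

/-- Points of the ambient cube. -/
abbrev Pt : Type := List Q → ℝ

/-- The condition defining the dendrite. -/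
def InX (x : Pt) : Prop :=
  (∀ v, x v ∈ Icc (0 : ℝ) 1) ∧ ∀ (w : List Q) (q : Q), x (w ++ [q]) ≠ 0 → x w = val q

/-- The branch at `q`. -/
def sh (q : Q) (x : Pt) : Pt := fun u => x (q :: u)

theorem InX.sh {x : Pt} (h : InX x) (q : Q) : InX (sh q x) :=
  ⟨fun _ => h.1 _, fun w p hp => h.2 (q :: w) p hp⟩

theorem inX_of {x : Pt} (h0 : x [] ∈ Icc (0 : ℝ) 1) (h1 : ∀ q, x [q] ≠ 0 → x [] = val q)
    (h2 : ∀ q, InX (sh q x)) : InX x := by
  refine ⟨fun v => ?_, fun w q hq => ?_⟩
  · rcases v with _ | ⟨q, v⟩
    · exact h0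
    · exact (h2 q).1 v
  · rcases w with _ | ⟨p, w⟩
    · exact h1 q hq
    · exact (h2 p).2 w q hq

theorem InX.first {x : Pt} (h : InX x) {q : Q} {u : List Q} (hne : x (q :: u) ≠ 0) :
    x [] = val q := by
  induction u generalizing x q with
  | nil => exact h.2 [] q hne
  | cons p u ih =>
    have h1 : Dend.sh q x [] = val p := ih (h.sh q) hne
    apply h.2 [] q
    show x [q] ≠ 0
    have h2 : x [q] = val p := h1
    rw [h2]
    exact (val_pos p).ne'

theorem InX.eq_zero {x : Pt} (h : InX x) (h0 : x [] = 0) : x = 0 := by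
  funext v
  rcases v with _ | ⟨q, v⟩
  · exact h0
  · by_contra hcon
    have := h.first hcon
    rw [h0] at this
    exact (val_pos q).ne this

theorem InX.zero_of_ne {x : Pt} (h : InX x) {q : Q} (hq : x [] ≠ val q) (u : List Q) :
    x (q :: u) = 0 := by
  by_contra hcon
  exact hq (h.first hcon)

theorem inX_zero : InX 0 := ⟨fun _ => ⟨le_rfl, zero_le_one⟩, fun _ _ h => absurd rfl h⟩

theorem isClosed_inX : IsClosed {x : Pt | InX x} := by
  have h1 : {x : Pt | InX x} = (⋂ v, {x : Pt | x v ∈ Icc (0 : ℝ) 1}) ∩
      ⋂ (w : List Q) (q : Q), ({x : Pt | x (w ++ [q]) = 0} ∪ {x : Pt | x w = val q}) := by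
    ext x
    rw [mem_inter_iff, mem_iInter, mem_iInter]
    show InX x ↔ (∀ v, x v ∈ Icc (0 : ℝ) 1) ∧ _
    simp only [mem_iInter]
    constructor
    · intro h
      refine ⟨h.1, fun w q => ?_⟩
      by_cases hq : x (w ++ [q]) = 0
      · exact Or.inl hq
      · exact Or.inr (h.2 w q hq)
    · intro h
      exact ⟨h.1, fun w q hq => (h.2 w q).resolve_left hq⟩
  rw [h1]
  refine IsClosed.inter (isClosed_iInter fun v => ?_) (isClosed_iInter fun w =>
    isClosed_iInter fun q => IsClosed.union ?_ ?_)
  · exact isClosed_Icc.preimage (continuous_apply v)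
  · exact isClosed_eq (continuous_apply _) continuous_const
  · exact isClosed_eq (continuous_apply _) continuous_const

theorem isCompact_inX : IsCompact {x : Pt | InX x} := by
  have h1 : IsCompact (Set.pi univ fun _ : List Q => Icc (0 : ℝ) 1) :=
    isCompact_univ_pi fun _ => isCompact_Icc
  refine h1.of_isClosed_subset isClosed_inX ?_
  intro x hx v _
  exact hx.1 v

/-! ### Cutting down points -/

/-- Cut down a point at level `i` and height `s`. -/
def C (i : ℕ) (s : ℝ) (x : Pt) : Pt := fun v =>
  if v.length < i then x v else if v.length = i then min s (x v) else 0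

theorem InX.C {x : Pt} (h : InX x) (i : ℕ) {s : ℝ} (hs : 0 ≤ s) : InX (C i s x) := by
  refine ⟨fun v => ?_, fun w q hq => ?_⟩
  · unfold Dend.C
    split_ifs
    · exact h.1 v
    · exact ⟨le_min hs (h.1 v).1, (min_le_right _ _).trans (h.1 v).2⟩
    · exact ⟨le_rfl, zero_le_one⟩
  · have h1 : w.length < i ∧ x (w ++ [q]) ≠ 0 := by
      unfold Dend.C at hq
      rw [List.length_append, List.length_singleton] at hq
      split_ifs at hq with h1 h2
      · exact ⟨by omega, hq⟩
      · refine ⟨by omega, fun h3 => hq ?_⟩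
        rw [h3]
        exact min_eq_right hs
      · exact absurd rfl hq
    have h2 : Dend.C i s x w = x w := by
      unfold Dend.C
      rw [if_pos h1.1]
    rw [h2]
    exact h.2 w q h1.2

theorem C_one {x : Pt} (h : InX x) (i : ℕ) : C i 1 x = C (i + 1) 0 x := by
  funext v
  unfold C
  by_cases h1 : v.length < i
  · rw [if_pos h1, if_pos (by omega)]
  · by_cases h2 : v.length = i
    · rw [if_neg h1, if_pos h2, if_pos (by omega)]
      exact min_eq_right (h.1 v).2
    · rw [if_neg h1, if_neg h2, if_neg (by omega)]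
      by_cases h3 : v.length = i + 1
      · rw [if_pos h3]
        exact (min_eq_left (h.1 v).1).symm
      · rw [if_neg h3]

theorem continuous_C (i : ℕ) (x : Pt) : Continuous fun s => C i s x := by
  apply continuous_pi
  intro v
  unfold C
  split_ifs
  · exact continuous_const
  · exact continuous_id.min continuous_const
  · exact continuous_const

theorem tendsto_C (x : Pt) : Tendsto (fun i => C i 1 x) atTop (𝓝 x) := by
  rw [tendsto_pi_nhds]
  intro v
  refine tendsto_const_nhds.congr' ?_
  filter_upwards [eventually_gt_atTop v.length] with i hi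
  unfold C
  rw [if_pos hi]

/-- The point at height `s` of the root arc. -/
def pt (s : ℝ) : Pt := fun v => if v = [] then s else 0

theorem C_zero_eq {x : Pt} {s : ℝ} (hs : s ≤ x []) : C 0 s x = pt s := by
  funext v
  unfold C pt
  rcases v with _ | ⟨q, v⟩
  · simp [hs]
  · simp

/-- A set closed under cutting down is connected. -/
theorem preconn_crit {A : Set Pt} {α : ℝ} (hα1 : α ≤ 1)
    (h1 : ∀ x ∈ A, InX x ∧ α ≤ x [])
    (h0 : ∀ x ∈ A, ∀ s, α ≤ s → s ≤ 1 → C 0 s x ∈ A)
    (h2 : ∀ x ∈ A, ∀ i, 1 ≤ i → ∀ s, 0 ≤ s → s ≤ 1 → C i s x ∈ A) : IsPreconnected A := by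
  apply isPreconnected_of_forall (pt α)
  intro x hx
  set S : ℕ → Set Pt := fun i => (fun s => C i s x) '' Icc (if i = 0 then α else 0) 1 with hS
  have hSc : ∀ i, IsPreconnected (S i) := fun i =>
    isPreconnected_Icc.image _ (continuous_C i x).continuousOn
  have hSA : ∀ i, S i ⊆ A := by
    rintro i _ ⟨s, hs, rfl⟩
    by_cases hi : i = 0
    · subst hi
      rw [if_pos rfl] at hs
      exact h0 x hx s hs.1 hs.2
    · rw [if_neg hi] at hs
      exact h2 x hx i (by omega) s hs.1 hs.2
  have hU : IsPreconnected (⋃ i, S i) := by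
    apply IsPreconnected.iUnion_of_chain hSc
    intro i
    refine ⟨C i 1 x, ⟨1, ⟨?_, le_rfl⟩, rfl⟩, ?_⟩
    · split_ifs
      · exact hα1
      · exact zero_le_one
    · show C i 1 x ∈ S (i + 1)
      rw [C_one (h1 x hx).1]
      exact ⟨0, ⟨by rw [if_neg (Nat.succ_ne_zero i)], zero_le_one⟩, rfl⟩
  refine ⟨insert x (⋃ i, S i), ?_, ?_, mem_insert _ _, ?_⟩
  · rw [insert_subset_iff]
    exact ⟨hx, iUnion_subset hSA⟩
  · right
    refine mem_iUnion.2 ⟨0, α, ⟨by rw [if_pos rfl], hα1⟩, ?_⟩
    exact C_zero_eq (h1 x hx).2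
  · apply hU.subset_closure (subset_insert _ _)
    rw [insert_subset_iff]
    refine ⟨?_, subset_closure⟩
    apply mem_closure_of_tendsto (tendsto_C x)
    filter_upwards with i
    refine mem_iUnion.2 ⟨i, 1, ⟨?_, le_rfl⟩, rfl⟩
    split_ifs
    · exact hα1
    · exact zero_le_one

end Dend

namespace Dend

/-- Stretch the first half of the root arc. -/
def dl (x : Pt) : Pt
  | [] => min 1 (2 * x [])
  | q :: u => x (half q :: u)

/-- Shrink the root arc to its first half. -/
noncomputable def et (x : Pt) : Pt
  | [] => x [] / 2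
  | q :: u => open Classical in if h : ∃ p : Q, half p = q then x (h.choose :: u) else 0

/-- Insert a point in the branch at `q`. -/
noncomputable def ins (q : Q) (x : Pt) : Pt
  | [] => val q
  | p :: u => open Classical in if p = q then x u else 0

theorem half_inj {p q : Q} (h : half p = half q) : p = q := by
  apply val_inj
  have := congrArg val h
  rw [val_half, val_half] at this
  linarith

theorem rfx_inj {p q : Q} (h : rfx p = rfx q) : p = q := by
  apply val_inj
  have := congrArg val h
  rw [val_rfx, val_rfx] at this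
  linarith

theorem et_half (x : Pt) (p : Q) (u : List Q) : et x (half p :: u) = x (p :: u) := by
  have h : ∃ p' : Q, half p' = half p := ⟨p, rfl⟩
  have h1 : et x (half p :: u) = x (h.choose :: u) := dif_pos h
  rw [h1, half_inj h.choose_spec]

theorem et_neg (x : Pt) {q : Q} (h : ¬ ∃ p : Q, half p = q) (u : List Q) :
    et x (q :: u) = 0 := dif_neg h

theorem et_ge (x : Pt) {q : Q} (hq : 1 / 2 ≤ val q) (u : List Q) : et x (q :: u) = 0 := by
  apply et_neg
  rintro ⟨p, rfl⟩
  rw [val_half] at hq
  have := val_lt_one p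
  linarith

theorem InX.dl {x : Pt} (h : InX x) : InX (dl x) := by
  apply inX_of
  · have := (h.1 [])
    show min 1 (2 * x []) ∈ Icc (0 : ℝ) 1
    exact ⟨le_min zero_le_one (by linarith [this.1]), min_le_left _ _⟩
  · intro q hq
    have h1 : x [] = val (half q) := h.first hq
    show min 1 (2 * x []) = val q
    rw [h1, val_half]
    have := val_lt_one q
    rw [min_eq_right (by linarith)]
    ring
  · intro q
    exact h.sh (half q)

theorem InX.et {x : Pt} (h : InX x) : InX (et x) := by
  apply inX_of
  · have := (h.1 [])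
    show x [] / 2 ∈ Icc (0 : ℝ) 1
    exact ⟨by linarith [this.1], by linarith [this.2]⟩
  · intro q hq
    show x [] / 2 = val q
    by_cases h1 : ∃ p : Q, half p = q
    · obtain ⟨p, rfl⟩ := h1
      rw [et_half] at hq
      rw [h.first hq, val_half]
    · exfalso
      exact hq (et_neg x h1 [])
  · intro q
    by_cases h1 : ∃ p : Q, half p = q
    · obtain ⟨p, rfl⟩ := h1
      have h2 : Dend.sh (half p) (Dend.et x) = Dend.sh p x := by
        funext u
        exact et_half x p u
      rw [h2]
      exact h.sh p
    · have h2 : Dend.sh q (Dend.et x) = 0 := by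
        funext u
        exact et_neg x h1 u
      rw [h2]
      exact inX_zero

theorem InX.ins {x : Pt} (h : InX x) (q : Q) : InX (ins q x) := by
  apply inX_of
  · exact ⟨(val_pos q).le, (val_lt_one q).le⟩
  · intro p hp
    show val q = val p
    by_cases h1 : p = q
    · rw [h1]
    · exfalso
      apply hp
      show (if p = q then x [] else 0) = 0
      rw [if_neg h1]
  · intro p
    by_cases h1 : p = q
    · have h2 : Dend.sh p (Dend.ins q x) = x := by
        funext u
        show (if p = q then x u else 0) = x u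
        rw [if_pos h1]
      rw [h2]
      exact h
    · have h2 : Dend.sh p (Dend.ins q x) = 0 := by
        funext u
        show (if p = q then x u else 0) = 0
        rw [if_neg h1]
      rw [h2]
      exact inX_zero

theorem sh_ins (q : Q) (x : Pt) : sh q (ins q x) = x := by
  funext u
  show (if q = q then x u else 0) = x u
  rw [if_pos rfl]

theorem ins_sh {q : Q} {x : Pt} (h : InX x) (hq : x [] = val q) : ins q (sh q x) = x := by
  funext v
  rcases v with _ | ⟨p, u⟩
  · exact hq.symm
  · show (if p = q then x (q :: u) else 0) = x (p :: u)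
    by_cases h1 : p = q
    · rw [if_pos h1, h1]
    · rw [if_neg h1]
      symm
      apply h.zero_of_ne
      intro h2
      exact h1 (val_inj (h2.symm.trans hq))

theorem dl_et {x : Pt} (h : InX x) : dl (et x) = x := by
  funext v
  rcases v with _ | ⟨q, u⟩
  · show min 1 (2 * (x [] / 2)) = x []
    have := (h.1 []).2
    rw [min_eq_right (by linarith)]
    ring
  · exact et_half x q u

theorem et_dl {x : Pt} (h : InX x) (hx : x [] < 1 / 2) : et (dl x) = x := by
  funext v
  rcases v with _ | ⟨q, u⟩
  · show min 1 (2 * x []) / 2 = x []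
    rw [min_eq_right (by linarith)]
    ring
  · by_cases h1 : ∃ p : Q, half p = q
    · obtain ⟨p, rfl⟩ := h1
      rw [et_half]
      rfl
    · have h2 : et (dl x) (q :: u) = 0 := et_neg _ h1 u
      rw [h2]
      symm
      apply h.zero_of_ne
      intro h3
      exact h1 (exists_double (h3 ▸ hx))

theorem dl_ge {x : Pt} (h : InX x) (hx : 1 / 2 ≤ x []) : dl x = pt 1 := by
  funext v
  rcases v with _ | ⟨q, u⟩
  · show min 1 (2 * x []) = 1
    exact min_eq_left (by linarith)
  · show x (half q :: u) = 0
    apply h.zero_of_ne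
    intro h1
    rw [h1, val_half] at hx
    have := val_lt_one q
    linarith

theorem continuous_dl : Continuous dl := by
  apply continuous_pi
  intro v
  rcases v with _ | ⟨q, u⟩
  · exact continuous_const.min (continuous_const.mul (continuous_apply _))
  · exact continuous_apply _

theorem continuous_et : Continuous et := by
  apply continuous_pi
  intro v
  rcases v with _ | ⟨q, u⟩
  · exact (continuous_apply _).div_const _
  · by_cases h1 : ∃ p : Q, half p = q
    · obtain ⟨p, rfl⟩ := h1
      have : (fun x : Pt => et x (half p :: u)) = fun x => x (p :: u) := by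
        funext x
        exact et_half x p u
      rw [this]
      exact continuous_apply _
    · have : (fun x : Pt => et x (q :: u)) = fun _ => 0 := by
        funext x
        exact et_neg x h1 u
      rw [this]
      exact continuous_const

theorem continuous_ins (q : Q) : Continuous (ins q) := by
  apply continuous_pi
  intro v
  rcases v with _ | ⟨p, u⟩
  · exact continuous_const
  · by_cases h1 : p = q
    · have : (fun x : Pt => ins q x (p :: u)) = fun x => x u := by
        funext x
        show (if p = q then x u else 0) = x u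
        rw [if_pos h1]
      rw [this]
      exact continuous_apply _
    · have : (fun x : Pt => ins q x (p :: u)) = fun _ => 0 := by
        funext x
        show (if p = q then x u else 0) = 0
        rw [if_neg h1]
      rw [this]
      exact continuous_const

theorem continuous_sh (q : Q) : Continuous (sh q) :=
  continuous_pi fun _ => continuous_apply _

/-! ### The rerooting maps -/

/-- The map which moves the root to `b`. -/
noncomputable def G : List Q → Pt → Pt → ℝ
  | [], b, x => max (min (b []) (2 - 2 * x [])) (x [mid])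
  | q :: u, b, x => open Classical in if val q < b [] then x (rfx q :: u) else
      if val q = b [] then G u (sh q b) (dl x) else x (mid :: q :: u)

theorem G_nil (b x : Pt) : G [] b x = max (min (b []) (2 - 2 * x [])) (x [mid]) := rfl

theorem G_lt {b : Pt} {q : Q} (h : val q < b []) (u : List Q) (x : Pt) :
    G (q :: u) b x = x (rfx q :: u) := by
  show (if val q < b [] then x (rfx q :: u) else
      if val q = b [] then G u (sh q b) (dl x) else x (mid :: q :: u)) = _
  rw [if_pos h]

theorem G_eq {b : Pt} {q : Q} (h : val q = b []) (u : List Q) (x : Pt) :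
    G (q :: u) b x = G u (sh q b) (dl x) := by
  show (if val q < b [] then x (rfx q :: u) else
      if val q = b [] then G u (sh q b) (dl x) else x (mid :: q :: u)) = _
  rw [if_neg h.not_lt, if_pos h]

theorem G_gt {b : Pt} {q : Q} (h : b [] < val q) (u : List Q) (x : Pt) :
    G (q :: u) b x = x (mid :: q :: u) := by
  show (if val q < b [] then x (rfx q :: u) else
      if val q = b [] then G u (sh q b) (dl x) else x (mid :: q :: u)) = _
  rw [if_neg (not_lt.2 h.le), if_neg h.ne']

theorem G_mem (v : List Q) {b x : Pt} (hb : InX b) (hx : InX x) : G v b x ∈ Icc (0 : ℝ) 1 := by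
  induction v generalizing b x with
  | nil =>
    have h1 := hb.1 []
    have h2 := hx.1 []
    have h3 := hx.1 [mid]
    refine ⟨le_max_of_le_right h3.1, max_le ((min_le_left _ _).trans h1.2) h3.2⟩
  | cons q u ih =>
    rcases lt_trichotomy (val q) (b []) with h | h | h
    · rw [G_lt h]
      exact hx.1 _
    · rw [G_eq h]
      exact ih (hb.sh q) hx.dl
    · rw [G_gt h]
      exact hx.1 _

theorem G_cond (w : List Q) (q : Q) {b x : Pt} (hb : InX b) (hx : InX x)
    (hq : G (w ++ [q]) b x ≠ 0) : G w b x = val q := by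
  induction w generalizing b x with
  | nil =>
    rw [List.nil_append] at hq
    have hbx := hb.1 []
    rcases lt_trichotomy (val q) (b []) with h | h | h
    · rw [G_lt h] at hq
      have h1 := hx.first hq
      rw [val_rfx] at h1
      have h2 : x [mid] = 0 := by
        apply hx.zero_of_ne
        rw [h1, val_mid]
        have := val_lt_one q
        intro h3
        linarith
      rw [G_nil, h1, h2]
      have h3 : 2 - 2 * (1 - val q / 2) = val q := by ring
      rw [h3, min_eq_right h.le]
      exact max_eq_left (val_pos q).le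
    · rw [G_eq h, G_nil] at hq
      have hlt : x [] < 1 / 2 := by
        by_contra hcon
        rw [dl_ge hx (not_lt.1 hcon)] at hq
        apply hq
        have h1 : pt 1 [] = 1 := if_pos rfl
        have h2 : pt 1 [mid] = 0 := if_neg (by simp)
        rw [h1, h2]
        have h3 := ((hb.sh q).1 []).1
        rw [show (2 : ℝ) - 2 * 1 = 0 by ring, min_eq_right h3, max_self]
      have h2 : x [mid] = 0 := by
        apply hx.zero_of_ne
        rw [val_mid]
        exact hlt.ne
      rw [G_nil, h2, min_eq_left (by linarith [hbx.2]), max_eq_left hbx.1, h]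
    · rw [G_gt h] at hq
      have h1 := (hx.sh mid).first hq
      have h2 : x [] = val mid := by
        apply hx.first (q := mid) (u := [])
        have h3 : x [mid] = val q := h1
        rw [h3]
        exact (val_pos q).ne'
      have h3 : x [mid] = val q := h1
      rw [G_nil, h2, h3, val_mid]
      have h4 : (2 : ℝ) - 2 * (1 / 2) = 1 := by norm_num
      rw [h4, min_eq_left hbx.2]
      exact max_eq_right h.le
  | cons p w ih =>
    rw [List.cons_append] at hq
    rcases lt_trichotomy (val p) (b []) with h | h | h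
    · rw [G_lt h] at hq ⊢
      exact hx.2 (rfx p :: w) q hq
    · rw [G_eq h] at hq ⊢
      exact ih (hb.sh p) hx.dl hq
    · rw [G_gt h] at hq ⊢
      exact hx.2 (mid :: p :: w) q hq

theorem InX.G {b x : Pt} (hb : InX b) (hx : InX x) : InX (fun v => G v b x) :=
  ⟨fun v => G_mem v hb hx, fun w q hq => G_cond w q hb hx hq⟩

theorem continuous_G (v : List Q) (b : Pt) : Continuous (fun x => G v b x) := by
  induction v generalizing b with
  | nil =>
    exact (continuous_const.min (continuous_const.sub (continuous_const.mul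
      (continuous_apply _)))).max (continuous_apply _)
  | cons q u ih =>
    rcases lt_trichotomy (val q) (b []) with h | h | h
    · simp only [G_lt h]
      exact continuous_apply _
    · simp only [G_eq h]
      exact (ih (sh q b)).comp continuous_dl
    · simp only [G_gt h]
      exact continuous_apply _

theorem dl_zero : dl 0 = 0 := by
  funext v
  rcases v with _ | ⟨q, u⟩
  · show min 1 (2 * (0 : ℝ)) = 0
    simp
  · rfl

theorem dl_pt_one : dl (pt 1) = pt 1 := by
  funext v
  rcases v with _ | ⟨q, u⟩
  · show min 1 (2 * (1 : ℝ)) = 1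
    norm_num
  · rfl

theorem G_zero (v : List Q) {b : Pt} (hb : InX b) : G v b 0 = b v := by
  induction v generalizing b with
  | nil =>
    rw [G_nil]
    have h1 := hb.1 []
    show max (min (b []) (2 - 2 * (0 : ℝ))) (0 : ℝ) = b []
    rw [min_eq_left (by linarith [h1.2]), max_eq_left h1.1]
  | cons q u ih =>
    rcases lt_trichotomy (val q) (b []) with h | h | h
    · rw [G_lt h]
      exact (hb.zero_of_ne h.ne' u).symm
    · rw [G_eq h, dl_zero]
      exact ih (hb.sh q)
    · rw [G_gt h]
      exact (hb.zero_of_ne h.ne u).symm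

theorem G_pt_one (v : List Q) {b : Pt} (hb : InX b) : G v b (pt 1) = 0 := by
  induction v generalizing b with
  | nil =>
    rw [G_nil]
    have h1 := hb.1 []
    show max (min (b []) (2 - 2 * (1 : ℝ))) (0 : ℝ) = 0
    rw [show (2 : ℝ) - 2 * 1 = 0 by ring, min_eq_right h1.1, max_self]
  | cons q u ih =>
    rcases lt_trichotomy (val q) (b []) with h | h | h
    · rw [G_lt h]
      rfl
    · rw [G_eq h, dl_pt_one]
      exact ih (hb.sh q)
    · rw [G_gt h]
      rfl

end Dend

namespace Dend

/-- The fibres of the rerooting maps. -/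
def Fib (b y : Pt) : Set Pt := {x | InX x ∧ ∀ v, G v b x = y v}

theorem exists_rfx {t : ℝ} {p : Q} (h : val p = 1 - t / 2) (h1 : 0 < t) (h2 : t < 1) :
    ∃ q : Q, rfx q = p ∧ val q = t := by
  have h3 : (2 - 2 * (p : ℚ) : ℚ) ∈ Set.Ioo (0 : ℚ) 1 := by
    have h0 : ((p : ℚ) : ℝ) = 1 - t / 2 := h
    constructor
    · have : ((0 : ℚ) : ℝ) < ((2 - 2 * (p : ℚ) : ℚ) : ℝ) := by
        push_cast
        rw [h0]
        linarith
      exact_mod_cast this
    · have : ((2 - 2 * (p : ℚ) : ℚ) : ℝ) < ((1 : ℚ) : ℝ) := by
        push_cast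
        rw [h0]
        linarith
      exact_mod_cast this
  have h4 : rfx ⟨2 - 2 * (p : ℚ), h3⟩ = p := by
    apply Subtype.ext
    show 1 - (2 - 2 * (p : ℚ)) / 2 = p
    ring
  refine ⟨⟨2 - 2 * (p : ℚ), h3⟩, h4, ?_⟩
  have h5 := congrArg val h4
  rw [val_rfx, h] at h5
  linarith

/-- If the root coordinates differ, there is at most one point in the fibre. -/
theorem fib_subsingleton {b y : Pt} (hb : InX b) (hy : InX y) (hne : y [] ≠ b []) :
    (Fib b y).Subsingleton := by
  have hb0 := hb.1 []
  have hy0 := hy.1 []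
  have key : ∀ x x' : Pt, x ∈ Fib b y → x' ∈ Fib b y → ∀ v, x v ≠ 0 → x' v = x v := by
    rintro x x' ⟨hx, hxy⟩ ⟨hx', hxy'⟩ v hv
    have h0 := hxy []
    have h0' := hxy' []
    rw [G_nil] at h0 h0'
    rcases lt_or_gt_of_ne hne with hlt | hgt
    · -- the image lies below the root coordinate of `b`
      have aux : ∀ z : Pt, InX z → max (min (b []) (2 - 2 * z [])) (z [mid]) = y [] →
          z [] = 1 - y [] / 2 := by
        intro z hz h
        have h1 : min (b []) (2 - 2 * z []) ≤ y [] := h ▸ le_max_left _ _
        have h2 : 2 - 2 * z [] ≤ y [] := by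
          rcases min_le_iff.1 h1 with h3 | h3
          · exact absurd h3 (not_le.2 hlt)
          · exact h3
        have hm : z [mid] = 0 := by
          by_contra hm
          have h3 := hz.first hm
          rw [val_mid] at h3
          rw [h3] at h2
          linarith [hb0.2]
        rw [hm, min_eq_right (h2.trans hlt.le)] at h
        have h3 : (0 : ℝ) ≤ 2 - 2 * z [] := by
          have := (hz.1 []).2
          linarith
        rw [max_eq_left h3] at h
        linarith
      have hx0 := aux x hx h0
      have hx0' := aux x' hx' h0'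
      rcases v with _ | ⟨p, u⟩
      · rw [hx0, hx0']
      · have h1 := hx.first hv
        rw [hx0] at h1
        have hy1 : 0 < y [] := by
          have := val_lt_one p
          linarith
        obtain ⟨q, hq, hqy⟩ := exists_rfx h1.symm hy1 (by linarith [hb0.2])
        have h2 := hxy (q :: u)
        have h3 := hxy' (q :: u)
        rw [G_lt (hqy ▸ hlt), hq] at h2 h3
        rw [h2, h3]
    · have aux : ∀ z : Pt, InX z → max (min (b []) (2 - 2 * z [])) (z [mid]) = y [] →
          z [] = 1 / 2 ∧ z [mid] = y [] := by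
        intro z hz h
        have h1 : z [mid] = y [] := by
          rcases max_choice (min (b []) (2 - 2 * z [])) (z [mid]) with h2 | h2
          · exfalso
            rw [h2] at h
            have := min_le_left (b []) (2 - 2 * z [])
            linarith
          · rw [← h, h2]
        refine ⟨?_, h1⟩
        have h2 : z [mid] ≠ 0 := by
          rw [h1]
          linarith [hb0.1]
        rw [hz.first h2, val_mid]
      obtain ⟨hx0, hx1⟩ := aux x hx h0
      obtain ⟨hx0', hx1'⟩ := aux x' hx' h0'
      rcases v with _ | ⟨p, u⟩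
      · rw [hx0, hx0']
      · have hp : p = mid := by
          apply val_inj
          rw [← hx.first hv, hx0, val_mid]
        subst hp
        rcases u with _ | ⟨q, u⟩
        · rw [hx1, hx1']
        · have hq : x [mid] = val q := (hx.sh mid).first hv
          have hgt' : b [] < val q := by
            rw [← hq, hx1]
            exact hgt
          have h2 := hxy (q :: u)
          have h3 := hxy' (q :: u)
          rw [G_gt hgt'] at h2 h3
          rw [h2, h3]
  intro x hx x' hx'
  funext v
  by_cases h : x v = 0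
  · by_cases h' : x' v = 0
    · rw [h, h']
    · exact key x' x hx' hx v h'
  · exact (key x x' hx hx' v h).symm

/-- The root equation. -/
theorem root_iff {b x : Pt} (hb : InX b) (hx : InX x) :
    G [] b x = b [] ↔ x [] ≤ 1 - b [] / 2 ∧ x [mid] ≤ b [] := by
  have hb0 := hb.1 []
  rw [G_nil]
  constructor
  · intro h
    have h1 : x [mid] ≤ b [] := h ▸ le_max_right _ _
    refine ⟨?_, h1⟩
    by_cases hm : x [mid] = 0
    · rw [hm] at h
      by_cases h2 : b [] ≤ 2 - 2 * x []
      · linarith
      · rw [min_eq_right (not_le.1 h2).le] at h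
        have h3 : (0 : ℝ) ≤ 2 - 2 * x [] := by
          have := (hx.1 []).2
          linarith
        rw [max_eq_left h3] at h
        linarith
    · rw [hx.first hm, val_mid]
      linarith [hb0.2]
  · rintro ⟨h1, h2⟩
    rw [min_eq_left (by linarith), max_eq_left h2]

/-- The fibre of the point of the root arc at the root coordinate of `b`, when this coordinate is
not a letter. -/
theorem fib_irr {b y : Pt} (hb : InX b) (hy : InX y) (h : y [] = b [])
    (hq : ∀ q : Q, val q ≠ b []) : IsPreconnected (Fib b y) := by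
  have hb0 := hb.1 []
  have h1 : Fib b y = {x | InX x ∧ x [] ≤ 1 - b [] / 2 ∧ x [mid] ≤ b []} := by
    ext x
    constructor
    · rintro ⟨hx, hxy⟩
      exact ⟨hx, (root_iff hb hx).1 ((hxy []).trans h)⟩
    · rintro ⟨hx, h1, h2⟩
      refine ⟨hx, ?_⟩
      intro v
      rcases v with _ | ⟨q, u⟩
      · exact ((root_iff hb hx).2 ⟨h1, h2⟩).trans h.symm
      · have hyq : y (q :: u) = 0 := hy.zero_of_ne (fun h3 => hq q (h3.symm.trans h)) u
        rw [hyq]
        rcases lt_trichotomy (val q) (b []) with h3 | h3 | h3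
        · rw [G_lt h3]
          apply hx.zero_of_ne
          rw [val_rfx]
          intro h4
          linarith
        · exact absurd h3 (hq q)
        · rw [G_gt h3]
          apply (hx.sh mid).zero_of_ne
          intro h4
          have h5 : x [mid] = val q := h4
          linarith
  rw [h1]
  apply preconn_crit (α := 0) zero_le_one
  · rintro x ⟨hx, -, -⟩
    exact ⟨hx, (hx.1 []).1⟩
  · rintro x ⟨hx, h2, h3⟩ s hs -
    refine ⟨hx.C 0 hs, ?_, ?_⟩
    · show min s (x []) ≤ _
      exact (min_le_right _ _).trans h2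
    · show (0 : ℝ) ≤ b []
      exact hb0.1
  · rintro x ⟨hx, h2, h3⟩ i hi s hs -
    refine ⟨hx.C i hs, ?_, ?_⟩
    · have h4 : C i s x [] = x [] := by
        unfold C
        rw [if_pos (show ([] : List Q).length < i from hi)]
      rw [h4]
      exact h2
    · refine le_trans ?_ h3
      unfold C
      have h5 := (hx.1 [mid]).1
      split_ifs
      · exact le_rfl
      · exact min_le_right _ _
      · exact h5

/-- The fibre of a rational point of the root arc. -/
theorem fib_rat {b y : Pt} (hb : InX b) (hy : InX y) (h : y [] = b []) {q0 : Q}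
    (hq0 : val q0 = b []) (hy0 : sh q0 y = 0) : IsPreconnected (Fib b y) := by
  have hb0 := hb.1 []
  have hyz : ∀ q u, y (q :: u) = 0 := by
    intro q u
    by_cases hq : q = q0
    · rw [hq]
      exact congrFun hy0 u
    · apply hy.zero_of_ne
      intro h3
      exact hq (val_inj ((h3.symm.trans h).trans hq0.symm))
  have hother : ∀ x : Pt, InX x → x [] ≤ 1 - b [] / 2 → x [mid] ≤ b [] → ∀ q u, q ≠ q0 →
      G (q :: u) b x = 0 := by
    intro x hx h1 h2 q u hq
    rcases lt_trichotomy (val q) (b []) with h3 | h3 | h3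
    · rw [G_lt h3]
      apply hx.zero_of_ne
      rw [val_rfx]
      intro h4
      linarith
    · exact absurd (val_inj (h3.trans hq0.symm)) hq
    · rw [G_gt h3]
      apply (hx.sh mid).zero_of_ne
      intro h4
      have h5 : x [mid] = val q := h4
      linarith
  by_cases hb' : sh q0 b = 0
  · -- the branch of `b` is trivial
    have h1 : Fib b y = {x | InX x ∧ x [] ≤ 1 - b [] / 2 ∧ x [mid] ≤ b [] ∧
        x [half mid] = 0} := by
      ext x
      constructor
      · rintro ⟨hx, hxy⟩
        have h1 := (root_iff hb hx).1 ((hxy []).trans h)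
        refine ⟨hx, h1.1, h1.2, ?_⟩
        have h2 := hxy [q0]
        rw [G_eq hq0, hyz, G_nil] at h2
        have h3 : dl x [mid] ≤ 0 := h2 ▸ le_max_right _ _
        exact le_antisymm h3 (hx.1 _).1
      · rintro ⟨hx, h1, h2, h3⟩
        refine ⟨hx, ?_⟩
        intro v
        rcases v with _ | ⟨q, u⟩
        · exact ((root_iff hb hx).2 ⟨h1, h2⟩).trans h.symm
        · rw [hyz]
          by_cases hq : q = q0
          · subst hq
            rw [G_eq hq0, hb']
            have hd := hx.dl
            have h4 : ∀ u, dl x (mid :: u) = 0 := by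
              intro u
              show x (half mid :: u) = 0
              rcases u with _ | ⟨p, u⟩
              · exact h3
              · apply (hx.sh (half mid)).zero_of_ne
                show x [half mid] ≠ _
                rw [h3]
                exact (val_pos p).ne
            rcases u with _ | ⟨p, u⟩
            · rw [G_nil, h4 [], Pi.zero_apply]
              have h5 : (0 : ℝ) ≤ 2 - 2 * dl x [] := by
                have := (hd.1 []).2
                linarith
              rw [min_eq_left h5, max_self]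
            · rw [G_gt (by exact val_pos p)]
              exact h4 _
          · exact hother x hx h1 h2 q u hq
    rw [h1]
    apply preconn_crit (α := 0) zero_le_one
    · rintro x ⟨hx, -, -⟩
      exact ⟨hx, (hx.1 []).1⟩
    · rintro x ⟨hx, h2, h3, h4⟩ s hs -
      refine ⟨hx.C 0 hs, ?_, ?_, ?_⟩
      · show min s (x []) ≤ _
        exact (min_le_right _ _).trans h2
      · show (0 : ℝ) ≤ b []
        exact hb0.1
      · rfl
    · rintro x ⟨hx, h2, h3, h4⟩ i hi s hs -
      refine ⟨hx.C i hs, ?_, ?_, ?_⟩
      · have h4 : C i s x [] = x [] := by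
          unfold C
          rw [if_pos (show ([] : List Q).length < i from hi)]
        rw [h4]
        exact h2
      · refine le_trans ?_ h3
        unfold C
        have h5 := (hx.1 [mid]).1
        split_ifs
        · exact le_rfl
        · exact min_le_right _ _
        · exact h5
      · unfold C
        rw [h4]
        split_ifs
        · rfl
        · exact min_eq_right hs
        · rfl
  · -- the branch of `b` is nontrivial
    have hb1 : 0 < sh q0 b [] := by
      rcases (((hb.sh q0).1 []).1).lt_or_eq with h2 | h2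
      · exact h2
      · exact absurd ((hb.sh q0).eq_zero h2.symm) hb'
    have h1 : Fib b y = {x | InX x ∧ 1 / 2 ≤ x [] ∧ x [] ≤ 1 - b [] / 2 ∧ x [mid] ≤ b []} := by
      ext x
      constructor
      · rintro ⟨hx, hxy⟩
        have h1 := (root_iff hb hx).1 ((hxy []).trans h)
        refine ⟨hx, ?_, h1.1, h1.2⟩
        have h2 := hxy [q0]
        rw [G_eq hq0, hyz, G_nil] at h2
        by_contra hcon
        have h3 : dl x [] < 1 := by
          show min 1 (2 * x []) < 1
          exact min_lt_of_right_lt (by linarith [not_le.1 hcon])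
        have h4 : 0 < min (sh q0 b []) (2 - 2 * dl x []) := lt_min hb1 (by linarith)
        have h5 : min (sh q0 b []) (2 - 2 * dl x []) ≤ 0 := h2 ▸ le_max_left _ _
        linarith
      · rintro ⟨hx, h0, h1, h2⟩
        refine ⟨hx, ?_⟩
        intro v
        rcases v with _ | ⟨q, u⟩
        · exact ((root_iff hb hx).2 ⟨h1, h2⟩).trans h.symm
        · rw [hyz]
          by_cases hq : q = q0
          · subst hq
            rw [G_eq hq0, dl_ge hx h0]
            exact G_pt_one u (hb.sh q)
          · exact hother x hx h1 h2 q u hq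
    rw [h1]
    apply preconn_crit (α := 1 / 2) (by norm_num)
    · rintro x ⟨hx, h0, -, -⟩
      exact ⟨hx, h0⟩
    · rintro x ⟨hx, h0, h2, h3⟩ s hs -
      refine ⟨hx.C 0 (by linarith), ?_, ?_, ?_⟩
      · show _ ≤ min s (x [])
        exact le_min hs h0
      · show min s (x []) ≤ _
        exact (min_le_right _ _).trans h2
      · show (0 : ℝ) ≤ b []
        exact hb0.1
    · rintro x ⟨hx, h0, h2, h3⟩ i hi s hs -
      have h4 : C i s x [] = x [] := by
        unfold C
        rw [if_pos (show ([] : List Q).length < i from hi)]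
      refine ⟨hx.C i hs, ?_, ?_, ?_⟩
      · rw [h4]
        exact h0
      · rw [h4]
        exact h2
      · refine le_trans ?_ h3
        unfold C
        have h5 := (hx.1 [mid]).1
        split_ifs
        · exact le_rfl
        · exact min_le_right _ _
        · exact h5

/-- The recursive structure of the fibres. -/
theorem fib_rec {b y : Pt} (hb : InX b) (hy : InX y) (h : y [] = b []) {q0 : Q}
    (hq0 : val q0 = b []) (hy0 : sh q0 y ≠ 0) :
    Fib b y = et '' Fib (sh q0 b) (sh q0 y) ∧ ∀ x ∈ Fib b y, x [] < 1 / 2 := by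
  have hb0 := hb.1 []
  have hlt : ∀ x ∈ Fib b y, x [] < 1 / 2 := by
    rintro x ⟨hx, hxy⟩
    by_contra hcon
    apply hy0
    funext u
    show y (q0 :: u) = 0
    rw [← hxy (q0 :: u), G_eq hq0, dl_ge hx (not_lt.1 hcon)]
    exact G_pt_one u (hb.sh q0)
  refine ⟨?_, hlt⟩
  ext x
  constructor
  · intro hxF
    have hx := hxF.1
    refine ⟨dl x, ⟨hx.dl, ?_⟩, et_dl hx (hlt x hxF)⟩
    intro u
    rw [← G_eq hq0]
    exact hxF.2 (q0 :: u)
  · rintro ⟨x, ⟨hx, hxy⟩, rfl⟩
    have hx0 := hx.1 []
    refine ⟨hx.et, ?_⟩
    intro v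
    have hmid : et x [mid] = 0 := et_ge x (by rw [val_mid]) []
    have hroot : et x [] = x [] / 2 := rfl
    rcases v with _ | ⟨q, u⟩
    · rw [h, root_iff hb hx.et, hmid, hroot]
      exact ⟨by linarith [hx0.2, hb0.2], hb0.1⟩
    · rcases lt_trichotomy (val q) (b []) with h3 | h3 | h3
      · rw [G_lt h3, hy.zero_of_ne (h ▸ h3.ne')]
        apply et_ge
        rw [val_rfx]
        have := val_lt_one q
        linarith
      · have : q = q0 := val_inj (h3.trans hq0.symm)
        subst this
        rw [G_eq hq0, dl_et hx]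
        exact hxy u
      · rw [G_gt h3, hy.zero_of_ne (h ▸ h3.ne)]
        exact et_ge x (by rw [val_mid]) _

theorem fib_bound (n : ℕ) {b y : Pt} (hb : InX b) (hy : InX y) (hF : ¬ IsPreconnected (Fib b y))
    {x : Pt} (hx : x ∈ Fib b y) : x [] ≤ (1 / 2) ^ n := by
  induction n generalizing b y x with
  | zero =>
    rw [pow_zero]
    exact (hx.1.1 []).2
  | succ n ih =>
    have h1 : y [] = b [] := by
      by_contra hcon
      exact hF (fib_subsingleton hb hy hcon).isPreconnected
    obtain ⟨q0, hq0⟩ : ∃ q : Q, val q = b [] := by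
      by_contra hcon
      push Not at hcon
      exact hF (fib_irr hb hy h1 hcon)
    have h2 : sh q0 y ≠ 0 := by
      intro hcon
      exact hF (fib_rat hb hy h1 hq0 hcon)
    obtain ⟨h3, -⟩ := fib_rec hb hy h1 hq0 h2
    have h4 : ¬ IsPreconnected (Fib (sh q0 b) (sh q0 y)) := by
      intro hcon
      apply hF
      rw [h3]
      exact hcon.image _ continuous_et.continuousOn
    rw [h3] at hx
    obtain ⟨x', hx', rfl⟩ := hx
    have h5 := ih (hb.sh q0) (hy.sh q0) h4 hx'
    show x' [] / 2 ≤ _
    rw [pow_succ]
    linarith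

/-- The fibres are connected. -/
theorem fib_preconnected {b y : Pt} (hb : InX b) (hy : InX y) : IsPreconnected (Fib b y) := by
  by_contra hF
  apply hF
  apply Set.Subsingleton.isPreconnected
  have key : ∀ x ∈ Fib b y, x = 0 := by
    intro x hx
    apply hx.1.eq_zero
    refine le_antisymm ?_ (hx.1.1 []).1
    have h1 : Tendsto (fun n : ℕ => (1 / 2 : ℝ) ^ n) atTop (𝓝 0) :=
      tendsto_pow_atTop_nhds_zero_of_lt_one (by norm_num) (by norm_num)
    exact ge_of_tendsto' h1 fun n => fib_bound n hb hy hF hx
  intro x hx x' hx'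
  rw [key x hx, key x' hx']

end Dend

namespace Dend

theorem inX_pt {s : ℝ} (h0 : 0 ≤ s) (h1 : s ≤ 1) : InX (pt s) := by
  apply inX_of
  · exact ⟨h0, h1⟩
  · intro q hq
    exact absurd rfl hq
  · intro q
    exact inX_zero

/-- Exact preimages when the root coordinates differ. -/
theorem surj_ne {b y : Pt} (hb : InX b) (hy : InX y) (hne : y [] ≠ b []) :
    ∃ x, InX x ∧ ∀ v, G v b x = y v := by
  have hb0 := hb.1 []
  have hy0 := hy.1 []
  rcases lt_or_gt_of_ne hne with hlt | hgt
  · have hex : ∃ x, InX x ∧ x [] = 1 - y [] / 2 ∧ ∀ q u, x (rfx q :: u) = y (q :: u) := by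
      by_cases h : ∃ q1 : Q, val q1 = y []
      · obtain ⟨q1, hq1⟩ := h
        refine ⟨ins (rfx q1) (sh q1 y), (hy.sh q1).ins _, ?_, ?_⟩
        · show val (rfx q1) = _
          rw [val_rfx, hq1]
        · intro q u
          show (if rfx q = rfx q1 then y (q1 :: u) else 0) = y (q :: u)
          by_cases h1 : q = q1
          · rw [h1, if_pos rfl]
          · rw [if_neg (fun h2 => h1 (rfx_inj h2))]
            symm
            apply hy.zero_of_ne
            intro h2
            exact h1 (val_inj (h2.symm.trans hq1.symm))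
      · refine ⟨pt (1 - y [] / 2), inX_pt (by linarith [hy0.2]) (by linarith [hy0.1]), rfl, ?_⟩
        intro q u
        show (0 : ℝ) = y (q :: u)
        symm
        apply hy.zero_of_ne
        intro h2
        exact h ⟨q, h2.symm⟩
    obtain ⟨x, hx, hx0, hxq⟩ := hex
    have hgt : 1 / 2 < x [] := by
      rw [hx0]
      linarith [hb0.2]
    have hmid : x [] ≠ val mid := by
      rw [val_mid]
      exact hgt.ne'
    refine ⟨x, hx, ?_⟩
    intro v
    rcases v with _ | ⟨q, u⟩
    · rw [G_nil, hx.zero_of_ne hmid, hx0]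
      have h1 : 2 - 2 * (1 - y [] / 2) = y [] := by ring
      rw [h1, min_eq_right hlt.le, max_eq_left hy0.1]
    · rcases lt_trichotomy (val q) (b []) with h3 | h3 | h3
      · rw [G_lt h3]
        exact hxq q u
      · rw [G_eq h3, dl_ge hx hgt.le, G_pt_one u (hb.sh q)]
        symm
        apply hy.zero_of_ne
        rw [h3]
        exact hne
      · rw [G_gt h3, hx.zero_of_ne hmid]
        symm
        apply hy.zero_of_ne
        exact (hlt.trans h3).ne
  · refine ⟨ins mid y, hy.ins mid, ?_⟩
    have hx0 : ins mid y [] = 1 / 2 := val_mid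
    intro v
    rcases v with _ | ⟨q, u⟩
    · have h1 : ins mid y [mid] = y [] := congrFun (sh_ins mid y) []
      rw [G_nil, h1]
      exact max_eq_right ((min_le_left _ _).trans hgt.le)
    · rcases lt_trichotomy (val q) (b []) with h3 | h3 | h3
      · rw [G_lt h3, hy.zero_of_ne (h3.trans hgt).ne']
        apply (hy.ins mid).zero_of_ne
        rw [hx0, val_rfx]
        have := val_lt_one q
        intro h4
        linarith
      · rw [G_eq h3, dl_ge (hy.ins mid) hx0.ge, G_pt_one u (hb.sh q)]
        symm
        apply hy.zero_of_ne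
        rw [h3]
        exact hne
      · rw [G_gt h3]
        exact congrFun (sh_ins mid y) (q :: u)

theorem approx (n : ℕ) {b y : Pt} (hb : InX b) (hy : InX y) :
    ∃ x, InX x ∧ ∀ v, v.length ≤ n → G v b x = y v := by
  induction n generalizing b y with
  | zero =>
    by_cases hne : y [] = b []
    · refine ⟨0, inX_zero, ?_⟩
      intro v hv
      have : v = [] := List.eq_nil_of_length_eq_zero (by omega)
      rw [this, G_zero _ hb, hne]
    · obtain ⟨x, hx, hxy⟩ := surj_ne hb hy hne
      exact ⟨x, hx, fun v _ => hxy v⟩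
  | succ n ih =>
    by_cases hne : y [] = b []
    · by_cases hq : ∃ q : Q, val q = b []
      · obtain ⟨q0, hq0⟩ := hq
        obtain ⟨x, hx, hxy⟩ := ih (hb.sh q0) (hy.sh q0)
        have hb0 := hb.1 []
        have hx0 := hx.1 []
        refine ⟨et x, hx.et, ?_⟩
        intro v hv
        have hmid : et x [mid] = 0 := et_ge x (by rw [val_mid]) []
        have hroot : et x [] = x [] / 2 := rfl
        rcases v with _ | ⟨q, u⟩
        · rw [hne, root_iff hb hx.et, hmid, hroot]
          exact ⟨by linarith [hx0.2, hb0.2], hb0.1⟩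
        · rcases lt_trichotomy (val q) (b []) with h3 | h3 | h3
          · rw [G_lt h3, hy.zero_of_ne (hne ▸ h3.ne')]
            apply et_ge
            rw [val_rfx]
            have := val_lt_one q
            linarith
          · have : q = q0 := val_inj (h3.trans hq0.symm)
            subst this
            rw [G_eq hq0, dl_et hx]
            exact hxy u (by simpa using hv)
          · rw [G_gt h3, hy.zero_of_ne (hne ▸ h3.ne)]
            exact et_ge x (by rw [val_mid]) _
      · push Not at hq
        refine ⟨0, inX_zero, ?_⟩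
        intro v _
        rw [G_zero _ hb]
        rcases v with _ | ⟨q, u⟩
        · exact hne.symm
        · rw [hb.zero_of_ne (fun h => hq q h.symm),
            hy.zero_of_ne (fun h => hq q (h.symm.trans hne))]
    · obtain ⟨x, hx, hxy⟩ := surj_ne hb hy hne
      exact ⟨x, hx, fun v _ => hxy v⟩

theorem fib_nonempty {b y : Pt} (hb : InX b) (hy : InX y) : (Fib b y).Nonempty := by
  have hcont : Continuous (fun x : Pt => (fun v => G v b x : Pt)) :=
    continuous_pi fun v => continuous_G v b
  have h1 : IsClosed ((fun x : Pt => (fun v => G v b x : Pt)) '' {x | InX x}) :=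
    (isCompact_inX.image hcont).isClosed
  choose x hx hxy using fun n => approx n hb hy
  have h2 : Tendsto (fun n => (fun v => G v b (x n) : Pt)) atTop (𝓝 y) := by
    rw [tendsto_pi_nhds]
    intro v
    refine tendsto_const_nhds.congr' ?_
    filter_upwards [eventually_ge_atTop v.length] with n hn
    exact (hxy n v hn).symm
  obtain ⟨z, hz, hzy⟩ := h1.mem_of_tendsto h2 (Eventually.of_forall fun n => ⟨x n, hx n, rfl⟩)
  exact ⟨z, hz, fun v => congrFun hzy v⟩

/-- The preimage of the fibres under the shift. -/
theorem shift_fib {b y : Pt} (hb : InX b) (hy : InX y) (q : Q) :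
    IsPreconnected {x : Pt | InX x ∧ sh q x ∈ Fib b y} := by
  have h1 : IsPreconnected (ins q '' Fib b y) :=
    (fib_preconnected hb hy).image _ (continuous_ins q).continuousOn
  by_cases h0 : (0 : Pt) ∈ Fib b y
  · have h2 : IsPreconnected {x : Pt | InX x ∧ x [q] = 0} := by
      apply preconn_crit (α := 0) zero_le_one
      · rintro x ⟨hx, -⟩
        exact ⟨hx, (hx.1 []).1⟩
      · rintro x ⟨hx, -⟩ s hs -
        exact ⟨hx.C 0 hs, rfl⟩
      · rintro x ⟨hx, h4⟩ i hi s hs -
        refine ⟨hx.C i hs, ?_⟩
        unfold C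
        rw [h4]
        split_ifs
        · rfl
        · exact min_eq_right hs
        · rfl
    have h3 : {x : Pt | InX x ∧ sh q x ∈ Fib b y} =
        ins q '' Fib b y ∪ {x : Pt | InX x ∧ x [q] = 0} := by
      ext x
      constructor
      · rintro ⟨hx, hxF⟩
        by_cases h4 : x [] = val q
        · left
          exact ⟨sh q x, hxF, ins_sh hx h4⟩
        · right
          exact ⟨hx, hx.zero_of_ne h4 []⟩
      · rintro (⟨z, hz, rfl⟩ | ⟨hx, hx0⟩)
        · refine ⟨hz.1.ins q, ?_⟩
          rw [sh_ins]
          exact hz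
        · refine ⟨hx, ?_⟩
          rw [(hx.sh q).eq_zero hx0]
          exact h0
    rw [h3]
    refine IsPreconnected.union (ins q 0) ⟨0, h0, rfl⟩ ⟨inX_zero.ins q, ?_⟩ h1 h2
    exact congrFun (sh_ins q 0) []
  · have h3 : {x : Pt | InX x ∧ sh q x ∈ Fib b y} = ins q '' Fib b y := by
      ext x
      constructor
      · rintro ⟨hx, hxF⟩
        by_cases h4 : x [] = val q
        · exact ⟨sh q x, hxF, ins_sh hx h4⟩
        · exfalso
          apply h0
          have h5 : sh q x = 0 := by
            funext u
            exact hx.zero_of_ne h4 u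
          rwa [h5] at hxF
      · rintro ⟨z, hz, rfl⟩
        refine ⟨hz.1.ins q, ?_⟩
        rw [sh_ins]
        exact hz
    rw [h3]
    exact h1

/-- The dendrite. -/
abbrev X : Type := {x : Pt // InX x}

instance : CompactSpace X := isCompact_iff_compactSpace.1 isCompact_inX

instance : ConnectedSpace X := by
  have h1 : IsPreconnected {x : Pt | InX x} := by
    apply preconn_crit (α := 0) zero_le_one
    · intro x hx
      exact ⟨hx, (hx.1 []).1⟩
    · intro x hx s hs _
      exact InX.C hx 0 hs
    · intro x hx i _ s hs _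
      exact InX.C hx i hs
  have h2 : PreconnectedSpace X := isPreconnected_iff_preconnectedSpace.1 h1
  exact { toPreconnectedSpace := h2, toNonempty := ⟨⟨0, inX_zero⟩⟩ }

instance : (uniformity X).IsCountablyGenerated :=
  inferInstanceAs (uniformity ({x : Pt | InX x} : Set Pt)).IsCountablyGenerated

noncomputable instance : MetricSpace X := UniformSpace.metricSpace X

/-- Monotone homogeneity. -/
theorem mono_homogeneous (a b : X) : ∃ f : X → X, Continuous f ∧ Function.Surjective f ∧
    (∀ y, IsConnected (f ⁻¹' {y})) ∧ f a = b := by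
  obtain ⟨q, hq⟩ : ∃ q : Q, a.1 [] ≠ val q := by
    by_contra hcon
    push Not at hcon
    have h1 := (hcon mid).symm.trans (hcon (half mid))
    rw [val_half, val_mid] at h1
    norm_num at h1
  have hcont : Continuous (fun x : X => (fun v => G v b.1 (sh q x.1) : Pt)) :=
    continuous_pi fun v => (continuous_G v b.1).comp ((continuous_sh q).comp
      continuous_subtype_val)
  set f : X → X := fun x => ⟨fun v => G v b.1 (sh q x.1), b.2.G (x.2.sh q)⟩ with hf
  have hfib : ∀ y : X, Subtype.val '' (f ⁻¹' {y}) = {x : Pt | InX x ∧ sh q x ∈ Fib b.1 y.1} := by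
    intro y
    ext x
    constructor
    · rintro ⟨z, hz, rfl⟩
      refine ⟨z.2, z.2.sh q, fun v => ?_⟩
      have h1 : f z = y := hz
      exact congrFun (congrArg Subtype.val h1) v
    · rintro ⟨hx, -, hxy⟩
      refine ⟨⟨x, hx⟩, ?_, rfl⟩
      apply Subtype.ext
      funext v
      exact hxy v
  refine ⟨f, hcont.subtype_mk _, ?_, ?_, ?_⟩
  · intro y
    obtain ⟨z, hz⟩ := fib_nonempty b.2 y.2
    refine ⟨⟨ins q z, hz.1.ins q⟩, ?_⟩
    apply Subtype.ext
    funext v
    show G v b.1 (sh q (ins q z)) = y.1 v
    rw [sh_ins]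
    exact hz.2 v
  · intro y
    refine ⟨?_, ?_⟩
    · obtain ⟨z, hz⟩ := fib_nonempty b.2 y.2
      refine ⟨⟨ins q z, hz.1.ins q⟩, ?_⟩
      apply Subtype.ext
      funext v
      show G v b.1 (sh q (ins q z)) = y.1 v
      rw [sh_ins]
      exact hz.2 v
    · have h1 := shift_fib b.2 y.2 q
      rw [← hfib y] at h1
      exact (Topology.IsInducing.subtypeVal.isPreconnected_image).1 h1
  · apply Subtype.ext
    funext v
    show G v b.1 (sh q a.1) = b.1 v
    have h1 : sh q a.1 = 0 := by
      funext u
      exact a.2.zero_of_ne hq u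
    rw [h1]
    exact G_zero v b.2

end Dend

namespace Dend

theorem uniq {s : ℝ} (hs : Irrational s) (hs0 : s ≠ 0) (w : List Q) {u u' : Pt} (hu : InX u)
    (hu' : InX u') (h : u w = s) (h' : u' w = s) : u = u' := by
  induction w generalizing u u' with
  | nil =>
    funext v
    rcases v with _ | ⟨q, v⟩
    · rw [h, h']
    · have hq : s ≠ val q := fun hq => hs ⟨(q : ℚ), hq.symm⟩
      rw [hu.zero_of_ne (h ▸ hq), hu'.zero_of_ne (h' ▸ hq)]
  | cons q w ih =>
    have h1 : u [] = val q := hu.first (h ▸ hs0)
    have h2 : u' [] = val q := hu'.first (h' ▸ hs0)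
    rw [← ins_sh hu h1, ← ins_sh hu' h2, ih (hu.sh q) (hu'.sh q) h h']

theorem same_len {x : Pt} (hx : InX x) {v w : List Q} (hl : v.length = w.length) (hv : x v ≠ 0)
    (hw : x w ≠ 0) : v = w := by
  induction v generalizing w x with
  | nil => exact (List.eq_nil_of_length_eq_zero hl.symm).symm
  | cons p v ih =>
    rcases w with _ | ⟨q, w⟩
    · exact absurd hl (by simp)
    · have hpq : p = q := val_inj ((hx.first hv).symm.trans (hx.first hw))
      subst hpq
      rw [ih (hx.sh p) (by simpa using hl) hv hw]

/-- The cut down points as points of the dendrite. -/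
noncomputable def cut (x : X) (i : ℕ) (s : ℝ) : X := ⟨C i (max 0 s) x.1, x.2.C i (le_max_left _ _)⟩

theorem continuous_cut (x : X) (i : ℕ) : Continuous (cut x i) :=
  Continuous.subtype_mk ((continuous_C i x.1).comp (continuous_const.max continuous_id)) _

/-- A nondegenerate monotone image of the dendrite has a cut point. -/
theorem exists_cut {Y : Type*} [TopologicalSpace Y] [T2Space Y] [Nontrivial Y] {f : X → Y}
    (hf : Continuous f) (hfs : Function.Surjective f) (hfm : ∀ y, IsConnected (f ⁻¹' {y})) :
    ∃ (y : Y) (A B : Set Y), CutAt y A B := by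
  set o : X := ⟨0, inX_zero⟩ with ho
  obtain ⟨x, hx⟩ : ∃ x, f x ≠ f o := by
    obtain ⟨y, hy⟩ := exists_ne (f o)
    obtain ⟨x, rfl⟩ := hfs y
    exact ⟨x, hy⟩
  have hstep : ∃ i, f (cut x i 0) ≠ f (cut x i 1) := by
    by_contra hcon
    push Not at hcon
    apply hx
    have h0 : cut x 0 0 = o := by
      apply Subtype.ext
      show C 0 (max 0 0) x.1 = 0
      rw [max_self, C_zero_eq (x.2.1 []).1]
      funext v
      unfold pt
      split_ifs <;> rfl
    have h1 : ∀ i, cut x i 1 = cut x (i + 1) 0 := by
      intro i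
      apply Subtype.ext
      show C i (max 0 1) x.1 = C (i + 1) (max 0 0) x.1
      rw [max_self, max_eq_right zero_le_one, C_one x.2]
    have h2 : ∀ i, f (cut x i 0) = f o := by
      intro i
      induction i with
      | zero => rw [h0]
      | succ i ih => rw [← h1, ← hcon i, ih]
    have h3 : Tendsto (fun i => cut x i 1) atTop (𝓝 x) := by
      rw [tendsto_subtype_rng]
      have : (fun i => (cut x i 1).1) = fun i => C i 1 x.1 := by
        funext i
        show C i (max 0 1) x.1 = _
        rw [max_eq_right zero_le_one]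
      rw [this]
      exact tendsto_C x.1
    have h4 : Tendsto (fun i => f (cut x i 1)) atTop (𝓝 (f x)) := (hf.tendsto x).comp h3
    have h5 : (fun i => f (cut x i 1)) = fun _ => f o := by
      funext i
      rw [h1, h2]
    rw [h5] at h4
    exact (tendsto_nhds_unique h4 tendsto_const_nhds)
  obtain ⟨i, hi⟩ := hstep
  obtain ⟨w, hwi, hw⟩ : ∃ w : List Q, w.length = i ∧ x.1 w ≠ 0 := by
    by_contra hcon
    push Not at hcon
    apply hi
    congr 1
    apply Subtype.ext
    funext v
    show C i (max 0 0) x.1 v = C i (max 0 1) x.1 v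
    unfold C
    split_ifs with h1 h2
    · rfl
    · rw [hcon v h2]
      simp
    · rfl
  have hw0 := x.2.1 w
  have hstop : ∀ s, x.1 w ≤ s → cut x i s = cut x i 1 := by
    intro s hs
    apply Subtype.ext
    funext v
    show C i (max 0 s) x.1 v = C i (max 0 1) x.1 v
    unfold C
    split_ifs with h1 h2
    · rfl
    · have h3 : x.1 v ≤ x.1 w := by
        by_cases hv : x.1 v = 0
        · rw [hv]
          exact hw0.1
        · rw [same_len x.2 (h2.trans hwi.symm) hv hw]
      rw [min_eq_right (h3.trans (hs.trans (le_max_right _ _))),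
        min_eq_right (h3.trans (hw0.2.trans (le_max_right _ _)))]
    · rfl
  have hcoord : ∀ s, (cut x i s).1 w = min (max 0 s) (x.1 w) := by
    intro s
    show C i (max 0 s) x.1 w = _
    unfold C
    rw [if_neg (by omega), if_pos hwi]
  -- the path
  have hpath : Continuous (fun s => f (cut x i s)) := hf.comp (continuous_cut x i)
  have hex : ∃ s ∈ Icc (0 : ℝ) 1, f (cut x i s) ≠ f (cut x i 0) ∧ f (cut x i s) ≠ f (cut x i 1) := by
    by_contra hcon
    push Not at hcon
    have h1 : IsClosed {s : ℝ | f (cut x i s) = f (cut x i 0)} := isClosed_eq hpath continuous_const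
    have h2 : IsClosed {s : ℝ | f (cut x i s) = f (cut x i 1)} := isClosed_eq hpath continuous_const
    have h3 := (isPreconnected_closed_iff.1 (isPreconnected_Icc (a := (0 : ℝ)) (b := 1))) _ _ h1 h2
      (by
        intro s hs
        by_cases h4 : f (cut x i s) = f (cut x i 0)
        · exact Or.inl h4
        · exact Or.inr (hcon s hs h4))
      ⟨0, ⟨le_rfl, zero_le_one⟩, rfl⟩ ⟨1, ⟨zero_le_one, le_rfl⟩, rfl⟩
    obtain ⟨s, -, h4, h5⟩ := h3
    exact hi (h4.symm.trans h5)
  obtain ⟨s0, hs0, hs1, hs2⟩ := hex
  have hs00 : 0 < s0 := by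
    rcases hs0.1.lt_or_eq with h | h
    · exact h
    · exact absurd (by rw [← h]) hs1
  have hopen : IsOpen {s : ℝ | 0 < s ∧ f (cut x i s) ≠ f (cut x i 0) ∧
      f (cut x i s) ≠ f (cut x i 1)} := by
    refine (isOpen_Ioi (a := (0 : ℝ))).inter (IsOpen.inter ?_ ?_)
    · exact (isClosed_eq hpath continuous_const).isOpen_compl
    · exact (isClosed_eq hpath continuous_const).isOpen_compl
  obtain ⟨s, ⟨hspos, hsn1, hsn2⟩, hsirr⟩ := dense_irrational.inter_open_nonempty _ hopen
    ⟨s0, hs00, hs1, hs2⟩
  have hsw : s < x.1 w := by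
    by_contra hcon
    exact hsn2 (by rw [hstop s (not_lt.1 hcon)])
  have hsval : (cut x i s).1 w = s := by
    rw [hcoord, max_eq_right hspos.le, min_eq_left hsw.le]
  have hcut : CutAt (cut x i s) {u : X | u.1 w < s} {u : X | s < u.1 w} := by
    have hc : Continuous fun u : X => u.1 w := (continuous_apply w).comp continuous_subtype_val
    refine ⟨isOpen_lt hc continuous_const, isOpen_lt continuous_const hc, ⟨cut x i 0, ?_⟩,
      ⟨cut x i 1, ?_⟩, ?_, ?_⟩
    · show (cut x i 0).1 w < s
      rw [hcoord, max_self, min_eq_left hw0.1]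
      exact hspos
    · show s < (cut x i 1).1 w
      rw [hcoord, max_eq_right zero_le_one, min_eq_right hw0.2]
      exact hsw
    · rw [disjoint_left]
      intro u hu hu'
      exact lt_asymm (show u.1 w < s from hu) (show s < u.1 w from hu')
    · ext u
      constructor
      · rintro (hu | hu) hus
        · have h1 : u.1 w < s := hu
          rw [show u = cut x i s from hus, hsval] at h1
          exact lt_irrefl _ h1
        · have h1 : s < u.1 w := hu
          rw [show u = cut x i s from hus, hsval] at h1
          exact lt_irrefl _ h1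
      · intro hu
        rcases lt_trichotomy (u.1 w) s with h | h | h
        · exact Or.inl h
        · exfalso
          apply hu
          apply Subtype.ext
          exact uniq hsirr hspos.ne' w u.2 (cut x i s).2 h hsval
        · exact Or.inr h
  obtain ⟨A, B, hAB⟩ := cut_image hf hfs hfm hcut (x := cut x i 0) (x' := cut x i 1)
    (by
      show (cut x i 0).1 w < s
      rw [hcoord, max_self, min_eq_left hw0.1]
      exact hspos) (by
      show s < (cut x i 1).1 w
      rw [hcoord, max_eq_right zero_le_one, min_eq_right hw0.2]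
      exact hsw) (Ne.symm hsn1) (Ne.symm hsn2)
  exact ⟨_, A, B, hAB⟩

instance : Nontrivial X := by
  refine ⟨⟨0, inX_zero⟩, ⟨pt 1, inX_pt zero_le_one le_rfl⟩, fun h => ?_⟩
  have h1 : (0 : ℝ) = 1 := congrFun (congrArg Subtype.val h) []
  exact zero_ne_one h1

/-- No homogeneous continuum is monotone equivalent to the dendrite. -/
theorem mono_obstruction {Y : Type*} [TopologicalSpace Y] [T2Space Y]
    (hY : ∀ a b : Y, ∃ h : Y ≃ₜ Y, h a = b) {f : X → Y}
    (hf : Continuous f) (hfs : Function.Surjective f) (hfm : ∀ y, IsConnected (f ⁻¹' {y}))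
    {g : Y → X} (hgs : Function.Surjective g) : False := by
  have : CompactSpace Y := hfs.compactSpace hf
  have : ConnectedSpace Y := hfs.connectedSpace hf
  have : Nontrivial Y := by
    obtain ⟨x, x', hxx'⟩ := exists_pair_ne X
    obtain ⟨y, rfl⟩ := hgs x
    obtain ⟨y', rfl⟩ := hgs x'
    exact ⟨y, y', fun h => hxx' (h ▸ rfl)⟩
  obtain ⟨y, A, B, h⟩ := exists_cut hf hfs hfm
  exact no_cut hY y ⟨A, B, h⟩

end Dend

end Pool.Agent.Lib.MP_861931_gt
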