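import Mathlib

open Set Filter Topology

namespace Pool.Agent.Lib.MP_861931_gt

/-! ### Finite multigraphs and the substitution -/

/-- Finite multigraphs without loops. -/
structure MG where
  V : Type
  E : Type
  finV : Finite V
  finE : Finite E
  s : E → V
  t : E → V
  ne : ∀ e, s e ≠ t e

attribute [instance] MG.finV MG.finE

namespace MG

/-- The slots of a node of the next graph. -/
abbrev Slot (G : MG) : Type := G.E ⊕ G.V

/-- The substitution: each node is replaced by a complete multigraph on the set of slots; an old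
edge `e` joins the slots `e` of its two end nodes. -/
def next (G : MG) : MG where
  V := G.V × G.Slot
  E := G.E ⊕ {q : G.V × (G.Slot × G.Slot) × G.E // q.2.1.1 ≠ q.2.1.2}
  finV := inferInstance
  finE := inferInstance
  s := Sum.elim (fun e => (G.s e, Sum.inl e)) (fun q => (q.1.1, q.1.2.1.1))
  t := Sum.elim (fun e => (G.t e, Sum.inl e)) (fun q => (q.1.1, q.1.2.1.2))
  ne := by
    rintro (e | q) h
    · exact G.ne e (congrArg Prod.fst h)
    · exact q.2 (congrArg Prod.snd h)

/-- The parent of a node. -/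
def par {G : MG} (x : G.next.V) : G.V := x.1

/-- The slot of a node. -/
def slot {G : MG} (x : G.next.V) : G.Slot := x.2

/-- The node with given parent and slot. -/
def child {G : MG} (u : G.V) (ξ : G.Slot) : G.next.V := (u, ξ)

@[simp] theorem par_child {G : MG} (u : G.V) (ξ : G.Slot) : par (child u ξ) = u := rfl

@[simp] theorem slot_child {G : MG} (u : G.V) (ξ : G.Slot) : slot (child u ξ) = ξ := rfl

theorem child_par_slot {G : MG} (x : G.next.V) : child (par x) (slot x) = x := rfl

theorem next_ext {G : MG} {x y : G.next.V} (h1 : par x = par y) (h2 : slot x = slot y) : x = y :=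
  Prod.ext h1 h2

theorem child_inj {G : MG} {u u' : G.V} {ξ ξ' : G.Slot} :
    child u ξ = child u' ξ' ↔ u = u' ∧ ξ = ξ' := by
  constructor
  · intro h
    exact ⟨congrArg par h, congrArg slot h⟩
  · rintro ⟨rfl, rfl⟩
    rfl

/-- An old edge in the next graph. -/
def old {G : MG} (e : G.E) : G.next.E := Sum.inl e

/-- A new edge in the next graph. -/
def new {G : MG} (u : G.V) (ξ η : G.Slot) (p : G.E) (h : ξ ≠ η) : G.next.E :=
  Sum.inr ⟨(u, (ξ, η), p), h⟩

@[simp] theorem s_old {G : MG} (e : G.E) : G.next.s (old e) = child (G.s e) (Sum.inl e) := rfl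
@[simp] theorem t_old {G : MG} (e : G.E) : G.next.t (old e) = child (G.t e) (Sum.inl e) := rfl
@[simp] theorem s_new {G : MG} (u : G.V) (ξ η : G.Slot) (p : G.E) (h : ξ ≠ η) :
    G.next.s (new u ξ η p h) = child u ξ := rfl
@[simp] theorem t_new {G : MG} (u : G.V) (ξ η : G.Slot) (p : G.E) (h : ξ ≠ η) :
    G.next.t (new u ξ η p h) = child u η := rfl

theorem old_injective {G : MG} : Function.Injective (old : G.E → G.next.E) := Sum.inl_injective

theorem edge_cases {G : MG} (e : G.next.E) :
    (∃ e0, e = old e0) ∨ ∃ u ξ η p h, e = new u ξ η p h := by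
  rcases e with e | ⟨⟨u, ⟨ξ, η⟩, p⟩, h⟩
  · exact Or.inl ⟨e, rfl⟩
  · exact Or.inr ⟨u, ξ, η, p, h, rfl⟩

/-- The edge `e` joins `u` and `v`. -/
def Joins (G : MG) (e : G.E) (u v : G.V) : Prop :=
  (G.s e = u ∧ G.t e = v) ∨ (G.s e = v ∧ G.t e = u)

theorem Joins.symm {G : MG} {e : G.E} {u v : G.V} (h : G.Joins e u v) : G.Joins e v u := Or.symm h

theorem Joins.ne {G : MG} {e : G.E} {u v : G.V} (h : G.Joins e u v) : u ≠ v := by
  rcases h with ⟨rfl, rfl⟩ | ⟨rfl, rfl⟩
  · exact G.ne e
  · exact (G.ne e).symm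

/-- If `e` joins `u` with `v` and with `w`, then `v = w`. -/
theorem Joins.unique {G : MG} {e : G.E} {u v w : G.V} (h : G.Joins e u v) (h' : G.Joins e u w) :
    v = w := by
  rcases h with ⟨h1, h2⟩ | ⟨h1, h2⟩ <;> rcases h' with ⟨h3, h4⟩ | ⟨h3, h4⟩
  · rw [← h2, ← h4]
  · exact absurd (h1.trans h4.symm) (G.ne e)
  · exact absurd (h3.trans h2.symm) (G.ne e)
  · rw [← h1, ← h3]

/-- Equal or adjacent nodes. -/
def Near (G : MG) (u v : G.V) : Prop := u = v ∨ ∃ e, G.Joins e u v

theorem Near.refl {G : MG} (u : G.V) : G.Near u u := Or.inl rfl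

theorem Near.symm {G : MG} {u v : G.V} (h : G.Near u v) : G.Near v u := by
  rcases h with rfl | ⟨e, he⟩
  · exact Or.inl rfl
  · exact Or.inr ⟨e, he.symm⟩

/-- Siblings are near. -/
theorem near_of_par_eq {G : MG} [Nonempty G.E] {x y : G.next.V} (h : par x = par y) :
    G.next.Near x y := by
  by_cases hxy : slot x = slot y
  · exact Or.inl (next_ext h hxy)
  · right
    obtain ⟨p⟩ := ‹Nonempty G.E›
    refine ⟨new (par x) (slot x) (slot y) p hxy, Or.inl ⟨rfl, ?_⟩⟩
    rw [t_new, h]
    rfl

/-- Near nodes of the next graph with different parents are joined by an old edge. -/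
theorem Near.next_cases {G : MG} {x y : G.next.V} (h : G.next.Near x y) :
    par x = par y ∨ ∃ e : G.E, G.Joins e (par x) (par y) ∧ slot x = Sum.inl e ∧
      slot y = Sum.inl e := by
  rcases h with rfl | ⟨e, he⟩
  · exact Or.inl rfl
  · rcases edge_cases e with ⟨e0, rfl⟩ | ⟨u, ξ, η, p, h, rfl⟩
    · right
      refine ⟨e0, ?_⟩
      rcases he with ⟨h1, h2⟩ | ⟨h1, h2⟩
      · rw [s_old] at h1
        rw [t_old] at h2
        subst h1 h2
        exact ⟨Or.inl ⟨rfl, rfl⟩, rfl, rfl⟩
      · rw [s_old] at h1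
        rw [t_old] at h2
        subst h1 h2
        exact ⟨Or.inr ⟨rfl, rfl⟩, rfl, rfl⟩
    · left
      rcases he with ⟨h1, h2⟩ | ⟨h1, h2⟩
      · rw [s_new] at h1
        rw [t_new] at h2
        subst h1 h2
        rfl
      · rw [s_new] at h1
        rw [t_new] at h2
        subst h1 h2
        rfl

theorem near_child_old {G : MG} {e : G.E} {u v : G.V} (h : G.Joins e u v) :
    G.next.Near (child u (Sum.inl e)) (child v (Sum.inl e)) := by
  right
  refine ⟨old e, ?_⟩
  rcases h with ⟨rfl, rfl⟩ | ⟨rfl, rfl⟩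
  · exact Or.inl ⟨rfl, rfl⟩
  · exact Or.inr ⟨rfl, rfl⟩

theorem Near.par {G : MG} {x y : G.next.V} (h : G.next.Near x y) : G.Near (par x) (par y) := by
  rcases h.next_cases with h | ⟨e, he, -⟩
  · exact Or.inl h
  · exact Or.inr ⟨e, he⟩

/-- Nodes at distance at most two have near parents. -/
theorem Near.trans_par {G : MG} {x y z : G.next.V} (h : G.next.Near x y) (h' : G.next.Near y z) :
    G.Near (MG.par x) (MG.par z) := by
  rcases h.next_cases with h1 | ⟨e, he, hx, hy⟩
  · rw [h1]
    exact h'.par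
  · rcases h'.next_cases with h2 | ⟨e', he', hy', hz⟩
    · rw [← h2]
      exact h.par
    · have : e = e' := by
        rw [hy] at hy'
        exact Sum.inl_injective hy'
      subst this
      left
      exact he.symm.unique he'

end MG

/-- The starting graph: two nodes joined by five edges. -/
def G0 : MG where
  V := Bool
  E := Fin 5
  finV := inferInstance
  finE := inferInstance
  s := fun _ => false
  t := fun _ => true
  ne := fun _ => Bool.false_ne_true

/-- The sequence of graphs. -/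
def Gs : ℕ → MG
  | 0 => G0
  | n + 1 => (Gs n).next

instance (n : ℕ) : Nonempty (Gs n).E := by
  induction n with
  | zero => exact ⟨(0 : Fin 5)⟩
  | succ n ih =>
    obtain ⟨e⟩ := ih
    exact ⟨MG.old e⟩

instance (n : ℕ) : Nontrivial (Gs n).V := by
  induction n with
  | zero => exact (inferInstance : Nontrivial Bool)
  | succ n ih =>
    obtain ⟨e⟩ : Nonempty (Gs n).E := inferInstance
    obtain ⟨u, v, huv⟩ := ih
    exact ⟨MG.child u (Sum.inl e), MG.child v (Sum.inl e), fun h => huv (congrArg MG.par h)⟩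

/-- Threads of nodes, given by a node of the first graph and a sequence of slots. -/
structure Thread where
  base : (Gs 0).V
  sl : ∀ n, (Gs n).Slot

namespace Thread

/-- The nodes of a thread. -/
def v (a : Thread) : ∀ n, (Gs n).V
  | 0 => a.base
  | n + 1 => MG.child (G := Gs n) (v a n) (a.sl n)

@[simp] theorem v_zero (a : Thread) : a.v 0 = a.base := rfl

theorem v_succ (a : Thread) (n : ℕ) : a.v (n + 1) = MG.child (G := Gs n) (a.v n) (a.sl n) := rfl

@[simp] theorem par_v (a : Thread) (n : ℕ) : MG.par (G := Gs n) (a.v (n + 1)) = a.v n := rfl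

@[simp] theorem slot_v (a : Thread) (n : ℕ) : MG.slot (G := Gs n) (a.v (n + 1)) = a.sl n := rfl

theorem v_congr {a b : Thread} (n : ℕ) (h0 : a.base = b.base) (h : ∀ m < n, a.sl m = b.sl m) :
    a.v n = b.v n := by
  induction n with
  | zero => exact h0
  | succ n ih =>
    rw [v_succ, v_succ, ih (fun m hm => h m (by omega)), h n (by omega)]

/-- There is a thread through every node. -/
theorem exists_through (n : ℕ) (x : (Gs n).V) : ∃ a : Thread, a.v n = x := by
  classical
  induction n with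
  | zero =>
    have h : ∀ m, Nonempty (Gs m).Slot := fun m => by
      obtain ⟨e⟩ : Nonempty (Gs m).E := inferInstance
      exact ⟨Sum.inl e⟩
    exact ⟨⟨x, fun m => (h m).some⟩, rfl⟩
  | succ n ih =>
    obtain ⟨a, ha⟩ := ih (MG.par (G := Gs n) x)
    refine ⟨⟨a.base, Function.update a.sl n (MG.slot (G := Gs n) x)⟩, ?_⟩
    rw [v_succ]
    have h1 : v ⟨a.base, Function.update a.sl n (MG.slot (G := Gs n) x)⟩ n = a.v n := by
      refine v_congr n ?_ ?_
      · rfl
      intro m hm
      simp only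
      rw [Function.update_of_ne (by omega)]
    rw [h1, ha]
    simp only [Function.update_self]
    rfl

/-- Extension of threads with a property. -/
theorem exists_extend (N : ℕ) (a : Thread) (P : ∀ m, (Gs m).V → Prop) (h0 : P N (a.v N))
    (hstep : ∀ m, N ≤ m → ∀ x : (Gs m).V, P m x → ∃ ξ : (Gs m).Slot,
      P (m + 1) (MG.child (G := Gs m) x ξ)) :
    ∃ b : Thread, (∀ m ≤ N, b.v m = a.v m) ∧ ∀ m, N ≤ m → P m (b.v m) := by
  classical
  let bsl : ∀ m, (Gs m).V → (Gs m).Slot := fun m x =>
    if h : N ≤ m ∧ P m x then Classical.choose (hstep m h.1 x h.2) else a.sl m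
  let bv : ∀ m, (Gs m).V := fun m => Nat.rec (motive := fun m => (Gs m).V) a.base
    (fun m x => MG.child (G := Gs m) x (bsl m x)) m
  have hbv : ∀ m, bv (m + 1) = MG.child (G := Gs m) (bv m) (bsl m (bv m)) := fun m => rfl
  let b : Thread := ⟨a.base, fun m => bsl m (bv m)⟩
  have hb : ∀ m, b.v m = bv m := by
    intro m
    induction m with
    | zero => rfl
    | succ m ih => rw [v_succ, ih, hbv]
  refine ⟨b, ?_, ?_⟩
  · intro m hm
    refine v_congr m ?_ ?_
    · rfl
    intro k hk
    show bsl k (bv k) = a.sl k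
    have : ¬ (N ≤ k ∧ P k (bv k)) := fun h => by omega
    simp only [bsl, dif_neg this]
  · intro m hm
    rw [hb]
    induction m, hm using Nat.le_induction with
    | base =>
      have hN : b.v N = a.v N := by
        refine v_congr N ?_ ?_
        · rfl
        intro k hk
        show bsl k (bv k) = a.sl k
        have : ¬ (N ≤ k ∧ P k (bv k)) := fun h => by omega
        simp only [bsl, dif_neg this]
      rw [← hb, hN]
      exact h0
    | succ m hm ih =>
      rw [hbv]
      have h1 : N ≤ m ∧ P m (bv m) := ⟨hm, ih⟩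
      have h2 : bsl m (bv m) = Classical.choose (hstep m h1.1 _ h1.2) := by
        simp only [bsl, dif_pos h1]
      rw [h2]
      exact Classical.choose_spec (hstep m h1.1 _ h1.2)

/-- Two threads are close at level `n`. -/
def Close (n : ℕ) (a b : Thread) : Prop := (Gs n).Near (a.v n) (b.v n)

theorem Close.refl (n : ℕ) (a : Thread) : Close n a a := MG.Near.refl _

theorem Close.symm {n : ℕ} {a b : Thread} (h : Close n a b) : Close n b a := MG.Near.symm h

theorem Close.trans {n : ℕ} {a b c : Thread} (h : Close (n + 1) a b) (h' : Close (n + 1) b c) :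
    Close n a c := MG.Near.trans_par (G := Gs n) h h'

theorem Close.succ {n : ℕ} {a b : Thread} (h : Close (n + 1) a b) : Close n a b :=
  h.trans (Close.refl _ _)

theorem Close.mono {m n : ℕ} (hmn : m ≤ n) {a b : Thread} (h : Close n a b) : Close m a b := by
  induction hmn with
  | refl => exact h
  | step _ ih => exact ih h.succ

/-! ### Topology -/

/-- The filter basis of the uniformity. -/
def unifBasis : FilterBasis (Thread × Thread) where
  sets := {s | ∃ n, s = {p | Close n p.1 p.2}}
  nonempty := ⟨_, 0, rfl⟩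
  inter_sets := by
    rintro _ _ ⟨m, rfl⟩ ⟨n, rfl⟩
    refine ⟨_, ⟨max m n, rfl⟩, ?_⟩
    intro p hp
    exact ⟨Close.mono (le_max_left _ _) hp, Close.mono (le_max_right _ _) hp⟩

instance : UniformSpace Thread := UniformSpace.ofCore (UniformSpace.Core.mkOfBasis unifBasis
  (by
    rintro _ ⟨n, rfl⟩ x
    exact Close.refl n x)
  (by
    rintro _ ⟨n, rfl⟩
    exact ⟨_, ⟨n, rfl⟩, fun p hp => Close.symm hp⟩)
  (by
    rintro _ ⟨n, rfl⟩
    refine ⟨_, ⟨n + 1, rfl⟩, ?_⟩
    rintro ⟨a, c⟩ ⟨b, hab, hbc⟩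
    exact Close.trans hab hbc))

theorem uniformity_basis : (uniformity Thread).HasBasis (fun _ : ℕ => True)
    (fun n => {p : Thread × Thread | Close n p.1 p.2}) := by
  have h : (uniformity Thread).HasBasis (fun s => s ∈ unifBasis) id := unifBasis.hasBasis
  refine ⟨fun s => ?_⟩
  rw [h.mem_iff]
  constructor
  · rintro ⟨_, ⟨n, rfl⟩, hs⟩
    exact ⟨n, trivial, hs⟩
  · rintro ⟨n, -, hs⟩
    exact ⟨_, ⟨n, rfl⟩, hs⟩

theorem nhds_basis (a : Thread) : (𝓝 a).HasBasis (fun _ : ℕ => True)
    (fun n => {b : Thread | Close n a b}) := by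
  have := _root_.nhds_basis_uniformity' uniformity_basis (x := a)
  exact this

theorem inseparable_iff {a b : Thread} : Inseparable a b ↔ ∀ n, Close n a b := by
  rw [uniformity_basis.inseparable_iff_uniformity]
  simp

instance : (uniformity Thread).IsCountablyGenerated :=
  uniformity_basis.isCountablyGenerated

/-- The product space which maps onto the space of threads. -/
theorem exists_compact_model : ∃ (P : Type) (_ : TopologicalSpace P) (_ : CompactSpace P)
    (F : P → Thread), Continuous F ∧ Function.Surjective F ∧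
      ∀ n (u : (Gs n).V), IsClosed (F ⁻¹' {a | a.v n = u}) := by
  let tb : TopologicalSpace (Gs 0).V := ⊥
  let ts : ∀ n, TopologicalSpace (Gs n).Slot := fun _ => ⊥
  have db : @DiscreteTopology (Gs 0).V tb := @DiscreteTopology.mk _ tb rfl
  have ds : ∀ n, @DiscreteTopology (Gs n).Slot (ts n) := fun n =>
    @DiscreteTopology.mk _ (ts n) rfl
  have hfb : Finite (Gs 0).V := inferInstance
  have hfs : ∀ n, Finite (Gs n).Slot := fun n => inferInstance
  refine ⟨(Gs 0).V × (∀ n, (Gs n).Slot), inferInstance, inferInstance, fun p => ⟨p.1, p.2⟩,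
    ?_, ?_, ?_⟩
  · rw [continuous_iff_continuousAt]
    intro p
    rw [ContinuousAt, (nhds_basis _).tendsto_right_iff]
    intro n _
    have h1 : ∀ᶠ q in 𝓝 p, q.1 = p.1 := by
      have : IsOpen {q : (Gs 0).V × (∀ n, (Gs n).Slot) | q.1 = p.1} :=
        (isOpen_discrete {p.1}).preimage continuous_fst
      exact this.mem_nhds rfl
    have h2 : ∀ m, ∀ᶠ q in 𝓝 p, q.2 m = p.2 m := by
      intro m
      have hc : Continuous (fun q : (Gs 0).V × (∀ n, (Gs n).Slot) => q.2 m) :=
        (continuous_apply m).comp continuous_snd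
      exact ((isOpen_discrete {p.2 m}).preimage hc).mem_nhds rfl
    have h3 : ∀ᶠ q in 𝓝 p, ∀ m ∈ Finset.range n, q.2 m = p.2 m :=
      (Filter.eventually_all_finset _).2 fun m _ => h2 m
    filter_upwards [h1, h3] with q hq1 hq2
    left
    apply v_congr n hq1.symm
    intro m hm
    exact (hq2 m (Finset.mem_range.2 hm)).symm
  · intro a
    exact ⟨(a.base, a.sl), rfl⟩
  · intro n u
    have hcont : ∀ n, @Continuous _ _ _ (⊥ : TopologicalSpace (Gs n).V)
        (fun p : (Gs 0).V × (∀ n, (Gs n).Slot) => v ⟨p.1, p.2⟩ n) := by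
      intro n
      induction n with
      | zero => exact continuous_fst
      | succ n ih =>
        let _ : TopologicalSpace (Gs n).V := ⊥
        have hd : DiscreteTopology (Gs n).V := ⟨rfl⟩
        let _ : TopologicalSpace (Gs n).next.V := ⊥
        have h1 : Continuous (fun p : (Gs 0).V × (∀ n, (Gs n).Slot) =>
            ((v ⟨p.1, p.2⟩ n, p.2 n) : (Gs n).V × (Gs n).Slot)) :=
          ih.prodMk ((continuous_apply n).comp continuous_snd)
        have h2 : Continuous (fun q : (Gs n).V × (Gs n).Slot =>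
            (MG.child (G := Gs n) q.1 q.2)) := continuous_of_discreteTopology
        exact h2.comp h1
    let _ : TopologicalSpace (Gs n).V := ⊥
    have hd : DiscreteTopology (Gs n).V := ⟨rfl⟩
    exact (isClosed_discrete ({u} : Set (Gs n).V)).preimage (hcont n)

instance : CompactSpace Thread := by
  obtain ⟨P, _, _, F, hF, hFs, -⟩ := exists_compact_model
  exact hFs.compactSpace hF

/-- The cell of a node. -/
def cell (n : ℕ) (u : (Gs n).V) : Set Thread := {a | a.v n = u}

theorem isCompact_cell (n : ℕ) (u : (Gs n).V) : IsCompact (cell n u) := by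
  obtain ⟨P, _, _, F, hF, hFs, hc⟩ := exists_compact_model
  have h1 : cell n u = F '' (F ⁻¹' {a | a.v n = u}) := (image_preimage_eq _ hFs).symm
  rw [h1]
  exact (hc n u).isCompact.image hF

theorem cell_nonempty (n : ℕ) (u : (Gs n).V) : (cell n u).Nonempty := exists_through n u

end Thread

namespace Thread

theorem v_of_le {m n : ℕ} (hmn : m ≤ n) {a b : Thread} (h : a.v n = b.v n) : a.v m = b.v m := by
  induction hmn with
  | refl => exact h
  | step _ ih => exact ih (congrArg MG.par h)

theorem close_of_sibling {n : ℕ} {a b : Thread} (h : a.v n = b.v n) : Close (n + 1) a b :=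
  MG.near_of_par_eq (G := Gs n) h

/-- A set of threads given by a set of nodes at level `n`, on which every colouring constant along
close pairs of level `m` is constant. -/
def Mono (n m : ℕ) (N : Set (Gs n).V) : Prop :=
  ∀ χ : Thread → Prop, (∀ a b : Thread, a.v n ∈ N → b.v n ∈ N → Close m a b → (χ a ↔ χ b)) →
    ∀ a b : Thread, a.v n ∈ N → b.v n ∈ N → (χ a ↔ χ b)

theorem Mono.succ {n m : ℕ} (hnm : n ≤ m) {N : Set (Gs n).V} (h : Mono n m N) :
    Mono n (m + 1) N := by
  intro χ hχ
  apply h χ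
  intro a b ha hb hab
  rcases hab with hab | ⟨e, he⟩
  · exact hχ a b ha hb (close_of_sibling hab)
  · obtain ⟨a', ha'⟩ := exists_through (m + 1) (MG.child (G := Gs m) (a.v m) (Sum.inl e))
    obtain ⟨b', hb'⟩ := exists_through (m + 1) (MG.child (G := Gs m) (b.v m) (Sum.inl e))
    have ha1 : a.v m = a'.v m := by
      have := congrArg MG.par ha'
      exact this.symm
    have hb1 : b.v m = b'.v m := by
      have := congrArg MG.par hb'
      exact this.symm
    have ha2 : a'.v n ∈ N := by rwa [← v_of_le hnm ha1]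
    have hb2 : b'.v n ∈ N := by rwa [← v_of_le hnm hb1]
    have h1 : Close (m + 1) a' b' := by
      show (Gs (m + 1)).Near (a'.v (m + 1)) (b'.v (m + 1))
      rw [ha', hb']
      exact MG.near_child_old he
    exact (hχ a a' ha ha2 (close_of_sibling ha1)).trans
      ((hχ a' b' ha2 hb2 h1).trans (hχ b' b hb2 hb (close_of_sibling hb1.symm)))

theorem Mono.le {n m : ℕ} (hnm : n ≤ m) {N : Set (Gs n).V} (h : Mono n n N) : Mono n m N := by
  induction m, hnm using Nat.le_induction with
  | base => exact h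
  | succ m hm ih => exact ih.succ hm

/-- The set of threads given by a set of nodes. -/
def big (n : ℕ) (N : Set (Gs n).V) : Set Thread := {a | a.v n ∈ N}

theorem isCompact_big (n : ℕ) (N : Set (Gs n).V) : IsCompact (big n N) := by
  have h1 : big n N = ⋃ u ∈ N, cell n u := by
    ext a
    simp [big, cell]
  rw [h1]
  exact (Set.toFinite N).isCompact_biUnion fun u _ => isCompact_cell n u

theorem preconnected_big {n : ℕ} {N : Set (Gs n).V} (h : Mono n n N) :
    IsPreconnected (big n N) := by
  intro A B hA hB hAB hAne hBne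
  by_contra hcon
  rw [not_nonempty_iff_eq_empty] at hcon
  -- Lebesgue number
  have hcover : big n N ⊆ ⋃ i : Bool, (if i then A else B) := by
    intro a ha
    rw [mem_iUnion]
    rcases hAB ha with h | h
    · exact ⟨true, by simpa using h⟩
    · exact ⟨false, by simpa using h⟩
  obtain ⟨W, hW, hWs⟩ := lebesgue_number_lemma (isCompact_big n N) (U := fun i : Bool =>
    if i then A else B) (by intro i; cases i <;> simp [hA, hB]) hcover
  obtain ⟨m0, -, hm0⟩ := uniformity_basis.mem_iff.1 hW
  set m := max n m0 with hm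
  have hball : ∀ a ∈ big n N, ∃ i : Bool, ∀ b, Close m a b → b ∈ (if i then A else B) := by
    intro a ha
    obtain ⟨i, hi⟩ := hWs a ha
    refine ⟨i, fun b hb => hi ?_⟩
    have : (a, b) ∈ W := hm0 (Close.mono (le_max_right _ _) hb)
    exact this
  have hmono := h.le (le_max_left n m0) (fun a => a ∈ A) (by
    have key : ∀ a b : Thread, a.v n ∈ N → b.v n ∈ N → Close m a b → a ∈ A → b ∈ A := by
      intro a b ha hb hab haA
      obtain ⟨i, hi⟩ := hball a ha
      cases i
      · exfalso
        have h1 := hi a (Close.refl _ _)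
        simp only [Bool.false_eq_true, if_false] at h1
        have : a ∈ big n N ∩ (A ∩ B) := ⟨ha, haA, h1⟩
        rw [hcon] at this
        exact this
      · simpa using hi b hab
    intro a b ha hb hab
    exact ⟨key a b ha hb hab, key b a hb ha hab.symm⟩)
  obtain ⟨a, haN, haA⟩ := hAne
  obtain ⟨b, hbN, hbB⟩ := hBne
  have hbA : b ∈ A := (hmono a b haN hbN).1 haA
  have : b ∈ big n N ∩ (A ∩ B) := ⟨hbN, hbA, hbB⟩
  rw [hcon] at this
  exact this

theorem mono_singleton (n : ℕ) (u : (Gs n).V) : Mono n n {u} := by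
  intro χ hχ a b ha hb
  exact hχ a b ha hb (Or.inl (by rw [mem_singleton_iff.1 ha, mem_singleton_iff.1 hb]))

theorem mono_pair (n : ℕ) {u v : (Gs n).V} (h : (Gs n).Near u v) : Mono n n {u, v} := by
  intro χ hχ a b ha hb
  apply hχ a b ha hb
  show (Gs n).Near _ _
  rcases ha with ha | ha <;> rcases hb with hb | hb <;> rw [ha, hb]
  · exact MG.Near.refl _
  · exact h
  · exact h.symm
  · exact MG.Near.refl _

theorem mono_star (n : ℕ) (u : (Gs n).V) : Mono n n {v | (Gs n).Near u v} := by
  intro χ hχ a b ha hb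
  obtain ⟨c, hc⟩ := exists_through n u
  have hcN : c.v n ∈ {v | (Gs n).Near u v} := by
    show (Gs n).Near u (c.v n)
    rw [hc]
    exact MG.Near.refl _
  refine (hχ a c ha hcN ?_).trans (hχ c b hcN hb ?_)
  · show (Gs n).Near _ _
    rw [hc]
    exact MG.Near.symm ha
  · show (Gs n).Near _ _
    rw [hc]
    exact hb

theorem mono_univ : Mono 0 0 univ := by
  intro χ hχ a b ha hb
  apply hχ a b ha hb
  have key : ∀ x y : G0.V, G0.Near x y := by
    intro x y
    match x, y with
    | false, false => exact MG.Near.refl _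
    | true, true => exact MG.Near.refl _
    | false, true => exact Or.inr ⟨(0 : Fin 5), Or.inl ⟨rfl, rfl⟩⟩
    | true, false => exact Or.inr ⟨(0 : Fin 5), Or.inr ⟨rfl, rfl⟩⟩
  exact key _ _

instance : Nonempty Thread := by
  obtain ⟨a, -⟩ := exists_through 0 (false : G0.V)
  exact ⟨a⟩

instance : ConnectedSpace Thread := by
  have h : IsPreconnected (big 0 univ) := preconnected_big mono_univ
  have h1 : big 0 univ = univ := by
    ext a
    simp [big]
  rw [h1] at h
  exact { isPreconnected_univ := h, toNonempty := inferInstance }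

end Thread

/-! ### The continuum -/

/-- The space `X`. -/
abbrev Cont : Type := SeparationQuotient Thread

namespace Cont

open Thread

/-- The quotient map. -/
abbrev mk : Thread → Cont := SeparationQuotient.mk

theorem mk_eq {a b : Thread} : mk a = mk b ↔ ∀ n, Close n a b := by
  rw [SeparationQuotient.mk_eq_mk, inseparable_iff]

theorem exists_rep (x : Cont) : ∃ a, mk a = x := SeparationQuotient.surjective_mk x

/-- The closed cells. -/
def K (n : ℕ) (u : (Gs n).V) : Set Cont := mk '' cell n u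

theorem mk_mem_K (n : ℕ) (a : Thread) : mk a ∈ K n (a.v n) := ⟨a, rfl, rfl⟩

theorem K_preconnected (n : ℕ) (u : (Gs n).V) : IsPreconnected (K n u) := by
  have h := (preconnected_big (mono_singleton n u)).image mk
    SeparationQuotient.continuous_mk.continuousOn
  exact h

theorem K_closed (n : ℕ) (u : (Gs n).V) : IsClosed (K n u) :=
  ((isCompact_cell n u).image SeparationQuotient.continuous_mk).isClosed

theorem K_pair_preconnected {n : ℕ} {u v : (Gs n).V} (h : (Gs n).Near u v) :
    IsPreconnected (K n u ∪ K n v) := by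
  have h := (preconnected_big (mono_pair n h)).image mk
    SeparationQuotient.continuous_mk.continuousOn
  have h1 : mk '' big n {u, v} = K n u ∪ K n v := by
    unfold K
    rw [← image_union]
    congr 1
  rwa [h1] at h

/-- Basis of neighbourhoods. -/
theorem nhds_basis (a : Thread) : (𝓝 (mk a)).HasBasis (fun _ : ℕ => True)
    (fun n => mk '' {b : Thread | Close n a b}) := by
  rw [← SeparationQuotient.map_mk_nhds]
  exact (Thread.nhds_basis a).map mk

theorem star_preconnected (n : ℕ) (a : Thread) : IsPreconnected (mk '' {b : Thread | Close n a b}) :=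
  (preconnected_big (mono_star n (a.v n))).image mk SeparationQuotient.continuous_mk.continuousOn

instance : LocallyConnectedSpace Cont := by
  apply locallyConnectedSpace_of_connected_bases (fun x n => mk '' {b : Thread | Close n
    (Classical.choose (exists_rep x)) b}) (fun _ _ => True)
  · intro x
    have h := nhds_basis (Classical.choose (exists_rep x))
    rwa [Classical.choose_spec (exists_rep x)] at h
  · intro x n _
    exact star_preconnected n _

instance : CompactSpace Cont :=
  SeparationQuotient.surjective_mk.compactSpace SeparationQuotient.continuous_mk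

instance : ConnectedSpace Cont :=
  SeparationQuotient.surjective_mk.connectedSpace SeparationQuotient.continuous_mk

theorem uniformity_basis : (uniformity Cont).HasBasis (fun _ : ℕ => True)
    (fun n => Prod.map mk mk '' {p : Thread × Thread | Close n p.1 p.2}) := by
  rw [SeparationQuotient.uniformity_eq]
  exact Thread.uniformity_basis.map _

instance : (uniformity Cont).IsCountablyGenerated := uniformity_basis.isCountablyGenerated

instance : T0Space Cont := inferInstance

noncomputable instance : MetricSpace Cont := UniformSpace.metricSpace Cont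

end Cont

namespace Thread

/-- Equivalent threads with different nodes pass through the two ends of an edge. -/
theorem edge_of_ne {a b : Thread} (hab : ∀ n, Close n a b) {n : ℕ} (h : a.v n ≠ b.v n) :
    ∃ e : (Gs n).E, (Gs n).Joins e (a.v n) (b.v n) ∧ a.sl n = Sum.inl e ∧ b.sl n = Sum.inl e ∧
      a.sl (n + 1) = Sum.inl (MG.old (G := Gs n) e) ∧
      b.sl (n + 1) = Sum.inl (MG.old (G := Gs n) e) := by
  have h1 := MG.Near.next_cases (G := Gs n) (hab (n + 1))
  rcases h1 with h1 | ⟨e, he, ha, hb⟩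
  · exact absurd h1 h
  refine ⟨e, he, ha, hb, ?_⟩
  have h2 := MG.Near.next_cases (G := Gs (n + 1)) (hab (n + 2))
  rcases h2 with h2 | ⟨e', he', ha', hb'⟩
  · exact absurd (congrArg (MG.par (G := Gs n)) h2) h
  have h3 : e' = MG.old (G := Gs n) e := by
    rcases MG.edge_cases (G := Gs n) e' with ⟨e0, rfl⟩ | ⟨u, ξ, η, p, hne, rfl⟩
    · have h4 : (Sum.inl e0 : (Gs n).Slot) = Sum.inl e := by
        rcases he' with ⟨h5, h6⟩ | ⟨h5, h6⟩
        · exact (congrArg (MG.slot (G := Gs n)) h5).trans ha
        · exact (congrArg (MG.slot (G := Gs n)) h5).trans hb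
      rw [Sum.inl_injective h4]
    · exfalso
      rcases he' with ⟨h5, h6⟩ | ⟨h5, h6⟩
      · apply h
        have h7 := congrArg (MG.par (G := Gs n)) h5
        have h8 := congrArg (MG.par (G := Gs n)) h6
        exact h7.symm.trans h8
      · apply h
        have h7 := congrArg (MG.par (G := Gs n)) h5
        have h8 := congrArg (MG.par (G := Gs n)) h6
        exact h8.symm.trans h7
  rw [h3] at ha' hb'
  exact ⟨ha', hb'⟩

/-- Two threads equal to level `n` and with the same slot at `n`, both identified with threads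
different at level `n`, are equivalent. -/
theorem close_of_two {a a' b b' : Thread} (ha : ∀ n, Close n a a') (hb : ∀ n, Close n b b') {n : ℕ}
    (hna : a.v n ≠ a'.v n) (hnb : b.v n ≠ b'.v n) (hv : a.v n = b.v n) (hs : a.sl n = b.sl n) :
    ∀ m, Close m a b := by
  have hne : ∀ m, n ≤ m → a.v m ≠ a'.v m ∧ b.v m ≠ b'.v m := fun m hm =>
    ⟨fun h => hna (v_of_le hm h), fun h => hnb (v_of_le hm h)⟩
  have key : ∀ m, n ≤ m → a.v m = b.v m ∧ a.sl m = b.sl m := by
    intro m hm
    induction m, hm using Nat.le_induction with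
    | base => exact ⟨hv, hs⟩
    | succ m hm ih =>
      refine ⟨?_, ?_⟩
      · rw [v_succ, v_succ, ih.1, ih.2]
      · obtain ⟨e, -, h1, -, h2, -⟩ := edge_of_ne ha (hne m hm).1
        obtain ⟨e', -, h3, -, h4, -⟩ := edge_of_ne hb (hne m hm).2
        have : e = e' := by
          have h5 : (Sum.inl e : (Gs m).Slot) = Sum.inl e' := by rw [← h1, ← h3, ih.2]
          exact Sum.inl_injective h5
        rw [h2, h4, this]
  intro m
  have h1 : Close (max n m) a b := Or.inl (key _ (le_max_left _ _)).1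
  exact h1.mono (le_max_right _ _)

/-- Three mutually equivalent threads have at most two nodes at each level. -/
theorem two_nodes {a b c : Thread} (hab : ∀ n, Close n a b) (hac : ∀ n, Close n a c) {n : ℕ}
    (h1 : a.v n ≠ b.v n) (h2 : a.v n ≠ c.v n) : b.v n = c.v n := by
  obtain ⟨e, he, ha, -⟩ := edge_of_ne hab h1
  obtain ⟨e', he', ha', -⟩ := edge_of_ne hac h2
  have : e = e' := by
    have h5 : (Sum.inl e : (Gs n).Slot) = Sum.inl e' := by rw [← ha, ← ha']
    exact Sum.inl_injective h5
  subst this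
  exact he.unique he'

end Thread

namespace MG

/-- There are at least five edges. -/
theorem five_edges (n : ℕ) : ∃ j : Fin 5 → (Gs n).E, Function.Injective j := by
  induction n with
  | zero => exact ⟨id, Function.injective_id⟩
  | succ n ih =>
    obtain ⟨j, hj⟩ := ih
    exact ⟨fun i => old (j i), old_injective.comp hj⟩

/-- A map from `Fin 5` injective cannot land in a set of at most four elements. -/
theorem exists_not_mem {α : Type*} {F : Set α} (hF : F.encard ≤ 4) (j : Fin 5 → α)
    (hj : Function.Injective j) : ∃ i, j i ∉ F := by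
  by_contra hcon
  push Not at hcon
  have h1 : Set.range j ⊆ F := by
    rintro _ ⟨i, rfl⟩
    exact hcon i
  have h2 : (Set.range j).encard = 5 := by
    rw [← image_univ, hj.encard_image, encard_univ]
    simp
  have h3 := encard_le_encard h1
  rw [h2] at h3
  have := h3.trans hF
  exact absurd this (by decide)

/-- Removing four edges does not disconnect. -/
theorem edge_conn (n : ℕ) (F : Set (Gs n).E) (hF : F.encard ≤ 4) (χ : (Gs n).V → Prop)
    (hχ : ∀ e, e ∉ F → (χ ((Gs n).s e) ↔ χ ((Gs n).t e))) (u v : (Gs n).V) : χ u ↔ χ v := by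
  induction n with
  | zero =>
    obtain ⟨i, hi⟩ := exists_not_mem hF (fun i : Fin 5 => (i : (Gs 0).E)) (fun _ _ h => h)
    have h1 : χ false ↔ χ true := hχ _ hi
    have h2 : ∀ x : Bool, (χ x ↔ χ true) := by
      intro x
      cases x
      · exact h1
      · exact Iff.rfl
    exact (h2 u).trans (h2 v).symm
  | succ n ih =>
    have hsib : ∀ (w : (Gs n).V) (ξ η : (Gs n).Slot),
        (χ (child (G := Gs n) w ξ) ↔ χ (child (G := Gs n) w η)) := by
      intro w ξ η
      by_cases hξη : ξ = η
      · rw [hξη]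
      obtain ⟨j, hj⟩ := five_edges n
      obtain ⟨i, hi⟩ := exists_not_mem hF (fun i => new (G := Gs n) w ξ η (j i) hξη) (by
        intro i i' h
        apply hj
        have h1 : (⟨(w, (ξ, η), j i), hξη⟩ :
            {q : (Gs n).V × ((Gs n).Slot × (Gs n).Slot) × (Gs n).E // q.2.1.1 ≠ q.2.1.2}) =
            ⟨(w, (ξ, η), j i'), hξη⟩ := Sum.inr_injective h
        have h2 := congrArg (fun q => q.1.2.2) h1
        exact h2)
      exact hχ _ hi
    obtain ⟨e⟩ : Nonempty (Gs n).E := inferInstance
    have h1 := ih {e | old e ∈ F} (by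
      have h2 : (old '' {e : (Gs n).E | old e ∈ F}) ⊆ F := by
        rintro _ ⟨e, he, rfl⟩
        exact he
      have h3 := encard_le_encard h2
      rw [old_injective.encard_image] at h3
      exact h3.trans hF) (fun w => χ (child (G := Gs n) w (Sum.inl e))) (by
      intro e' he'
      have h2 : (χ (child (G := Gs n) ((Gs n).s e') (Sum.inl e')) ↔
        χ (child (G := Gs n) ((Gs n).t e') (Sum.inl e'))) := hχ (old e') he'
      exact (hsib _ _ _).trans (h2.trans (hsib _ _ _))) (par u) (par v)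
    rw [← child_par_slot u, ← child_par_slot v]
    exact (hsib _ _ _).trans (h1.trans (hsib _ _ _))

/-- Removing four nodes does not disconnect. -/
theorem node_conn (n : ℕ) (B : Set (Gs (n + 1)).V) (hB : B.encard ≤ 4) (χ : (Gs (n + 1)).V → Prop)
    (hχ : ∀ x y, x ∉ B → y ∉ B → (Gs (n + 1)).Near x y → (χ x ↔ χ y)) (x y : (Gs (n + 1)).V)
    (hx : x ∉ B) (hy : y ∉ B) : χ x ↔ χ y := by
  classical
  have hgood : ∀ u : (Gs n).V, ∃ ξ : (Gs n).Slot, child (G := Gs n) u ξ ∉ B := by
    intro u
    obtain ⟨j, hj⟩ := five_edges n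
    obtain ⟨i, hi⟩ := exists_not_mem hB (fun i => child (G := Gs n) u (Sum.inl (j i))) (by
      intro i i' h
      apply hj
      exact Sum.inl_injective ((child_inj.1 h).2))
    exact ⟨_, hi⟩
  choose ξ hξ using hgood
  have hsib : ∀ x y, x ∉ B → y ∉ B → par (G := Gs n) x = par (G := Gs n) y → (χ x ↔ χ y) :=
    fun x y hx hy h => hχ x y hx hy (near_of_par_eq (G := Gs n) h)
  set F : Set (Gs n).E := {e | child (G := Gs n) ((Gs n).s e) (Sum.inl e) ∈ B ∨
    child (G := Gs n) ((Gs n).t e) (Sum.inl e) ∈ B} with hFdef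
  have hF : F.encard ≤ 4 := by
    have h1 : ∃ φ : (Gs n).E → (Gs (n + 1)).V, (∀ e ∈ F, φ e ∈ B) ∧ Set.InjOn φ F := by
      refine ⟨fun e => if child (G := Gs n) ((Gs n).s e) (Sum.inl e) ∈ B then
        child (G := Gs n) ((Gs n).s e) (Sum.inl e) else child (G := Gs n) ((Gs n).t e) (Sum.inl e),
        ?_, ?_⟩
      · intro e he
        by_cases h : child (G := Gs n) ((Gs n).s e) (Sum.inl e) ∈ B
        · simp only [if_pos h]
          exact h
        · simp only [if_neg h]
          exact he.resolve_left h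
      · intro e _ e' _ h
        have h2 : ∀ e : (Gs n).E, slot (G := Gs n)
            (if child (G := Gs n) ((Gs n).s e) (Sum.inl e) ∈ B then
            child (G := Gs n) ((Gs n).s e) (Sum.inl e) else
            child (G := Gs n) ((Gs n).t e) (Sum.inl e)) = Sum.inl e := by
          intro e
          split_ifs <;> rfl
        have h3 := congrArg (slot (G := Gs n)) h
        exact Sum.inl_injective ((h2 e).symm.trans (h3.trans (h2 e')))
    obtain ⟨φ, hφ, hinj⟩ := h1
    exact (encard_le_encard_of_injOn (fun e he => hφ e he) hinj).trans hB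
  have h1 := edge_conn n F hF (fun u => χ (child (G := Gs n) u (ξ u))) (by
    intro e he
    have h2 : child (G := Gs n) ((Gs n).s e) (Sum.inl e) ∉ B := fun h => he (Or.inl h)
    have h3 : child (G := Gs n) ((Gs n).t e) (Sum.inl e) ∉ B := fun h => he (Or.inr h)
    refine (hsib _ _ (hξ _) h2 rfl).trans ?_
    refine (hχ _ _ h2 h3 (near_child_old (G := Gs n) (Or.inl ⟨rfl, rfl⟩))).trans ?_
    exact hsib _ _ h3 (hξ _) rfl) (par x) (par y)
  exact (hsib _ _ hx (hξ _) rfl).trans (h1.trans (hsib _ _ (hξ _) hy rfl))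

end MG

namespace Cont

open Thread

theorem mem_K {n : ℕ} {u : (Gs n).V} {x : Cont} : x ∈ K n u ↔ ∃ a : Thread, a.v n = u ∧ mk a = x :=
  Iff.rfl

theorem bad_encard (n : ℕ) (x : Cont) : {u : (Gs n).V | x ∈ K n u}.encard ≤ 2 := by
  by_contra hcon
  have h1 : 2 < {u : (Gs n).V | x ∈ K n u}.encard := not_le.1 hcon
  have h2 : 2 < {u : (Gs n).V | x ∈ K n u}.ncard := by
    rw [← (Set.toFinite {u : (Gs n).V | x ∈ K n u}).cast_ncard_eq] at h1
    exact_mod_cast h1
  obtain ⟨u, v, w, hu, hv, hw, huv, huw, hvw⟩ := (Set.two_lt_ncard_iff (Set.toFinite _)).1 h2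
  obtain ⟨a, rfl, ha⟩ := hu
  obtain ⟨b, rfl, hb⟩ := hv
  obtain ⟨c, rfl, hc⟩ := hw
  exact hvw (two_nodes (mk_eq.1 (ha.trans hb.symm)) (mk_eq.1 (ha.trans hc.symm)) huv huw)

theorem finite_double (n : ℕ) : {x : Cont | ∃ u u' : (Gs n).V, u ≠ u' ∧ x ∈ K n u ∧
    x ∈ K n u'}.Finite := by
  have h1 : {x : Cont | ∃ u u' : (Gs n).V, u ≠ u' ∧ x ∈ K n u ∧ x ∈ K n u'} ⊆
      ⋃ q : (Gs n).V × (Gs n).Slot, {x : Cont | ∃ a b : Thread, mk a = x ∧ mk b = x ∧
        a.v n ≠ b.v n ∧ a.v n = q.1 ∧ a.sl n = q.2} := by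
    rintro x ⟨u, u', hne, ⟨a, rfl, ha⟩, ⟨b, rfl, hb⟩⟩
    exact mem_iUnion.2 ⟨(a.v n, a.sl n), a, b, ha, hb, hne, rfl, rfl⟩
  refine Set.Finite.subset (Set.finite_iUnion fun q => ?_) h1
  apply Set.Subsingleton.finite
  rintro x ⟨a, b, rfl, hb, hab, h1, h2⟩ y ⟨c, d, rfl, hd, hcd, h3, h4⟩
  exact mk_eq.2 (close_of_two (mk_eq.1 hb.symm) (mk_eq.1 hd.symm) hab hcd (h1.trans h3.symm)
    (h2.trans h4.symm))

theorem regular (x : Cont) : ∀ N : Set Cont, IsOpen N → x ∈ N →
    ∃ V ⊆ N, IsOpen V ∧ x ∈ V ∧ (frontier V).Finite := by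
  intro N hN hxN
  obtain ⟨a, rfl⟩ := exists_rep x
  obtain ⟨n, -, hn⟩ := (nhds_basis a).mem_iff.1 (hN.mem_nhds hxN)
  set U1 : Set Cont := ⋃ u ∈ {u : (Gs n).V | mk a ∉ K n u}, K n u with hU1
  set U2 : Set Cont := ⋃ u ∈ {u : (Gs n).V | mk a ∈ K n u}, K n u with hU2
  have hc1 : IsClosed U1 := (Set.toFinite _).isClosed_biUnion fun u _ => K_closed n u
  have hc2 : IsClosed U2 := (Set.toFinite _).isClosed_biUnion fun u _ => K_closed n u
  have hsub : U1ᶜ ⊆ U2 := by
    intro y hy
    obtain ⟨b, rfl⟩ := exists_rep y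
    by_contra hcon
    apply hy
    refine mem_biUnion (x := b.v n) ?_ (mk_mem_K n b)
    intro h
    exact hcon (mem_biUnion (x := b.v n) h (mk_mem_K n b))
  refine ⟨U1ᶜ, ?_, hc1.isOpen_compl, ?_, ?_⟩
  · intro y hy
    obtain ⟨u, ⟨a', ha', ha''⟩, ⟨b, hb, rfl⟩⟩ := mem_iUnion₂.1 (hsub hy)
    apply hn
    refine ⟨b, ?_, rfl⟩
    have h1 : Close n a a' := mk_eq.1 ha''.symm n
    show (Gs n).Near (a.v n) (b.v n)
    have h2 : b.v n = a'.v n := (show b.v n = u from hb).trans (show a'.v n = u from ha').symm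
    rw [h2]
    exact h1
  · intro h
    obtain ⟨u, hu, hu'⟩ := mem_iUnion₂.1 h
    exact hu hu'
  · refine (finite_double n).subset ?_
    intro y hy
    have h1 : y ∈ U2 := (closure_minimal hsub hc2) hy.1
    have h2 : y ∈ U1 := by
      have h3 := hy.2
      rw [hc1.isOpen_compl.interior_eq] at h3
      exact not_notMem.1 h3
    obtain ⟨u, hu, hu'⟩ := mem_iUnion₂.1 h1
    obtain ⟨v, hv, hv'⟩ := mem_iUnion₂.1 h2
    refine ⟨u, v, ?_, hu', hv'⟩
    rintro rfl
    exact hv hu

theorem no_two_frontier (V : Set Cont) (hV : IsOpen V) (hne : V.Nonempty)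
    (hcl : closure V ≠ univ) (p q : Cont) : ¬ frontier V ⊆ {p, q} := by
  intro hfr
  have hfin : ∀ W : Set Cont, IsOpen W → W.Nonempty → W ≠ univ → (W \ {p, q}).Nonempty := by
    intro W hW hWne hWu
    by_contra hcon
    have h1 : W ⊆ {p, q} := by
      intro w hw
      by_contra h
      exact hcon ⟨w, hw, h⟩
    have h2 : W.Finite := (Set.toFinite {p, q}).subset h1
    rcases isClopen_iff.1 ⟨h2.isClosed, hW⟩ with h | h
    · rw [h] at hWne
      exact not_nonempty_empty hWne
    · exact hWu h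
  have hVu : V ≠ univ := by
    rintro rfl
    exact hcl closure_univ
  have hWo : IsOpen (closure V)ᶜ := isClosed_closure.isOpen_compl
  have hWne : ((closure V)ᶜ).Nonempty := by
    rw [nonempty_compl]
    exact hcl
  have hWu : (closure V)ᶜ ≠ univ := by
    intro h
    obtain ⟨v, hv⟩ := hne
    have : v ∈ (closure V)ᶜ := h ▸ mem_univ v
    exact this (subset_closure hv)
  -- a good node inside an open set
  have hnode : ∀ W : Set Cont, IsOpen W → (W \ {p, q}).Nonempty →
      ∃ n : ℕ, ∀ m, n ≤ m → ∃ u : (Gs m).V, K m u ⊆ W \ {p, q} := by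
    rintro W hW ⟨w, hw⟩
    obtain ⟨a, rfl⟩ := exists_rep w
    have h1 : IsOpen (W \ {p, q}) := hW.sdiff (Set.toFinite {p, q}).isClosed
    obtain ⟨n, -, hn⟩ := (nhds_basis a).mem_iff.1 (h1.mem_nhds hw)
    refine ⟨n, fun m hm => ⟨a.v m, ?_⟩⟩
    rintro _ ⟨b, hb, rfl⟩
    apply hn
    refine ⟨b, ?_, rfl⟩
    exact Or.inl (v_of_le hm (show b.v m = a.v m from hb)).symm
  obtain ⟨n1, hn1⟩ := hnode V hV (hfin V hV hne hVu)
  obtain ⟨n2, hn2⟩ := hnode _ hWo (hfin _ hWo hWne hWu)
  set n := max n1 n2 with hn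
  obtain ⟨u1, hu1⟩ := hn1 (n + 1) (by omega)
  obtain ⟨u2, hu2⟩ := hn2 (n + 1) (by omega)
  set B : Set (Gs (n + 1)).V := {u | p ∈ K (n + 1) u} ∪ {u | q ∈ K (n + 1) u} with hB
  have hBc : B.encard ≤ 4 := by
    refine (encard_union_le _ _).trans ?_
    have := add_le_add (bad_encard (n + 1) p) (bad_encard (n + 1) q)
    refine this.trans ?_
    norm_num
  have hmem : ∀ u : (Gs (n + 1)).V, u ∉ B → p ∉ K (n + 1) u ∧ q ∉ K (n + 1) u := by
    intro u hu
    exact ⟨fun h => hu (Or.inl h), fun h => hu (Or.inr h)⟩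
  have hcov : ∀ T : Set Cont, p ∉ T → q ∉ T → T ⊆ V ∪ (closure V)ᶜ := by
    intro T hp hq x hx
    by_cases hxV : x ∈ V
    · exact Or.inl hxV
    · right
      intro hxc
      have h1 : x ∈ frontier V := by
        rw [hV.frontier_eq]
        exact ⟨hxc, hxV⟩
      rcases hfr h1 with rfl | h2
      · exact hp hx
      · rw [mem_singleton_iff] at h2
        subst h2
        exact hq hx
  have hdis : Disjoint V (closure V)ᶜ := by
    rw [Set.disjoint_compl_right_iff_subset]
    exact subset_closure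
  have hKne : ∀ (m : ℕ) (u : (Gs m).V), (K m u).Nonempty := fun m u => (cell_nonempty m u).image _
  have h1 := MG.node_conn n B hBc (fun u => K (n + 1) u ⊆ V) (by
    have key : ∀ x y, x ∉ B → y ∉ B → (Gs (n + 1)).Near x y → K (n + 1) x ⊆ V →
        K (n + 1) y ⊆ V := by
      intro x y hx hy hxy hxV
      have h2 := hcov (K (n + 1) x ∪ K (n + 1) y) (by
        rintro (h | h)
        · exact (hmem x hx).1 h
        · exact (hmem y hy).1 h) (by
        rintro (h | h)
        · exact (hmem x hx).2 h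
        · exact (hmem y hy).2 h)
      have h3 := (K_pair_preconnected hxy).subset_left_of_subset_union hV hWo hdis h2 (by
        obtain ⟨z, hz⟩ := hKne (n + 1) x
        exact ⟨z, Or.inl hz, hxV hz⟩)
      exact subset_union_right.trans h3
    intro x y hx hy hxy
    exact ⟨key x y hx hy hxy, key y x hy hx hxy.symm⟩) u1 u2 (by
    rintro (h | h)
    · exact (hu1 h).2 (Or.inl rfl)
    · exact (hu1 h).2 (Or.inr rfl)) (by
    rintro (h | h)
    · exact (hu2 h).2 (Or.inl rfl)
    · exact (hu2 h).2 (Or.inr rfl))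
  have h2 : K (n + 1) u2 ⊆ V := h1.1 (hu1.trans sdiff_subset)
  obtain ⟨z, hz⟩ := hKne (n + 1) u2
  exact (hu2 hz).1 (subset_closure (h2 hz))

instance : Nontrivial Cont := by
  obtain ⟨a, ha⟩ := exists_through 1 (MG.child (G := G0) false (Sum.inr true))
  obtain ⟨b, hb⟩ := exists_through 1 (MG.child (G := G0) true (Sum.inr true))
  refine ⟨mk a, mk b, fun h => ?_⟩
  have h1 : (Gs 1).Near (a.v 1) (b.v 1) := mk_eq.1 h 1
  rw [ha, hb] at h1
  rcases MG.Near.next_cases (G := G0) h1 with h2 | ⟨e, -, h3, -⟩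
  · exact Bool.false_ne_true h2
  · exact Sum.inr_ne_inl h3

end Cont

namespace MG

/-! ### Regions and the step of the construction -/

/-- An edge compatible with two regions with centres. -/
def Valid (G : MG) (L : Set G.V) (c : G.V) (L' : Set G.V) (c' : G.V) (β : G.E) : Prop :=
  ∃ i i', G.Joins β i i' ∧ i ∈ L ∧ i' ∈ L' ∧ (i' ∈ L → c = i ∨ c = i') ∧
    (i ∈ L' → c' = i ∨ c' = i')

theorem Valid.symm {G : MG} {L L' : Set G.V} {c c' : G.V} {β : G.E} (h : G.Valid L c L' c' β) :
    G.Valid L' c' L c β := by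
  obtain ⟨i, i', h1, h2, h3, h4, h5⟩ := h
  exact ⟨i', i, h1.symm, h3, h2, fun h => (h5 h).symm, fun h => (h4 h).symm⟩

section

variable {H : MG}

/-- Regions centred over `κ`. -/
def AT (κ : H.V) (L : Set H.next.V) (c : H.next.V) : Prop :=
  par c = κ ∧ c ∈ L ∧ ∀ d ∈ L, H.next.Near c d

/-- Regions centred at the other end of an edge from `κ`. -/
def BT (κ : H.V) (L : Set H.next.V) (c : H.next.V) : Prop :=
  ∃ k e, H.Joins e κ k ∧ c = child k (Sum.inl e) ∧ c ∈ L ∧ child κ (Sum.inl e) ∈ L ∧
    ∀ d ∈ L, par d = κ → d = child κ (Sum.inl e)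

/-- Distinct siblings are joined by an edge. -/
theorem sib_edge [Nonempty H.E] {x y : H.next.V} (h : par x = par y) (hne : x ≠ y) :
    ∃ β, H.next.Joins β x y := by
  rcases near_of_par_eq h with h1 | h1
  · exact absurd h1 hne
  · exact h1

theorem joins_old {e : H.E} {k k' : H.V} (h : H.Joins e k k') :
    H.next.Joins (old e) (child k (Sum.inl e)) (child k' (Sum.inl e)) := by
  rcases h with ⟨rfl, rfl⟩ | ⟨rfl, rfl⟩
  · exact Or.inl ⟨rfl, rfl⟩
  · exact Or.inr ⟨rfl, rfl⟩

theorem valid_A_A [Nonempty H.E] {κ : H.V} {L L' : Set H.next.V} {c c' : H.next.V}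
    (h : AT κ L c) (h' : AT κ L' c') (hh : ∃ d ∈ L, d ≠ c) :
    ∃ β, H.next.Valid L c L' c' β := by
  by_cases hcc : c = c'
  · obtain ⟨d, hd, hdc⟩ := hh
    rcases h.2.2 d hd with h1 | ⟨β, hβ⟩
    · exact absurd h1.symm hdc
    · exact ⟨β, d, c, hβ.symm, hd, hcc ▸ h'.2.1, fun _ => Or.inr rfl, fun _ => Or.inr hcc.symm⟩
  · obtain ⟨β, hβ⟩ := sib_edge (h.1.trans h'.1.symm) hcc
    exact ⟨β, c, c', hβ, h.2.1, h'.2.1, fun _ => Or.inl rfl, fun _ => Or.inr rfl⟩

theorem valid_A_B [Nonempty H.E] {κ : H.V} {L L' : Set H.next.V} {c c' : H.next.V}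
    (h : AT κ L c) (h' : BT κ L' c') : ∃ β, H.next.Valid L c L' c' β := by
  obtain ⟨k, e, he, hc', hcL, hgL, hu⟩ := h'
  by_cases hcg : c = child κ (Sum.inl e)
  · refine ⟨old e, c, c', ?_, h.2.1, hcL, fun _ => Or.inl rfl, fun _ => Or.inr rfl⟩
    rw [hcg, hc']
    exact joins_old he
  · obtain ⟨β, hβ⟩ := sib_edge (x := c) (y := child κ (Sum.inl e)) h.1 hcg
    exact ⟨β, c, _, hβ, h.2.1, hgL, fun _ => Or.inl rfl, fun h1 => absurd (hu c h1 h.1) hcg⟩

theorem valid_B_B [Nonempty H.E] {κ : H.V} {L L' : Set H.next.V} {c c' : H.next.V}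
    (h : BT κ L c) (h' : BT κ L' c') : ∃ β, H.next.Valid L c L' c' β := by
  obtain ⟨k, e, he, hc, hcL, hgL, hu⟩ := h
  obtain ⟨k1, e1, he1, hc1, hcL1, hgL1, hu1⟩ := h'
  by_cases hee : e = e1
  · subst hee
    have hk : k = k1 := he.unique he1
    subst hk
    refine ⟨old e, child κ (Sum.inl e), c', ?_, hgL, hcL1, fun _ => Or.inr ?_,
      fun _ => Or.inr rfl⟩
    · rw [hc1]
      exact joins_old he
    · rw [hc, hc1]
  · have hne : (child κ (Sum.inl e) : H.next.V) ≠ child κ (Sum.inl e1) := by
      intro h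
      exact hee (Sum.inl_injective (child_inj.1 h).2)
    obtain ⟨β, hβ⟩ := sib_edge (x := child κ (Sum.inl e)) (y := child κ (Sum.inl e1)) rfl hne
    exact ⟨β, _, _, hβ, hgL, hgL1, fun h => absurd (hu _ h rfl).symm hne,
      fun h => absurd (hu1 _ h rfl) hne⟩

/-- A node of the next graph is free with respect to a set of nodes if it does not lie on an edge
leaving the set. -/
def Free (r : Set H.V) (d : H.next.V) : Prop :=
  ∀ w k', slot d = Sum.inl w → H.Joins w (par d) k' → k' ∈ r

theorem free_inr (r : Set H.V) (κ v : H.V) : Free r (child κ (Sum.inr v)) := by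
  intro w k' h
  exact absurd h Sum.inr_ne_inl

/-- The regions used in the construction. -/
structure Shape (κ : H.V) (r : Set H.V) (v1 : H.V) (j : H.next.V) (L : Set H.next.V)
    (c : H.next.V) : Prop where
  cen : c ∈ L
  near : ∀ d ∈ L, H.next.Near c d
  mem : j ∈ L
  par : ∀ d ∈ L, MG.par d ∈ r
  free : ∀ d ∈ L, d ≠ j → Free r d
  type : (AT κ L c ∧ ∃ h ∈ L, h ≠ c) ∨ BT κ L c
  hub : MG.par j = κ → child κ (Sum.inr v1) ∈ L
  val : ∀ I β, H.next.Joins β I j → I ∈ L → c = I ∨ c = j
  cenj : MG.par j = κ → c = j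
  full : MG.par j = κ → ∀ d, MG.par d ∈ r → H.next.Near j d → MG.par d ≠ κ → d ∈ L

theorem exists_shape [Nonempty H.E] {κ : H.V} {r : Set H.V} (hκ : κ ∈ r)
    (hr : ∀ k ∈ r, H.Near κ k) {v1 v2 : H.V} (hv : v1 ≠ v2) (j : H.next.V) (hj : par j ∈ r) :
    ∃ L c, Shape κ r v1 j L c := by
  by_cases hjκ : par j = κ
  · refine ⟨{d | par d ∈ r ∧ (d = j ∨ d = child κ (Sum.inr v1) ∨ d = child κ (Sum.inr v2) ∨
      (par d ≠ κ ∧ H.next.Near j d))}, j, ?_⟩
    have hjL : j ∈ {d : H.next.V | par d ∈ r ∧ (d = j ∨ d = child κ (Sum.inr v1) ∨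
      d = child κ (Sum.inr v2) ∨ (par d ≠ κ ∧ H.next.Near j d))} := ⟨hj, Or.inl rfl⟩
    have hnear : ∀ d ∈ {d : H.next.V | par d ∈ r ∧ (d = j ∨ d = child κ (Sum.inr v1) ∨
      d = child κ (Sum.inr v2) ∨ (par d ≠ κ ∧ H.next.Near j d))}, H.next.Near j d := by
      rintro d ⟨-, rfl | rfl | rfl | ⟨-, h⟩⟩
      · exact Near.refl _
      · exact near_of_par_eq hjκ
      · exact near_of_par_eq hjκ
      · exact h
    have h1L : child κ (Sum.inr v1) ∈ {d : H.next.V | par d ∈ r ∧ (d = j ∨
      d = child κ (Sum.inr v1) ∨ d = child κ (Sum.inr v2) ∨ (par d ≠ κ ∧ H.next.Near j d))} :=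
      ⟨hκ, Or.inr (Or.inl rfl)⟩
    have h2L : child κ (Sum.inr v2) ∈ {d : H.next.V | par d ∈ r ∧ (d = j ∨
      d = child κ (Sum.inr v1) ∨ d = child κ (Sum.inr v2) ∨ (par d ≠ κ ∧ H.next.Near j d))} :=
      ⟨hκ, Or.inr (Or.inr (Or.inl rfl))⟩
    refine ⟨hjL, hnear, hjL, fun d hd => hd.1, ?_, ?_, fun _ => h1L, ?_, fun _ => rfl, ?_⟩
    · rintro d ⟨-, rfl | rfl | rfl | ⟨hdκ, h⟩⟩ hdj
      · exact absurd rfl hdj
      · exact free_inr _ _ _
      · exact free_inr _ _ _
      · intro w k' hw hk'
        rcases h.next_cases with h1 | ⟨e, he, -, he'⟩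
        · exact absurd (h1.symm.trans hjκ) hdκ
        · have : w = e := Sum.inl_injective (hw.symm.trans he')
          subst this
          rw [hk'.unique he.symm]
          exact hj
    · left
      refine ⟨⟨hjκ, hjL, hnear⟩, ?_⟩
      by_cases h : child κ (Sum.inr v1) = j
      · refine ⟨_, h2L, ?_⟩
        intro h'
        exact hv (Sum.inr_injective (child_inj.1 (h.trans h'.symm)).2)
      · exact ⟨_, h1L, h⟩
    · intro I β _ _
      exact Or.inr rfl
    · intro _ d hd hn hdκ
      exact ⟨hd, Or.inr (Or.inr (Or.inr ⟨hdκ, hn⟩))⟩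
  · obtain ⟨e, he⟩ : ∃ e, H.Joins e κ (par j) := by
      rcases hr _ hj with h | h
      · exact absurd h.symm hjκ
      · exact h
    refine ⟨{j, child (par j) (Sum.inl e), child κ (Sum.inl e)}, child (par j) (Sum.inl e), ?_⟩
    refine ⟨Or.inr (Or.inl rfl), ?_, Or.inl rfl, ?_, ?_, ?_, fun h => absurd h hjκ, ?_,
      fun h => absurd h hjκ, fun h => absurd h hjκ⟩
    · rintro d (rfl | rfl | rfl)
      · exact near_of_par_eq rfl
      · exact Near.refl _
      · exact near_child_old he.symm
    · rintro d (rfl | rfl | rfl)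
      · exact hj
      · exact hj
      · exact hκ
    · rintro d (rfl | rfl | rfl) hdj
      · exact absurd rfl hdj
      · intro w k' hw hk'
        have : w = e := (Sum.inl_injective hw).symm
        subst this
        rw [hk'.unique he.symm]
        exact hκ
      · intro w k' hw hk'
        have : w = e := (Sum.inl_injective hw).symm
        subst this
        rw [hk'.unique he]
        exact hj
    · right
      refine ⟨par j, e, he, rfl, Or.inr (Or.inl rfl), Or.inr (Or.inr rfl), ?_⟩
      rintro d (rfl | rfl | rfl) hdκ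
      · exact absurd hdκ hjκ
      · exact absurd hdκ hjκ
      · rfl
    · rintro I β hI (rfl | rfl | rfl)
      · exact absurd rfl hI.ne
      · exact Or.inl rfl
      · right
        have hn : H.next.Near (child κ (Sum.inl e)) j := Or.inr ⟨β, hI⟩
        rcases hn.next_cases with h1 | ⟨e', he', h2, h3⟩
        · exact absurd h1.symm hjκ
        · have : e = e' := Sum.inl_injective h2
          subst this
          exact next_ext rfl h3.symm

end

end MG

namespace MG

section

variable {H : MG}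

theorem Joins.eq_or {e : H.E} {u v u' v' : H.V} (h : H.Joins e u v) (h' : H.Joins e u' v') :
    (u = u' ∧ v = v') ∨ (u = v' ∧ v = u') := by
  rcases h with ⟨h1, h2⟩ | ⟨h1, h2⟩ <;> rcases h' with ⟨h3, h4⟩ | ⟨h3, h4⟩
  · exact Or.inl ⟨h1.symm.trans h3, h2.symm.trans h4⟩
  · exact Or.inr ⟨h1.symm.trans h3, h2.symm.trans h4⟩
  · exact Or.inr ⟨h2.symm.trans h4, h1.symm.trans h3⟩
  · exact Or.inl ⟨h2.symm.trans h4, h1.symm.trans h3⟩

theorem joins_old_elim {e : H.E} {x y : H.next.V} (h : H.next.Joins (old e) x y) :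
    ∃ u u', H.Joins e u u' ∧ x = child u (Sum.inl e) ∧ y = child u' (Sum.inl e) := by
  rcases h with ⟨h1, h2⟩ | ⟨h1, h2⟩
  · exact ⟨_, _, Or.inl ⟨rfl, rfl⟩, h1.symm, h2.symm⟩
  · exact ⟨_, _, Or.inr ⟨rfl, rfl⟩, h2.symm, h1.symm⟩

theorem joins_new_elim {u : H.V} {ξ η : H.Slot} {p : H.E} {hne : ξ ≠ η} {x y : H.next.V}
    (h : H.next.Joins (new u ξ η p hne) x y) :
    (x = child u ξ ∧ y = child u η) ∨ (x = child u η ∧ y = child u ξ) := by
  rcases h with ⟨h1, h2⟩ | ⟨h1, h2⟩
  · exact Or.inl ⟨h1.symm, h2.symm⟩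
  · exact Or.inr ⟨h2.symm, h1.symm⟩

/-- Old edges with both regions given by shapes: first case. -/
theorem valid_old_aux {κ κ' : H.V} {r r' : Set H.V} {v1 : H.V} {jx jy : H.next.V}
    {L L' : Set H.next.V} {c c' : H.next.V} (hx : Shape κ r v1 jx L c)
    (hy : Shape κ' r' v1 jy L' c') {β : H.E} (hsx : slot jx = Sum.inl β)
    (hsy : slot jy = Sum.inl β) {k' : H.V} (hk : H.Joins β (par jx) k')
    (h1 : k' ∈ r → par jx = κ) (h1y : k' ∈ r' → par jy = κ') (hpp : par jx = par jy)
    (hk' : k' ∈ r) : H.next.Valid L c L' c' (old β) := by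
  have hjx : jx = child (par jx) (Sum.inl β) := next_ext rfl hsx
  have hjxy : jx = jy := next_ext hpp (hsx.trans hsy.symm)
  have hκ := h1 hk'
  have hmem : child k' (Sum.inl β) ∈ L := by
    apply hx.full hκ
    · exact hk'
    · rw [hjx]
      exact near_child_old hk
    · intro h
      apply hk.ne
      rw [hκ, ← h]
      rfl
  refine ⟨child k' (Sum.inl β), jy, ?_, hmem, hy.mem, fun _ => Or.inr ?_, fun h => Or.inr ?_⟩
  · rw [← hjxy, hjx]
    exact joins_old hk.symm
  · rw [hx.cenj hκ, hjxy]
  · exact hy.cenj (h1y (hy.par _ h))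

/-- Old edges keep their labels. -/
theorem valid_old {κ κ' : H.V} {r r' : Set H.V} {v1 : H.V} {jx jy : H.next.V}
    {L L' : Set H.next.V} {c c' : H.next.V} (hx : Shape κ r v1 jx L c)
    (hy : Shape κ' r' v1 jy L' c') {β : H.E} (hv : H.Valid r κ r' κ' β)
    (hsx : slot jx = Sum.inl β)
    (hsy : slot jy = Sum.inl β) {k' l' : H.V} (hk : H.Joins β (par jx) k')
    (hl : H.Joins β (par jy) l')
    (h1 : k' ∈ r → par jx = κ) (h2 : l' ∈ r' → par jy = κ') :
    H.next.Valid L c L' c' (old β) := by
  rcases hk.eq_or hl with ⟨h3, h4⟩ | ⟨h3, h4⟩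
  · subst h4
    obtain ⟨i, i', hii', hi, hi', -, -⟩ := hv
    have h5 : k' ∈ r ∨ k' ∈ r' := by
      rcases hk.eq_or hii' with ⟨h6, h7⟩ | ⟨h6, h7⟩
      · right
        rw [h7]
        exact hi'
      · left
        rw [h7]
        exact hi
    rcases h5 with h5 | h5
    · exact valid_old_aux hx hy hsx hsy hk h1 h2 h3 h5
    · exact (valid_old_aux hy hx hsy hsx hl h2 h1 h3.symm h5).symm
  · subst h3 h4
    have hjx : jx = child (par jx) (Sum.inl β) := next_ext rfl hsx
    have hjy : jy = child (par jy) (Sum.inl β) := next_ext rfl hsy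
    refine ⟨jx, jy, ?_, hx.mem, hy.mem, fun h => Or.inl ?_, fun h => Or.inr ?_⟩
    · rw [hjx, hjy]
      exact joins_old hk
    · exact hx.cenj (h1 (hx.par _ h))
    · exact hy.cenj (h2 (hy.par _ h))

/-- The state of the construction. -/
structure St (H : MG) (md : Prop) (b : H.V) (R : Set H.V) (z : H.next.next.V)
    (ζ : H.next.next.Slot) (reg : H.next.next.V → Set H.V) (cen : H.next.next.V → H.V)
    (phi : H.next.next.E → Option H.E) : Prop where
  cen_mem : ∀ u, cen u ∈ reg u
  near : ∀ u, ∀ k ∈ reg u, H.Near (cen u) k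
  valid : ∀ ε u u' β, H.next.next.Joins ε u u' → phi ε = some β →
    H.Valid (reg u) (cen u) (reg u') (cen u') β
  none : ∀ ε u u', H.next.next.Joins ε u u' → phi ε = none → b ∈ reg u
  nn : ∀ ε, phi ε = Option.none → md
  own : ∀ u β k k', H.Joins β k k' → k ∈ reg u → k' ∉ reg u →
    ∃ ε u', H.next.next.Joins ε u u' ∧ phi ε = some β
  reg_z : reg z = R
  cen_z : cen z = b
  flag : ∀ ε u', ζ = Sum.inl ε → H.next.next.Joins ε z u' → phi ε = Option.none

/-- The node around which the region of a child is built. -/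
structure JC (H : MG) (b' : H.next.V) (reg : H.next.next.V → Set H.V)
    (cen : H.next.next.V → H.V) (phi : H.next.next.E → Option H.E) (x : H.next.next.next.V)
    (j : H.next.V) : Prop where
  j1 : par j ∈ reg (par x)
  j2 : ∀ w k', slot j = Sum.inl w → H.Joins w (par j) k' → k' ∉ reg (par x) →
    ∃ ε u', slot x = Sum.inl ε ∧ H.next.next.Joins ε (par x) u' ∧ phi ε = some w
  j3 : ∀ ε u' β, slot x = Sum.inl ε → H.next.next.Joins ε (par x) u' → phi ε = some β →
    slot j = Sum.inl β ∧ ∃ k', H.Joins β (par j) k' ∧ (k' ∈ reg (par x) → par j = cen (par x))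
  j4 : ∀ ε u', slot x = Sum.inl ε → H.next.next.Joins ε (par x) u' → phi ε = none → j = b'
  j5 : ∀ v, slot x = Sum.inr v → par (par v) ∈ reg (par x) → Free (reg (par x)) (par v) →
    j = par v

theorem exists_J {md : Prop} {b : H.V} {R : Set H.V} {z : H.next.next.V}
    {ζ : H.next.next.Slot} {reg : H.next.next.V → Set H.V} {cen : H.next.next.V → H.V}
    {phi : H.next.next.E → Option H.E} (hS : St H md b R z ζ reg cen phi) {ω : H.Slot} {v1 : H.V}
    (hmd : md → ω = Sum.inr v1) (x : H.next.next.next.V) :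
    ∃ j, JC H (child b ω) reg cen phi x j := by
  have hub : ∀ w k', slot (child (cen (par x)) (Sum.inr v1) : H.next.V) = Sum.inl w →
      H.Joins w (par (child (cen (par x)) (Sum.inr v1) : H.next.V)) k' → k' ∉ reg (par x) →
      ∃ ε u', slot x = Sum.inl ε ∧ H.next.next.Joins ε (par x) u' ∧ phi ε = some w := by
    intro w k' h
    exact absurd h Sum.inr_ne_inl
  rcases hsx : slot x with ε | v
  · by_cases hinc : ∃ u', H.next.next.Joins ε (par x) u'
    · obtain ⟨u', hu'⟩ := hinc
      rcases hphi : phi ε with _ | β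
      · -- no label
        refine ⟨child b ω, hS.none ε _ _ hu' hphi, ?_, ?_, ?_, ?_⟩
        · intro w k' hw
          have := hmd (hS.nn ε hphi)
          rw [slot_child, this] at hw
          exact absurd hw Sum.inr_ne_inl
        · intro ε' u'' β h1 h2 h3
          have : ε = ε' := Sum.inl_injective (hsx.symm.trans h1)
          subst this
          rw [hphi] at h3
          exact absurd h3 (by simp)
        · intro _ _ _ _ _
          rfl
        · intro v h
          exact absurd (hsx.symm.trans h) Sum.inl_ne_inr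
      · -- label β
        have hex : ∃ k k', H.Joins β k k' ∧ k ∈ reg (par x) ∧
            (k' ∈ reg (par x) → k = cen (par x)) := by
          obtain ⟨i, i', h1, h2, h3, h4, -⟩ := hS.valid ε _ _ β hu' hphi
          by_cases hi' : i' ∈ reg (par x)
          · rcases h4 hi' with h5 | h5
            · exact ⟨i, i', h1, h2, fun _ => h5.symm⟩
            · exact ⟨i', i, h1.symm, hi', fun _ => h5.symm⟩
          · exact ⟨i, i', h1, h2, fun h => absurd h hi'⟩
        obtain ⟨k, k', hkk', hk, hk'⟩ := hex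
        refine ⟨child k (Sum.inl β), hk, ?_, ?_, ?_, ?_⟩
        · intro w _ hw _ _
          have : β = w := Sum.inl_injective hw
          subst this
          exact ⟨ε, u', hsx, hu', hphi⟩
        · intro ε' u'' β' h1 h2 h3
          have : ε = ε' := Sum.inl_injective (hsx.symm.trans h1)
          subst this
          rw [hphi] at h3
          have : β = β' := Option.some_injective _ h3
          subst this
          exact ⟨rfl, k', hkk', hk'⟩
        · intro ε' u'' h1 h2 h3
          have : ε = ε' := Sum.inl_injective (hsx.symm.trans h1)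
          subst this
          rw [hphi] at h3
          exact absurd h3 (by simp)
        · intro v h
          exact absurd (hsx.symm.trans h) Sum.inl_ne_inr
    · refine ⟨child (cen (par x)) (Sum.inr v1), hS.cen_mem _, hub, ?_, ?_, ?_⟩
      · intro ε' u'' β h1 h2
        have : ε = ε' := Sum.inl_injective (hsx.symm.trans h1)
        subst this
        exact absurd ⟨u'', h2⟩ hinc
      · intro ε' u'' h1 h2
        have : ε = ε' := Sum.inl_injective (hsx.symm.trans h1)
        subst this
        exact absurd ⟨u'', h2⟩ hinc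
      · intro v h
        exact absurd (hsx.symm.trans h) Sum.inl_ne_inr
  · by_cases hfree : par (par v) ∈ reg (par x) ∧ Free (reg (par x)) (par v)
    · refine ⟨par v, hfree.1, ?_, ?_, ?_, ?_⟩
      · intro w k' hw hk hk'
        exact absurd (hfree.2 w k' hw hk) hk'
      · intro ε u' β h
        exact absurd (hsx.symm.trans h) Sum.inr_ne_inl
      · intro ε u' h
        exact absurd (hsx.symm.trans h) Sum.inr_ne_inl
      · intro v' h _ _
        have : v = v' := Sum.inr_injective (hsx.symm.trans h)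
        rw [this]
    · refine ⟨child (cen (par x)) (Sum.inr v1), hS.cen_mem _, hub, ?_, ?_, ?_⟩
      · intro ε u' β h
        exact absurd (hsx.symm.trans h) Sum.inr_ne_inl
      · intro ε u' h
        exact absurd (hsx.symm.trans h) Sum.inr_ne_inl
      · intro v' h h1 h2
        have : v = v' := Sum.inr_injective (hsx.symm.trans h)
        subst this
        exact absurd ⟨h1, h2⟩ hfree

theorem nontrivial_next [Nonempty H.E] [Nontrivial H.V] : Nontrivial H.next.V := by
  obtain ⟨e⟩ := ‹Nonempty H.E›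
  obtain ⟨u, v, huv⟩ := ‹Nontrivial H.V›
  exact ⟨child u (Sum.inl e), child v (Sum.inl e), fun h => huv (congrArg par h)⟩

/-- The step of the construction. -/
theorem step [Nonempty H.E] [Nontrivial H.V] {md : Prop} {b : H.V} {R : Set H.V}
    {z : H.next.next.V} {ζ : H.next.next.Slot} {reg : H.next.next.V → Set H.V}
    {cen : H.next.next.V → H.V} {phi : H.next.next.E → Option H.E}
    (hS : St H md b R z ζ reg cen phi) (ω : H.Slot) (R' : Set H.next.V) (hb' : child b ω ∈ R')
    (hn' : ∀ k ∈ R', H.next.Near (child b ω) k) (hp' : ∀ k ∈ R', par k ∈ R)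
    (hf' : ∀ k ∈ R', Free R k) (hmd : md → R = {b}) (hmd' : md → ∃ v, ω = Sum.inr v)
    (ζ' : H.next.next.next.Slot) (hmd'' : ¬ md → ∃ v, ζ' = Sum.inr v) :
    ∃ (reg' : H.next.next.next.V → Set H.next.V) (cen' : H.next.next.next.V → H.next.V)
      (phi' : H.next.next.next.E → Option H.next.E),
      St H.next md (child b ω) R' (child z ζ) ζ' reg' cen' phi' ∧
      (∀ x, ∀ k ∈ reg' x, par k ∈ reg (par x)) ∧
      (∀ u, ∀ i : H.next.V, par i ∈ reg u → ∃ x : H.next.next.next.V, par x = u ∧ i ∈ reg' x) := by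
  classical
  obtain ⟨v1, hv1⟩ : ∃ v1 : H.V, md → ω = Sum.inr v1 := by
    by_cases h : md
    · obtain ⟨v, hv⟩ := hmd' h
      exact ⟨v, fun _ => hv⟩
    · exact ⟨b, fun h' => absurd h' h⟩
  obtain ⟨v2, hv2⟩ := exists_ne v1
  choose j hj using fun x => exists_J hS hv1 x
  choose L c hLc using fun x => exists_shape (hS.cen_mem (par x)) (hS.near (par x)) hv2.symm
    (j x) (hj x).j1
  set z' : H.next.next.next.V := child z ζ with hz'
  set reg' : H.next.next.next.V → Set H.next.V := fun x => if x = z' then R' else L x with hreg'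
  set cen' : H.next.next.next.V → H.next.V := fun x => if x = z' then child b ω else c x
    with hcen'
  have reg_z : reg' z' = R' := if_pos rfl
  have cen_z : cen' z' = child b ω := if_pos rfl
  have reg_ne : ∀ x, x ≠ z' → reg' x = L x := fun x hx => if_neg hx
  have cen_ne : ∀ x, x ≠ z' → cen' x = c x := fun x hx => if_neg hx
  have hpar : ∀ x, ∀ k ∈ reg' x, par k ∈ reg (par x) := by
    intro x k hk
    by_cases hx : x = z'
    · subst hx
      rw [reg_z] at hk
      show par k ∈ reg z
      rw [hS.reg_z]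
      exact hp' k hk
    · rw [reg_ne x hx] at hk
      exact (hLc x).par k hk
  have hcm : ∀ x, cen' x ∈ reg' x := by
    intro x
    by_cases hx : x = z'
    · subst hx
      rw [reg_z, cen_z]
      exact hb'
    · rw [reg_ne x hx, cen_ne x hx]
      exact (hLc x).cen
  have hnear : ∀ x, ∀ k ∈ reg' x, H.next.Near (cen' x) k := by
    intro x k hk
    by_cases hx : x = z'
    · subst hx
      rw [reg_z] at hk
      rw [cen_z]
      exact hn' k hk
    · rw [reg_ne x hx] at hk
      rw [cen_ne x hx]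
      exact (hLc x).near k hk
  have htz : AT (cen z) (reg' z') (cen' z') := by
    refine ⟨?_, hcm z', hnear z'⟩
    rw [cen_z, hS.cen_z]
    rfl
  have htn : ∀ x, x ≠ z' → (AT (cen (par x)) (reg' x) (cen' x) ∧ ∃ h ∈ reg' x, h ≠ cen' x) ∨
      BT (cen (par x)) (reg' x) (cen' x) := by
    intro x hx
    rw [reg_ne x hx, cen_ne x hx]
    exact (hLc x).type
  -- siblings have a compatible edge
  have hV1 : ∀ x y : H.next.next.next.V, par x = par y → x ≠ y →
      ∃ β, H.next.Valid (reg' x) (cen' x) (reg' y) (cen' y) β := by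
    have key : ∀ x y : H.next.next.next.V, par x = par y → x ≠ z' →
        ∃ β, H.next.Valid (reg' x) (cen' x) (reg' y) (cen' y) β := by
      intro x y hxy hx
      have hy : AT (cen (par x)) (reg' y) (cen' y) ∨ BT (cen (par x)) (reg' y) (cen' y) := by
        rw [hxy]
        by_cases hyz : y = z'
        · subst hyz
          exact Or.inl htz
        · rcases htn y hyz with h | h
          · exact Or.inl h.1
          · exact Or.inr h
      rcases htn x hx with ⟨h1, h2⟩ | h1
      · rcases hy with h3 | h3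
        · exact valid_A_A h1 h3 h2
        · exact valid_A_B h1 h3
      · rcases hy with h3 | h3
        · obtain ⟨β, hβ⟩ := valid_A_B h3 h1
          exact ⟨β, hβ.symm⟩
        · exact valid_B_B h1 h3
    intro x y hxy hne
    by_cases hx : x = z'
    · have hy : y ≠ z' := fun h => hne (hx.trans h.symm)
      obtain ⟨β, hβ⟩ := key y x hxy.symm hy
      exact ⟨β, hβ.symm⟩
    · exact key x y hxy hx
  -- every node of the region of `u` is the node of a child of `u`
  have hJ : ∀ (u : H.next.next.V) (i : H.next.V), par i ∈ reg u →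
      ∃ y : H.next.next.next.V, par y = u ∧ y ≠ z' ∧ j y = i := by
    intro u i hi
    by_cases hfree : Free (reg u) i
    · have hnt : Nontrivial H.next.V := nontrivial_next
      obtain ⟨a1, a2, ha⟩ := hnt
      have hv : ∃ v : H.next.next.V, par v = i ∧ Sum.inr v ≠ ζ := by
        by_cases h1 : (Sum.inr (child i (Sum.inr a1)) : H.next.next.Slot) = ζ
        · refine ⟨child i (Sum.inr a2), rfl, ?_⟩
          rw [← h1]
          intro h2
          exact ha (Sum.inr_injective (child_inj.1 (Sum.inr_injective h2)).2).symm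
        · exact ⟨child i (Sum.inr a1), rfl, h1⟩
      obtain ⟨v, hv, hvζ⟩ := hv
      refine ⟨child u (Sum.inr v), rfl, ?_, ?_⟩
      · intro h
        exact hvζ (child_inj.1 h).2
      · rw [← hv] at hi hfree ⊢
        exact (hj (child u (Sum.inr v))).j5 v rfl hi hfree
    · unfold Free at hfree
      push Not at hfree
      obtain ⟨w, k', hw, hk, hk'⟩ := hfree
      obtain ⟨ε, u', hu', hphi⟩ := hS.own u w _ _ hk hi hk'
      refine ⟨child u (Sum.inl ε), rfl, ?_, ?_⟩
      · intro h
        obtain ⟨h1, h2⟩ := child_inj.1 h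
        subst h1
        rw [hS.flag ε u' h2.symm hu'] at hphi
        exact absurd hphi (by simp)
      · obtain ⟨h1, k'', h2, -⟩ := (hj (child u (Sum.inl ε))).j3 ε u' w rfl hu' hphi
        refine next_ext ?_ (h1.trans hw.symm)
        rcases h2.eq_or hk with ⟨h3, -⟩ | ⟨h3, -⟩
        · exact h3
        · exfalso
          apply hk'
          rw [← h3]
          exact (hj (child u (Sum.inl ε))).j1
  -- labels
  set Fl : H.next.next.next.E → Prop := fun ε' => ζ' = Sum.inl ε' ∧
    ∃ u'', H.next.next.next.Joins ε' z' u'' with hFl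
  have hnew : ∀ (u : H.next.next.V) (ξ η : H.next.next.Slot) (p : H.next.next.E) (h : ξ ≠ η),
      ∃ o : Option H.next.E, (∀ β, o = some β → H.next.Valid (reg' (child u ξ))
        (cen' (child u ξ)) (reg' (child u η)) (cen' (child u η)) β) ∧
        (o = none ↔ Fl (new u ξ η p h)) ∧ (∀ β, p = old β → H.next.Valid (reg' (child u ξ))
        (cen' (child u ξ)) (reg' (child u η)) (cen' (child u η)) β → ¬ Fl (new u ξ η p h) →
        o = some β) := by
    intro u ξ η p h
    by_cases h1 : Fl (new u ξ η p h)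
    · exact ⟨none, fun β hβ => absurd hβ (by simp), ⟨fun _ => h1, fun _ => rfl⟩,
        fun _ _ _ h2 => absurd h1 h2⟩
    · by_cases h2 : ∃ β, p = old β ∧ H.next.Valid (reg' (child u ξ))
        (cen' (child u ξ)) (reg' (child u η)) (cen' (child u η)) β
      · obtain ⟨β, h3, h4⟩ := h2
        refine ⟨some β, ?_, ?_, ?_⟩
        · intro β' hβ'
          rw [← Option.some_injective _ hβ']
          exact h4
        · exact ⟨fun h5 => absurd h5 (by simp), fun h5 => absurd h5 h1⟩
        · intro β' h5 _ _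
          rw [old_injective (h3.symm.trans h5)]
      · obtain ⟨β, hβ⟩ := hV1 (child u ξ) (child u η) rfl (fun h3 => h (child_inj.1 h3).2)
        refine ⟨some β, ?_, ?_, ?_⟩
        · intro β' hβ'
          rw [← Option.some_injective _ hβ']
          exact hβ
        · exact ⟨fun h5 => absurd h5 (by simp), fun h5 => absurd h5 h1⟩
        · intro β' h5 h6 _
          exact absurd ⟨β', h5, h6⟩ h2
  choose ph hph1 hph2 hph3 using hnew
  set phi' : H.next.next.next.E → Option H.next.E := Sum.elim (fun ε => (phi ε).map old)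
    (fun q => ph q.1.1 q.1.2.1.1 q.1.2.1.2 q.1.2.2 q.2) with hphi'
  have phi_old : ∀ ε, phi' (old ε) = (phi ε).map old := fun _ => rfl
  have phi_new : ∀ u ξ η p h, phi' (new u ξ η p h) = ph u ξ η p h := fun _ _ _ _ _ => rfl
  refine ⟨reg', cen', phi', ⟨hcm, hnear, ?_, ?_, ?_, ?_, reg_z, cen_z, ?_⟩, hpar, ?_⟩
  · -- valid
    intro ε' x y β' hxy hphi
    rcases edge_cases ε' with ⟨ε, rfl⟩ | ⟨u, ξ, η, p, h, rfl⟩
    · obtain ⟨u, u', huu', rfl, rfl⟩ := joins_old_elim hxy
      rw [phi_old, Option.map_eq_some_iff] at hphi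
      obtain ⟨β, hβ, rfl⟩ := hphi
      have hx : (child u (Sum.inl ε) : H.next.next.next.V) ≠ z' := by
        intro h
        obtain ⟨h1, h2⟩ := child_inj.1 h
        subst h1
        rw [hS.flag ε u' h2.symm huu'] at hβ
        exact absurd hβ (by simp)
      have hy : (child u' (Sum.inl ε) : H.next.next.next.V) ≠ z' := by
        intro h
        obtain ⟨h1, h2⟩ := child_inj.1 h
        subst h1
        rw [hS.flag ε u h2.symm huu'.symm] at hβ
        exact absurd hβ (by simp)
      rw [reg_ne _ hx, cen_ne _ hx, reg_ne _ hy, cen_ne _ hy]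
      obtain ⟨h1, k', h2, h3⟩ := (hj (child u (Sum.inl ε))).j3 ε u' β rfl huu' hβ
      obtain ⟨h4, l', h5, h6⟩ := (hj (child u' (Sum.inl ε))).j3 ε u β rfl huu'.symm hβ
      exact valid_old (hLc _) (hLc _) (hS.valid ε u u' β huu' hβ) h1 h4 h2 h5 h3 h6
    · rw [phi_new] at hphi
      have h1 := hph1 u ξ η p h β' hphi
      rcases joins_new_elim hxy with ⟨rfl, rfl⟩ | ⟨rfl, rfl⟩
      · exact h1
      · exact h1.symm
  · -- none
    intro ε' x y hxy hphi
    rcases edge_cases ε' with ⟨ε, rfl⟩ | ⟨u, ξ, η, p, h, rfl⟩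
    · obtain ⟨u, u', huu', rfl, rfl⟩ := joins_old_elim hxy
      rw [phi_old, Option.map_eq_none_iff] at hphi
      by_cases hx : (child u (Sum.inl ε) : H.next.next.next.V) = z'
      · rw [hx, reg_z]
        exact hb'
      · rw [reg_ne _ hx, ← (hj (child u (Sum.inl ε))).j4 ε u' rfl huu' hphi]
        exact (hLc _).mem
    · rw [phi_new] at hphi
      obtain ⟨h1, u'', h2⟩ := (hph2 u ξ η p h).1 hphi
      have hm : md := by
        by_contra hcon
        obtain ⟨v, hv⟩ := hmd'' hcon
        exact Sum.inr_ne_inl (hv.symm.trans h1)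
      have hu : u = z := by
        rcases joins_new_elim h2 with ⟨h3, -⟩ | ⟨h3, -⟩
        · exact (child_inj.1 h3).1.symm
        · exact (child_inj.1 h3).1.symm
      have hpx : par x = z := by
        rcases joins_new_elim hxy with ⟨rfl, -⟩ | ⟨rfl, -⟩
        · exact hu
        · exact hu
      by_cases hx : x = z'
      · rw [hx, reg_z]
        exact hb'
      · rw [reg_ne _ hx]
        have h3 : par (j x) = cen (par x) := by
          have h4 := (hj x).j1
          rw [hpx, hS.reg_z, hmd hm, mem_singleton_iff] at h4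
          rw [h4, hpx, hS.cen_z]
        have h4 := (hLc x).hub h3
        rw [hpx, hS.cen_z, ← hv1 hm] at h4
        exact h4
  · -- nn
    intro ε' hphi
    rcases edge_cases ε' with ⟨ε, rfl⟩ | ⟨u, ξ, η, p, h, rfl⟩
    · rw [phi_old, Option.map_eq_none_iff] at hphi
      exact hS.nn ε hphi
    · rw [phi_new] at hphi
      obtain ⟨h1, -⟩ := (hph2 u ξ η p h).1 hphi
      by_contra hcon
      obtain ⟨v, hv⟩ := hmd'' hcon
      exact Sum.inr_ne_inl (hv.symm.trans h1)
  · -- own
    intro x β' I I' hII' hI hI'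
    by_cases hpI' : par I' ∈ reg (par x)
    · obtain ⟨y, hyx, hyz, hyj⟩ := hJ (par x) I' hpI'
      have hI'y : I' ∈ reg' y := by
        rw [reg_ne y hyz, ← hyj]
        exact (hLc y).mem
      have hslot : slot x ≠ slot y := by
        intro h
        have h1 : x = y := next_ext hyx.symm h
        rw [h1] at hI'
        exact hI' hI'y
      have hv : H.next.Valid (reg' x) (cen' x) (reg' y) (cen' y) β' := by
        refine ⟨I, I', hII', hI, hI'y, fun h => absurd h hI', fun h => ?_⟩
        rw [reg_ne y hyz] at h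
        rw [cen_ne y hyz, ← hyj]
        refine (hLc y).val I β' ?_ h
        rw [hyj]
        exact hII'
      have hx1 : child (par x) (slot x) = x := rfl
      have hy1 : child (par x) (slot y) = y := next_ext hyx.symm rfl
      by_cases h1 : Fl (new (par x) (slot x) (slot y) (old β') hslot)
      · have h2 : ¬ Fl (new (par x) (slot y) (slot x) (old β') hslot.symm) := by
          intro h2
          have h3 : new (par x) (slot x) (slot y) (old β') hslot =
            new (par x) (slot y) (slot x) (old β') hslot.symm :=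
            Sum.inl_injective (h1.1.symm.trans h2.1)
          have h4 := congrArg H.next.next.next.s h3
          rw [s_new, s_new] at h4
          exact hslot (child_inj.1 h4).2
        refine ⟨_, y, ?_, (phi_new _ _ _ _ _).trans (hph3 _ _ _ _ hslot.symm β' rfl ?_ h2)⟩
        · right
          exact ⟨by rw [s_new, hy1], by rw [t_new, hx1]⟩
        · rw [hx1, hy1]
          exact hv.symm
      · refine ⟨_, y, ?_, (phi_new _ _ _ _ _).trans (hph3 _ _ _ _ hslot β' rfl ?_ h1)⟩
        · left
          exact ⟨by rw [s_new, hx1], by rw [t_new, hy1]⟩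
        · rw [hx1, hy1]
          exact hv
    · rcases edge_cases β' with ⟨w, rfl⟩ | ⟨u, ξ, η, p, h, rfl⟩
      · obtain ⟨k, k', hkk', rfl, rfl⟩ := joins_old_elim hII'
        by_cases hx : x = z'
        · exfalso
          apply hpI'
          rw [hx, reg_z] at hI
          rw [hx]
          show k' ∈ reg z
          rw [hS.reg_z]
          exact hf' _ hI w k' rfl hkk'
        · rw [reg_ne _ hx] at hI
          by_cases hIj : child k (Sum.inl w) = j x
          · obtain ⟨ε, u', h1, h2, h3⟩ := (hj x).j2 w k' (by rw [← hIj]; rfl)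
              (by rw [← hIj]; exact hkk') hpI'
            refine ⟨old ε, child u' (Sum.inl ε), ?_, ?_⟩
            · have h4 := joins_old h2
              rw [← h1] at h4
              rw [h1] at h4
              have h5 : child (par x) (Sum.inl ε) = x := next_ext rfl h1.symm
              rw [h5] at h4
              exact h4
            · rw [phi_old, h3]
              rfl
          · exact absurd ((hLc x).free _ hI hIj w k' rfl hkk') hpI'
      · exfalso
        apply hpI'
        have h1 : par I = par I' := by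
          rcases joins_new_elim hII' with ⟨rfl, rfl⟩ | ⟨rfl, rfl⟩ <;> rfl
        rw [← h1]
        exact hpar x I hI
  · -- flag
    intro ε' u'' hζ' hj'
    rcases edge_cases ε' with ⟨ε, rfl⟩ | ⟨u, ξ, η, p, h, rfl⟩
    · obtain ⟨u, u', huu', h1, rfl⟩ := joins_old_elim hj'
      obtain ⟨h2, h3⟩ := child_inj.1 h1
      subst h2
      rw [phi_old, hS.flag ε u' h3 huu']
      rfl
    · rw [phi_new]
      exact (hph2 u ξ η p h).2 ⟨hζ', u'', hj'⟩
  · -- cover
    intro u i hi
    obtain ⟨y, h1, h2, h3⟩ := hJ u i hi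
    refine ⟨y, h1, ?_⟩
    rw [reg_ne y h2, ← h3]
    exact (hLc y).mem

end

end MG

namespace MG

theorem joins_G0 (β : G0.E) (b : G0.V) : ∃ b', G0.Joins β b b' := by
  match b with
  | false => exact ⟨true, Or.inl ⟨rfl, rfl⟩⟩
  | true => exact ⟨false, Or.inr ⟨rfl, rfl⟩⟩

theorem near_G0 (x y : G0.V) : G0.Near x y := by
  match x, y with
  | false, false => exact MG.Near.refl _
  | true, true => exact MG.Near.refl _
  | false, true => exact Or.inr ⟨(0 : Fin 5), Or.inl ⟨rfl, rfl⟩⟩
  | true, false => exact Or.inr ⟨(0 : Fin 5), Or.inr ⟨rfl, rfl⟩⟩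

/-- The initial state. -/
theorem init {md : Prop} {b : G0.V} {R : Set G0.V} (hb : b ∈ R)
    (z : G0.next.next.V) (ζ : G0.next.next.Slot)
    (hζ : ¬ md → ∃ v, ζ = Sum.inr v) :
    ∃ (reg : G0.next.next.V → Set G0.V) (cen : G0.next.next.V → G0.V)
      (phi : G0.next.next.E → Option G0.E), St G0 md b R z ζ reg cen phi ∧
      ∀ k, ∃ u, k ∈ reg u := by
  classical
  set Fl : G0.next.next.E → Prop := fun ε' => ζ = Sum.inl ε' ∧
    ∃ u'', G0.next.next.Joins ε' z u'' with hFl
  set ph : G0.next.next.E → Option G0.E := Sum.elim (fun _ => some (0 : Fin 5))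
    (fun q => Sum.elim (fun β => some β) (fun _ => some (0 : Fin 5)) q.1.2.2) with hph
  set phi : G0.next.next.E → Option G0.E := fun ε' => if Fl ε' then none else ph ε' with hphi
  set reg : G0.next.next.V → Set G0.V := fun u => if u = z then R else univ with hreg
  have reg_z : reg z = R := if_pos rfl
  have reg_ne : ∀ u, u ≠ z → reg u = univ := fun u hu => if_neg hu
  have hbr : ∀ u, b ∈ reg u := by
    intro u
    by_cases hu : u = z
    · rw [hu, reg_z]
      exact hb
    · rw [reg_ne u hu]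
      exact mem_univ _
  have hphn : ∀ ε', ph ε' ≠ none := by
    intro ε'
    rcases ε' with ε | ⟨⟨u, ξη, p⟩, h⟩
    · exact fun h => absurd h (by simp [hph])
    · rcases p with β | p
      · exact fun h => absurd h (by simp [hph])
      · exact fun h => absurd h (by simp [hph])
  have hnone : ∀ ε', phi ε' = none → Fl ε' := by
    intro ε' h
    by_contra hcon
    rw [hphi] at h
    simp only [if_neg hcon] at h
    exact hphn ε' h
  have hnt : Nontrivial G0.next.next.V := (inferInstance : Nontrivial (Gs 2).V)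
  refine ⟨reg, fun _ => b, phi, ⟨hbr, fun _ _ _ => near_G0 _ _, ?_, fun _ u _ _ _ => hbr u, ?_, ?_,
    reg_z, rfl, ?_⟩, ?_⟩
  · -- valid
    have key : ∀ u u' β, u' ≠ z → G0.Valid (reg u) b (reg u') b β := by
      intro u u' β hu'
      obtain ⟨b', hb'⟩ := joins_G0 β b
      refine ⟨b, b', hb', hbr u, ?_, fun _ => Or.inl rfl, fun _ => Or.inl rfl⟩
      rw [reg_ne u' hu']
      exact mem_univ _
    intro ε u u' β hj _
    by_cases hu' : u' = z
    · have hu : u ≠ z := by
        rw [← hu']
        exact hj.ne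
      exact (key u' u β hu).symm
    · exact key u u' β hu'
  · -- nn
    intro ε' h
    have h1 := (hnone ε' h).1
    by_contra hcon
    obtain ⟨v, hv⟩ := hζ hcon
    exact Sum.inr_ne_inl (hv.symm.trans h1)
  · -- own
    intro u β k k' hkk' hk hk'
    have hu : u = z := by
      by_contra hcon
      rw [reg_ne u hcon] at hk'
      exact hk' (mem_univ _)
    obtain ⟨η, hη⟩ : ∃ η, slot u ≠ η := by
      have : Nontrivial G0.next.Slot := ⟨Sum.inr (child false (Sum.inr false)),
        Sum.inr (child true (Sum.inr false)), fun h => by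
          have := (child_inj.1 (Sum.inr_injective h)).1
          exact Bool.false_ne_true this⟩
      obtain ⟨η, hη⟩ := exists_ne (slot u)
      exact ⟨η, hη.symm⟩
    by_cases h1 : Fl (new (par u) (slot u) η (old β) hη)
    · have h2 : ¬ Fl (new (par u) η (slot u) (old β) hη.symm) := by
        intro h2
        have h3 : new (par u) (slot u) η (old β) hη = new (par u) η (slot u) (old β) hη.symm :=
          Sum.inl_injective (h1.1.symm.trans h2.1)
        have h4 := congrArg G0.next.next.s h3
        rw [s_new, s_new] at h4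
        exact hη (child_inj.1 h4).2
      refine ⟨new (par u) η (slot u) (old β) hη.symm, child (par u) η, ?_, ?_⟩
      · right
        exact ⟨rfl, rfl⟩
      · have h3 : phi (new (par u) η (slot u) (old β) hη.symm) =
          ph (new (par u) η (slot u) (old β) hη.symm) := if_neg h2
        rw [h3]
        rfl
    · refine ⟨new (par u) (slot u) η (old β) hη, child (par u) η, ?_, ?_⟩
      · left
        exact ⟨rfl, rfl⟩
      · have h3 : phi (new (par u) (slot u) η (old β) hη) =
          ph (new (par u) (slot u) η (old β) hη) := if_neg h1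
        rw [h3]
        rfl
  · -- flag
    intro ε u' h1 h2
    exact if_pos ⟨h1, u', h2⟩
  · intro k
    obtain ⟨u, hu⟩ := exists_ne z
    refine ⟨u, ?_⟩
    rw [reg_ne u hu]
    exact mem_univ _

end MG

namespace Cont

open Thread

/-- Two points have representatives close at level `n`. -/
def CloseC (n : ℕ) (y y' : Cont) : Prop := ∃ s s', mk s = y ∧ mk s' = y' ∧ Close n s s'

theorem CloseC.close {n : ℕ} {s s' : Thread} (h : CloseC (n + 2) (mk s) (mk s')) :
    Close n s s' := by
  obtain ⟨r, r', hr, hr', h⟩ := h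
  have h1 : Close (n + 2) s r := mk_eq.1 hr.symm _
  have h2 : Close (n + 2) r' s' := mk_eq.1 hr' _
  exact (h1.trans h).trans h2.succ

theorem eq_of_closeC {y y' : Cont} (h : ∀ n, CloseC n y y') : y = y' := by
  obtain ⟨s, rfl⟩ := exists_rep y
  obtain ⟨s', rfl⟩ := exists_rep y'
  exact mk_eq.2 fun n => (h (n + 2)).close

/-- The closed set of a set of nodes. -/
def KR (n : ℕ) (r : Set (Gs n).V) : Set Cont := ⋃ k ∈ r, K n k

theorem mem_KR {n : ℕ} {r : Set (Gs n).V} {y : Cont} : y ∈ KR n r ↔ ∃ s : Thread, s.v n ∈ r ∧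
    mk s = y := by
  constructor
  · intro h
    obtain ⟨k, hk, s, hs, rfl⟩ := mem_iUnion₂.1 h
    exact ⟨s, (show s.v n = k from hs) ▸ hk, rfl⟩
  · rintro ⟨s, hs, rfl⟩
    exact mem_biUnion hs (mk_mem_K n s)

theorem KR_closed (n : ℕ) (r : Set (Gs n).V) : IsClosed (KR n r) :=
  (Set.toFinite r).isClosed_biUnion fun k _ => K_closed n k

/-- A system of regions gives a map. -/
theorem exists_map (reg : ∀ n, (Gs (n + 2)).V → Set (Gs n).V)
    (cen : ∀ n, (Gs (n + 2)).V → (Gs n).V)
    (hcen : ∀ n u, cen n u ∈ reg n u)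
    (hnear : ∀ n u, ∀ k ∈ reg n u, (Gs n).Near (cen n u) k)
    (hadj : ∀ n u u', (Gs (n + 2)).Near u u' → ∃ k ∈ reg n u, ∃ k' ∈ reg n u', (Gs n).Near k k')
    (hpar : ∀ n (x : (Gs (n + 3)).V), ∀ k ∈ reg (n + 1) x,
      MG.par (G := Gs n) k ∈ reg n (MG.par (G := Gs (n + 2)) x))
    (hcov : ∀ n (u : (Gs (n + 2)).V) (i : (Gs (n + 1)).V), MG.par (G := Gs n) i ∈ reg n u →
      ∃ x : (Gs (n + 3)).V, MG.par (G := Gs (n + 2)) x = u ∧ i ∈ reg (n + 1) x)
    (hop : ∀ n u k k', k ∈ reg n u → (Gs n).Near k k' → ∃ u', (Gs (n + 2)).Near u u' ∧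
      k' ∈ reg n u')
    (hsurj : ∀ k, ∃ u, k ∈ reg 0 u)
    (a b : Thread) (hab : ∀ n, b.v n ∈ reg n (a.v (n + 2))) :
    ∃ F : Cont → Cont, Continuous F ∧ IsOpenMap F ∧ Function.Surjective F ∧ F (mk a) = mk b := by
  -- nested
  have hnest : ∀ n (x : (Gs (n + 3)).V), KR (n + 1) (reg (n + 1) x) ⊆
      KR n (reg n (MG.par (G := Gs (n + 2)) x)) := by
    intro n x y hy
    obtain ⟨s, hs, rfl⟩ := mem_KR.1 hy
    exact mem_KR.2 ⟨s, hpar n x _ hs, rfl⟩
  have hex : ∀ t : Thread, ∃ y : Cont, ∀ n, y ∈ KR n (reg n (t.v (n + 2))) := by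
    intro t
    have h1 := IsCompact.nonempty_iInter_of_sequence_nonempty_isCompact_isClosed
      (fun n => KR n (reg n (t.v (n + 2)))) (fun n => hnest n (t.v (n + 3))) (by
        intro n
        obtain ⟨s, hs⟩ := exists_through n (cen n (t.v (n + 2)))
        exact ⟨mk s, mem_KR.2 ⟨s, hs ▸ hcen n _, rfl⟩⟩) (KR_closed _ _).isCompact
      (fun n => KR_closed _ _)
    obtain ⟨y, hy⟩ := h1
    exact ⟨y, fun n => mem_iInter.1 hy n⟩
  choose f hf using hex
  -- closeness
  have hclose : ∀ n (u u' : (Gs (n + 3 + 2)).V) (y y' : Cont), y ∈ KR (n + 3) (reg (n + 3) u) →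
      y' ∈ KR (n + 3) (reg (n + 3) u') → (Gs (n + 3 + 2)).Near u u' → CloseC n y y' := by
    intro n u u' y y' hy hy' huu'
    obtain ⟨s, hs, rfl⟩ := mem_KR.1 hy
    obtain ⟨s', hs', rfl⟩ := mem_KR.1 hy'
    obtain ⟨k, hk, k', hk', hkk'⟩ := hadj (n + 3) u u' huu'
    obtain ⟨c1, hc1⟩ := exists_through (n + 3) (cen (n + 3) u)
    obtain ⟨c2, hc2⟩ := exists_through (n + 3) k
    obtain ⟨c3, hc3⟩ := exists_through (n + 3) k'
    obtain ⟨c4, hc4⟩ := exists_through (n + 3) (cen (n + 3) u')
    have h1 : Close (n + 3) s c1 := by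
      show (Gs (n + 3)).Near _ _
      rw [hc1]
      exact (hnear _ _ _ hs).symm
    have h2 : Close (n + 3) c1 c2 := by
      show (Gs (n + 3)).Near _ _
      rw [hc1, hc2]
      exact hnear _ _ _ hk
    have h3 : Close (n + 3) c2 c3 := by
      show (Gs (n + 3)).Near _ _
      rw [hc2, hc3]
      exact hkk'
    have h4 : Close (n + 3) c3 c4 := by
      show (Gs (n + 3)).Near _ _
      rw [hc3, hc4]
      exact (hnear _ _ _ hk').symm
    have h5 : Close (n + 3) c4 s' := by
      show (Gs (n + 3)).Near _ _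
      rw [hc4]
      exact hnear _ _ _ hs'
    have h12 : Close (n + 2) s c2 := h1.trans h2
    have h34 : Close (n + 2) c2 c4 := h3.trans h4
    have h14 : Close (n + 1) s c4 := h12.trans h34
    exact ⟨s, s', rfl, rfl, h14.trans (Close.mono (by omega) h5)⟩
  have huniq : ∀ (t : Thread) (y y' : Cont), (∀ n, y ∈ KR n (reg n (t.v (n + 2)))) →
      (∀ n, y' ∈ KR n (reg n (t.v (n + 2)))) → y = y' := by
    intro t y y' hy hy'
    exact eq_of_closeC fun n => hclose n _ _ y y' (hy _) (hy' _) (MG.Near.refl _)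
  have hcont : Continuous f := by
    rw [continuous_iff_continuousAt]
    intro t
    obtain ⟨s, hs⟩ := exists_rep (f t)
    rw [ContinuousAt, ← hs, (nhds_basis s).tendsto_right_iff]
    intro n _
    refine (Thread.nhds_basis t).mem_iff.2 ⟨n + 2 + 3 + 2, trivial, ?_⟩
    intro t' ht'
    obtain ⟨s', hs'⟩ := exists_rep (f t')
    have h1 := hclose (n + 2) _ _ (f t) (f t') (hf t _) (hf t' _) ht'
    rw [← hs, ← hs'] at h1
    exact ⟨s', h1.close, hs'⟩
  have hins : ∀ t t' : Thread, Inseparable t t' → f t = f t' := by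
    intro t t' h
    rw [Thread.inseparable_iff] at h
    exact eq_of_closeC fun n => hclose n _ _ _ _ (hf t _) (hf t' _) (h _)
  -- lifting
  have hlift : ∀ n (u' : (Gs (n + 2)).V) (s' : Thread), s'.v n ∈ reg n u' →
      ∃ t' : Thread, t'.v (n + 2) = u' ∧ f t' = mk s' := by
    intro n u' s' hs'
    obtain ⟨a0, ha0⟩ := exists_through (n + 2) u'
    obtain ⟨t', ht1, ht2⟩ := exists_extend (n + 2) a0 (fun m x => ∃ (l : ℕ) (h : m = l + 2),
      s'.v l ∈ reg l (h ▸ x)) ⟨n, rfl, by rw [ha0]; exact hs'⟩ (by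
        rintro m hm x ⟨l, rfl, hl⟩
        obtain ⟨y, hy1, hy2⟩ := hcov l x (s'.v (l + 1)) hl
        refine ⟨MG.slot (G := Gs (l + 2)) y, l + 1, rfl, ?_⟩
        have h1 : MG.child (G := Gs (l + 2)) x (MG.slot (G := Gs (l + 2)) y) = y := by
          rw [← hy1]
          rfl
        rw [h1]
        exact hy2)
    have hge : ∀ l, n ≤ l → s'.v l ∈ reg l (t'.v (l + 2)) := by
      intro l hl
      obtain ⟨l', h1, h2⟩ := ht2 (l + 2) (by omega)
      have h3 : l = l' := by omega
      subst h3
      exact h2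
    have hall : ∀ l, s'.v l ∈ reg l (t'.v (l + 2)) := by
      intro l
      by_cases hl : n ≤ l
      · exact hge l hl
      · have key : ∀ d, ∀ l, l + d = n → s'.v l ∈ reg l (t'.v (l + 2)) := by
          intro d
          induction d with
          | zero =>
            intro l hl
            exact hge l (by omega)
          | succ d ih =>
            intro l hl
            exact hpar l _ _ (ih (l + 1) (by omega))
        exact key (n - l) l (by omega)
    refine ⟨t', ?_, ?_⟩
    · rw [ht1 (n + 2) le_rfl, ha0]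
    · exact huniq t' _ _ (hf t') fun l => mem_KR.2 ⟨s', hall l, rfl⟩
  have hF : ∀ t, SeparationQuotient.lift f hins (mk t) = f t := fun t => rfl
  refine ⟨SeparationQuotient.lift f hins, SeparationQuotient.continuous_lift hcont, ?_, ?_, ?_⟩
  · rw [isOpenMap_iff_nhds_le]
    intro x
    obtain ⟨t, rfl⟩ := exists_rep x
    rw [hF]
    intro S hS
    rw [mem_map] at hS
    obtain ⟨n, -, hn⟩ := (nhds_basis t).mem_iff.1 hS
    obtain ⟨s, hs, hst⟩ := mem_KR.1 (hf t n)
    rw [← hst]
    refine (nhds_basis s).mem_iff.2 ⟨n, trivial, ?_⟩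
    rintro _ ⟨s', hs', rfl⟩
    obtain ⟨u', hu', hk'⟩ := hop n _ _ _ hs hs'
    obtain ⟨t', ht', hft'⟩ := hlift n u' s' hk'
    rw [← hft', ← hF]
    apply hn
    refine ⟨t', ?_, rfl⟩
    have h1 : Close (n + 2) t t' := by
      show (Gs (n + 2)).Near _ _
      rw [ht']
      exact hu'
    exact Close.mono (by omega) h1
  · intro y
    obtain ⟨s, rfl⟩ := exists_rep y
    obtain ⟨u, hu⟩ := hsurj (s.v 0)
    obtain ⟨t', -, hft'⟩ := hlift 0 u s hu
    exact ⟨mk t', hft'⟩
  · rw [hF]
    exact huniq a _ _ (hf a) fun n => mem_KR.2 ⟨b, hab n, rfl⟩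

end Cont

namespace Cont

open Thread

/-- The basic step of open homogeneity. -/
theorem exists_open {md : Prop} (a b : Thread) (R : ∀ n, Set (Gs n).V)
    (hb : ∀ n, b.v n ∈ R n) (hn : ∀ n, ∀ k ∈ R n, (Gs n).Near (b.v n) k)
    (hp : ∀ n, ∀ k ∈ R (n + 1), MG.par (G := Gs n) k ∈ R n)
    (hf : ∀ n, ∀ k ∈ R (n + 1), MG.Free (H := Gs n) (R n) k)
    (hmd : ∀ n, md → R n = {b.v n}) (hmd' : ∀ n, md → ∃ v, b.sl n = Sum.inr v)
    (hmd'' : ∀ n, ¬ md → ∃ v, a.sl n = Sum.inr v) :
    ∃ F : Cont → Cont, Continuous F ∧ IsOpenMap F ∧ Function.Surjective F ∧ F (mk a) = mk b := by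
  -- states
  let D : ℕ → Type := fun n => {d : ((Gs (n + 2)).V → Set (Gs n).V) ×
    ((Gs (n + 2)).V → (Gs n).V) × ((Gs (n + 2)).E → Option (Gs n).E) //
      MG.St (Gs n) md (b.v n) (R n) (a.v (n + 2)) (a.sl (n + 2)) d.1 d.2.1 d.2.2}
  have hstep : ∀ n (d : D n), ∃ d' : D (n + 1),
      (∀ (x : (Gs (n + 3)).V), ∀ k ∈ d'.1.1 x,
        MG.par (G := Gs n) k ∈ d.1.1 (MG.par (G := Gs (n + 2)) x)) ∧
      (∀ (u : (Gs (n + 2)).V) (i : (Gs (n + 1)).V), MG.par (G := Gs n) i ∈ d.1.1 u →
        ∃ x : (Gs (n + 3)).V, MG.par (G := Gs (n + 2)) x = u ∧ i ∈ d'.1.1 x) := by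
    intro n d
    obtain ⟨reg', cen', phi', h1, h2, h3⟩ := MG.step (H := Gs n) d.2 (b.sl n) (R (n + 1))
      (hb (n + 1)) (hn (n + 1)) (hp n) (hf n) (hmd n) (hmd' n) (a.sl (n + 3)) (hmd'' (n + 3))
    exact ⟨⟨⟨reg', cen', phi'⟩, h1⟩, h2, h3⟩
  obtain ⟨reg0, cen0, phi0, h0, hs0⟩ := MG.init (md := md) (b := b.v 0) (R := R 0) (hb 0)
    (a.v 2) (a.sl 2) (hmd'' 2)
  choose nx hnx1 hnx2 using hstep
  let d : ∀ n, D n := fun n => Nat.rec (motive := D) ⟨⟨reg0, cen0, phi0⟩, h0⟩ (fun n d => nx n d) n
  have hd : ∀ n, d (n + 1) = nx n (d n) := fun n => rfl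
  apply exists_map (fun n => (d n).1.1) (fun n => (d n).1.2.1)
  · exact fun n => (d n).2.cen_mem
  · exact fun n => (d n).2.near
  · intro n u u' huu'
    rcases huu' with rfl | ⟨ε, hε⟩
    · exact ⟨_, (d n).2.cen_mem u, _, (d n).2.cen_mem u, MG.Near.refl _⟩
    · rcases hphi : (d n).1.2.2 ε with _ | β
      · exact ⟨_, (d n).2.none ε _ _ hε hphi, _, (d n).2.none ε _ _ hε.symm hphi,
          MG.Near.refl _⟩
      · obtain ⟨i, i', h1, h2, h3, -, -⟩ := (d n).2.valid ε _ _ β hε hphi
        exact ⟨i, h2, i', h3, Or.inr ⟨β, h1⟩⟩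
  · intro n x k hk
    exact hnx1 n (d n) x k hk
  · intro n u i hi
    exact hnx2 n (d n) u i hi
  · intro n u k k' hk hkk'
    rcases hkk' with rfl | ⟨β, hβ⟩
    · exact ⟨u, MG.Near.refl _, hk⟩
    · by_cases hk' : k' ∈ (d n).1.1 u
      · exact ⟨u, MG.Near.refl _, hk'⟩
      · obtain ⟨ε, u', h1, h2⟩ := (d n).2.own u β k k' hβ hk hk'
        refine ⟨u', Or.inr ⟨ε, h1⟩, ?_⟩
        obtain ⟨i, i', h3, h4, h5, -, -⟩ := (d n).2.valid ε _ _ β h1 h2
        rcases hβ.eq_or h3 with ⟨h6, h7⟩ | ⟨h6, h7⟩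
        · show k' ∈ (d n).1.1 u'
          rw [h7]
          exact h5
        · exfalso
          apply hk'
          rw [h7]
          exact h4
  · exact hs0
  · intro n
    show b.v n ∈ (d n).1.1 (a.v (n + 2))
    rw [(d n).2.reg_z]
    exact hb n

/-- A thread all of whose slots are interior. -/
theorem exists_interior : ∃ c : Thread, ∀ n, ∃ v, c.sl n = Sum.inr v := by
  have h : ∀ n, ∃ v : (Gs n).V, True := fun n => by
    obtain ⟨v⟩ : Nonempty (Gs n).V := inferInstance
    exact ⟨v, trivial⟩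
  choose v _ using h
  exact ⟨⟨v 0, fun n => Sum.inr (v n)⟩, fun n => ⟨v n, rfl⟩⟩

/-- The space is homogeneous with respect to open maps. -/
theorem open_homogeneous (x y : Cont) :
    ∃ F : Cont → Cont, Continuous F ∧ IsOpenMap F ∧ Function.Surjective F ∧ F x = y := by
  obtain ⟨c, hc⟩ := exists_interior
  obtain ⟨a, rfl⟩ := exists_rep x
  obtain ⟨b, rfl⟩ := exists_rep y
  obtain ⟨F, hF1, hF2, hF3, hF4⟩ := exists_open (md := True) a c (fun n => {c.v n})
    (fun n => rfl) (by
      rintro n k hk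
      rw [mem_singleton_iff.1 hk]
      exact MG.Near.refl _) (by
      rintro n k hk
      rw [mem_singleton_iff.1 hk]
      rfl) (by
      rintro n k hk w k' hw
      rw [mem_singleton_iff.1 hk] at hw
      obtain ⟨v, hv⟩ := hc n
      exact absurd (hv.symm.trans hw) Sum.inr_ne_inl) (fun _ _ => rfl) (fun n _ => hc n)
    (fun n h => absurd trivial h)
  obtain ⟨F', hF1', hF2', hF3', hF4'⟩ := exists_open (md := False) c b
    (fun n => {k | (Gs n).Near (b.v n) k})
    (fun n => MG.Near.refl _) (fun n k hk => hk) (fun n k hk => MG.Near.par (G := Gs n) hk) (by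
      rintro n k hk w k' hw hj
      show (Gs n).Near (b.v n) k'
      rcases MG.Near.next_cases (G := Gs n) hk with h | ⟨e, he, h1, h2⟩
      · right
        refine ⟨w, ?_⟩
        have h3 : b.v n = MG.par (G := Gs n) k := h
        rw [h3]
        exact hj
      · have : w = e := Sum.inl_injective (hw.symm.trans h2)
        subst this
        left
        exact (hj.unique he.symm).symm) (fun _ h => h.elim) (fun _ h => h.elim)
    (fun n _ => hc n)
  exact ⟨F' ∘ F, hF1'.comp hF1, hF2'.comp hF2, hF3'.comp hF3, by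
    rw [Function.comp_apply, hF4, hF4']⟩

end Cont

end Pool.Agent.Lib.MP_861931_gt
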