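import Mathlib

open Set Filter Topology

namespace Pool.Agent.Lib.MP_861931_gt

/-! ### General facts on connected open sets -/

section Gen

variable {Y : Type*} [TopologicalSpace Y]

/-- In a connected set `W`, a point `y` adheres to every nonempty relatively clopen piece of
`W \ {y}`. -/
theorem mem_closure_of_piece [T1Space Y] {W A : Set Y} {y : Y} (hW : IsPreconnected W) (hy : y ∈ W)
    (hA : IsOpen A) (hAW : A ⊆ W \ {y}) (hne : A.Nonempty)
    (hcl : ∀ z ∈ W, z ≠ y → z ∈ closure A → z ∈ A) : y ∈ closure A := by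
  by_contra hcon
  have h1 : W ⊆ A ∪ (closure A)ᶜ := by
    intro z hz
    by_cases hzA : z ∈ closure A
    · left
      refine hcl z hz ?_ hzA
      rintro rfl
      exact hcon hzA
    · exact Or.inr hzA
  have h2 : W ⊆ A := by
    refine hW.subset_left_of_subset_union hA isClosed_closure.isOpen_compl ?_ h1 ?_
    · rw [Set.disjoint_compl_right_iff_subset]
      exact subset_closure
    · obtain ⟨a, ha⟩ := hne
      exact ⟨a, (hAW ha).1, ha⟩
  exact (hAW (h2 hy)).2 rfl

/-- Components of an open set in a locally connected space. -/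
theorem comp_closed [LocallyConnectedSpace Y] {F : Set Y} (hF : IsOpen F) {p z : Y}
    (hz : z ∈ F) (hzc : z ∈ closure (connectedComponentIn F p)) : z ∈ connectedComponentIn F p := by
  have h1 : IsOpen (connectedComponentIn F z) := hF.connectedComponentIn
  have h2 : z ∈ connectedComponentIn F z := mem_connectedComponentIn hz
  obtain ⟨w, hw1, hw2⟩ := mem_closure_iff.1 hzc _ h1 h2
  have h3 := connectedComponentIn_eq hw1
  have h4 := connectedComponentIn_eq hw2
  rw [h4, ← h3]
  exact h2

/-- In a connected open subset of a locally connected regular space, any two points lie in a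
connected subset whose closure avoids a given point outside. -/
theorem exists_connected_avoiding [LocallyConnectedSpace Y] [T3Space Y] {A : Set Y}
    (hA : IsOpen A) (hAc : IsPreconnected A) {y p z : Y} (hy : y ∉ A) (hp : p ∈ A) (hz : z ∈ A) :
    ∃ Γ ⊆ A, IsPreconnected Γ ∧ p ∈ Γ ∧ z ∈ Γ ∧ y ∉ closure Γ := by
  have hloc : ∀ w ∈ A, ∃ O ⊆ A, IsOpen O ∧ IsPreconnected O ∧ w ∈ O ∧ y ∉ closure O := by
    intro w hw
    obtain ⟨C, hC, hCcl, hCA⟩ := exists_mem_nhds_isClosed_subset (hA.mem_nhds hw)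
    have h1 : IsOpen (interior C) := isOpen_interior
    have h2 : w ∈ interior C := mem_interior_iff_mem_nhds.2 hC
    refine ⟨connectedComponentIn (interior C) w, ?_, h1.connectedComponentIn,
      isPreconnected_connectedComponentIn, mem_connectedComponentIn h2, ?_⟩
    · exact (connectedComponentIn_subset _ _).trans (interior_subset.trans hCA)
    · intro hcon
      have h3 : closure (connectedComponentIn (interior C) w) ⊆ C :=
        closure_minimal ((connectedComponentIn_subset _ _).trans interior_subset) hCcl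
      exact hy (hCA (h3 hcon))
  set Z : Set Y := {w | ∃ Γ ⊆ A, IsPreconnected Γ ∧ p ∈ Γ ∧ w ∈ Γ ∧ y ∉ closure Γ} with hZ
  have hext : ∀ w w' O, O ⊆ A → IsPreconnected O → w ∈ O → w' ∈ O → y ∉ closure O → w ∈ Z →
      w' ∈ Z := by
    rintro w w' O hOA hOc hw hw' hyO ⟨Γ, hΓA, hΓc, hpΓ, hwΓ, hyΓ⟩
    refine ⟨Γ ∪ O, union_subset hΓA hOA, hΓc.union w hwΓ hw hOc, Or.inl hpΓ, Or.inr hw', ?_⟩
    rw [closure_union]
    rintro (h | h)
    · exact hyΓ h
    · exact hyO h
  have hZo : IsOpen Z := by
    rw [isOpen_iff_mem_nhds]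
    intro w hw
    have hwA : w ∈ A := by
      obtain ⟨Γ, hΓA, -, -, hwΓ, -⟩ := hw
      exact hΓA hwΓ
    obtain ⟨O, hOA, hO, hOc, hwO, hyO⟩ := hloc w hwA
    filter_upwards [hO.mem_nhds hwO] with w' hw'
    exact hext w w' O hOA hOc hwO hw' hyO hw
  have hcl : ∀ w ∈ A, w ∈ closure Z → w ∈ Z := by
    intro w hwA hw
    obtain ⟨O, hOA, hO, hOc, hwO, hyO⟩ := hloc w hwA
    obtain ⟨w', hw'O, hw'Z⟩ := mem_closure_iff.1 hw O hO hwO
    exact hext w' w O hOA hOc hw'O hwO hyO hw'Z
  have hpZ : p ∈ Z := by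
    obtain ⟨O, hOA, hO, hOc, hwO, hyO⟩ := hloc p hp
    exact ⟨O, hOA, hOc, hwO, hwO, hyO⟩
  have hAZ : A ⊆ Z := by
    refine hAc.subset_left_of_subset_union hZo (isClosed_closure (s := Z)).isOpen_compl ?_ ?_ ?_
    · rw [Set.disjoint_compl_right_iff_subset]
      exact subset_closure
    · intro w hw
      by_cases h : w ∈ closure Z
      · exact Or.inl (hcl w hw h)
      · exact Or.inr h
    · exact ⟨p, hp, hpZ⟩
  exact hAZ hz

end Gen

section Cut

variable {Y : Type*} [TopologicalSpace Y]

/-- `y` separates `p` from `q` in `W`: stated with components. -/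
def Sep (W : Set Y) (p q y : Y) : Prop :=
  y ∈ W ∧ p ∈ W \ {y} ∧ q ∈ W \ {y} ∧ q ∉ connectedComponentIn (W \ {y}) p

variable [LocallyConnectedSpace Y] [T3Space Y]

omit [LocallyConnectedSpace Y] in
theorem isOpen_diff_singleton {W : Set Y} (hW : IsOpen W) (y : Y) : IsOpen (W \ {y}) :=
  hW.sdiff isClosed_singleton

/-- A component `C` of `W \ {y}` together with `y` is connected. -/
theorem comp_insert_preconnected {W : Set Y} (hW : IsOpen W) (hWc : IsPreconnected W) {y c : Y}
    (hy : y ∈ W) (hc : c ∈ W \ {y}) :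
    IsPreconnected (insert y (connectedComponentIn (W \ {y}) c)) := by
  have hF := isOpen_diff_singleton hW y
  have h1 : y ∈ closure (connectedComponentIn (W \ {y}) c) := by
    refine mem_closure_of_piece hWc hy hF.connectedComponentIn (connectedComponentIn_subset _ _)
      ⟨c, mem_connectedComponentIn hc⟩ ?_
    intro z hz hzy hzc
    exact comp_closed hF ⟨hz, hzy⟩ hzc
  exact isPreconnected_connectedComponentIn.subset_closure (subset_insert _ _)
    (insert_subset h1 subset_closure)

variable {W : Set Y} (hW : IsOpen W) (hWc : IsPreconnected W)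

include hW hWc

/-- Two separating points: each lies on one of the two main sides of the other. -/
theorem sep_mem {p q y y' : Y} (hy : Sep W p q y) (hy' : Sep W p q y') (hne : y ≠ y') :
    y' ∈ connectedComponentIn (W \ {y}) p ∨ y' ∈ connectedComponentIn (W \ {y}) q := by
  by_contra hcon
  push Not at hcon
  obtain ⟨hyW, hp, hq, hpq⟩ := hy
  obtain ⟨hyW', hp', hq', hpq'⟩ := hy'
  have h1 := comp_insert_preconnected hW hWc hyW hp
  have h2 := comp_insert_preconnected hW hWc hyW hq
  have h3 : IsPreconnected (insert y (connectedComponentIn (W \ {y}) p) ∪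
      insert y (connectedComponentIn (W \ {y}) q)) :=
    h1.union y (mem_insert _ _) (mem_insert _ _) h2
  have h4 : insert y (connectedComponentIn (W \ {y}) p) ∪
      insert y (connectedComponentIn (W \ {y}) q) ⊆ W \ {y'} := by
    have aux : ∀ c, y' ∉ connectedComponentIn (W \ {y}) c →
        insert y (connectedComponentIn (W \ {y}) c) ⊆ W \ {y'} := by
      intro c hc
      apply insert_subset
      · exact ⟨hyW, hne⟩
      · intro z hz
        refine ⟨(connectedComponentIn_subset _ _ hz).1, ?_⟩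
        rintro rfl
        exact hc hz
    exact union_subset (aux p hcon.1) (aux q hcon.2)
  have h5 := h3.subset_connectedComponentIn
    (Or.inl (mem_insert_of_mem _ (mem_connectedComponentIn hp))) h4
  exact hpq' (h5 (Or.inr (mem_insert_of_mem _ (mem_connectedComponentIn hq))))

/-- Comparison of sides. -/
theorem sep_subset {y y' c : Y} (hy : y ∈ W) (hc : c ∈ W \ {y}) (hne : y ≠ y')
    (h : y' ∉ connectedComponentIn (W \ {y}) c) :
    insert y (connectedComponentIn (W \ {y}) c) ⊆ connectedComponentIn (W \ {y'}) c := by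
  have h1 := comp_insert_preconnected hW hWc hy hc
  have h4 : insert y (connectedComponentIn (W \ {y}) c) ⊆ W \ {y'} := by
    apply insert_subset
    · exact ⟨hy, hne⟩
    · intro z hz
      refine ⟨(connectedComponentIn_subset _ _ hz).1, ?_⟩
      rintro rfl
      exact h hz
  exact h1.subset_connectedComponentIn (mem_insert_of_mem _ (mem_connectedComponentIn hc)) h4

omit hW hWc [LocallyConnectedSpace Y] [T3Space Y] in
/-- The two sides are disjoint. -/
theorem sep_disjoint {p q y : Y} (hy : Sep W p q y) :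
    Disjoint (connectedComponentIn (W \ {y}) p) (connectedComponentIn (W \ {y}) q) := by
  rw [Set.disjoint_left]
  intro z hz hz'
  have h1 := connectedComponentIn_eq hz
  have h2 := connectedComponentIn_eq hz'
  apply hy.2.2.2
  rw [h1, ← h2]
  exact mem_connectedComponentIn hy.2.2.1

/-- Points of the left side have the given point on the right side. -/
theorem sep_symm_mem {p q y y' : Y} (hy : Sep W p q y) (_hy' : Sep W p q y') (hne : y ≠ y')
    (h : y' ∈ connectedComponentIn (W \ {y}) p) : y ∈ connectedComponentIn (W \ {y'}) q := by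
  have h1 : y' ∉ connectedComponentIn (W \ {y}) q := Set.disjoint_left.1 (sep_disjoint hy) h
  exact sep_subset hW hWc hy.1 hy.2.2.1 hne h1 (mem_insert _ _)

theorem sep_symm_mem' {p q y y' : Y} (hy : Sep W p q y) (_hy' : Sep W p q y') (hne : y ≠ y')
    (h : y' ∈ connectedComponentIn (W \ {y}) q) : y ∈ connectedComponentIn (W \ {y'}) p := by
  have h1 : y' ∉ connectedComponentIn (W \ {y}) p := Set.disjoint_right.1 (sep_disjoint hy) h
  exact sep_subset hW hWc hy.1 hy.2.1 hne h1 (mem_insert _ _)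

/-- The rest: the points of `W \ {y}` on neither of the two main sides. -/
def Rest (W : Set Y) (p q y : Y) : Set Y :=
  (W \ {y}) \ (connectedComponentIn (W \ {y}) p ∪ connectedComponentIn (W \ {y}) q)

omit hWc [T3Space Y] in
theorem rest_open [T1Space Y] (p q y : Y) : IsOpen (Rest W p q y) := by
  have hF : IsOpen (W \ {y}) := hW.sdiff isClosed_singleton
  rw [isOpen_iff_mem_nhds]
  intro z hz
  have hzF : z ∈ W \ {y} := hz.1
  have h1 : IsOpen (connectedComponentIn (W \ {y}) z) := hF.connectedComponentIn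
  filter_upwards [h1.mem_nhds (mem_connectedComponentIn hzF)] with w hw
  refine ⟨connectedComponentIn_subset _ _ hw, ?_⟩
  have h2 := connectedComponentIn_eq hw
  rintro (h | h)
  · apply hz.2
    left
    rw [connectedComponentIn_eq h, ← h2]
    exact mem_connectedComponentIn hzF
  · apply hz.2
    right
    rw [connectedComponentIn_eq h, ← h2]
    exact mem_connectedComponentIn hzF

theorem rest_disjoint {p q y y' : Y} (hy : Sep W p q y) (hy' : Sep W p q y') (hne : y ≠ y') :
    Disjoint (Rest W p q y) (Rest W p q y') := by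
  rw [Set.disjoint_left]
  intro z hz hz'
  have hzF : z ∈ W \ {y} := hz.1
  -- `y'` is not in the component of `z`
  have h1 : y' ∉ connectedComponentIn (W \ {y}) z := by
    intro h
    have h2 := connectedComponentIn_eq h
    apply hz.2
    rcases sep_mem hW hWc hy hy' hne with h3 | h3
    · left
      rw [connectedComponentIn_eq h3, ← h2]
      exact mem_connectedComponentIn hzF
    · right
      rw [connectedComponentIn_eq h3, ← h2]
      exact mem_connectedComponentIn hzF
  have h2 := sep_subset hW hWc hy.1 hzF hne h1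
  -- hence `y` is in the component of `z` in `W \ {y'}`
  have h3 : y ∈ connectedComponentIn (W \ {y'}) z := h2 (mem_insert _ _)
  have h4 := connectedComponentIn_eq h3
  apply hz'.2
  rcases sep_mem hW hWc hy' hy hne.symm with h5 | h5
  · left
    rw [connectedComponentIn_eq h5, ← h4]
    exact mem_connectedComponentIn hz'.1
  · right
    rw [connectedComponentIn_eq h5, ← h4]
    exact mem_connectedComponentIn hz'.1

omit hW hWc [LocallyConnectedSpace Y] [T3Space Y] in
/-- All but countably many points of a set are limit points of it within given subsets, provided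
any two points are comparable. -/
theorem countable_of_left_isolated [SecondCountableTopology Y] {S : Set Y} {A : Y → Set Y}
    (hcomp : ∀ y ∈ S, ∀ y' ∈ S, y ≠ y' → y ∈ A y' ∨ y' ∈ A y) :
    {y ∈ S | y ∉ closure (S ∩ A y)}.Countable := by
  classical
  set B := TopologicalSpace.countableBasis Y with hB
  have hbasis := TopologicalSpace.isBasis_countableBasis Y
  have hcnt : B.Countable := TopologicalSpace.countable_countableBasis Y
  have hex : ∀ y ∈ {y ∈ S | y ∉ closure (S ∩ A y)}, ∃ U ∈ B, y ∈ U ∧ U ∩ (S ∩ A y) = ∅ := by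
    intro y hy
    have h1 : (closure (S ∩ A y))ᶜ ∈ 𝓝 y := isClosed_closure.isOpen_compl.mem_nhds hy.2
    obtain ⟨U, hU, hyU, hUs⟩ := hbasis.mem_nhds_iff.1 h1
    refine ⟨U, hU, hyU, ?_⟩
    rw [eq_empty_iff_forall_notMem]
    rintro z ⟨hz1, hz2⟩
    exact hUs hz1 (subset_closure hz2)
  choose! U hU hyU hUe using hex
  refine Set.MapsTo.countable_of_injOn (f := U) (t := B) (fun y hy => hU y hy) ?_ hcnt
  intro y1 h1 y2 h2 he
  by_contra hne
  rcases hcomp y1 h1.1 y2 h2.1 hne with h | h
  · have : y1 ∈ U y2 ∩ (S ∩ A y2) := ⟨he ▸ hyU y1 h1, h1.1, h⟩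
    rw [hUe y2 h2] at this
    exact this
  · have : y2 ∈ U y1 ∩ (S ∩ A y1) := ⟨he.symm ▸ hyU y2 h2, h2.1, h⟩
    rw [hUe y1 h1] at this
    exact this

end Cut

section Order

variable {Y : Type*} [TopologicalSpace Y]

/-- Every point has arbitrarily small open neighbourhoods whose frontier has at most two points. -/
def OrderTwo (y : Y) : Prop :=
  ∀ N : Set Y, IsOpen N → y ∈ N → ∃ V ⊆ N, IsOpen V ∧ y ∈ V ∧ ∃ a b, frontier V ⊆ {a, b}

variable [LocallyConnectedSpace Y] [T3Space Y] [CompactSpace Y]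

theorem orderTwo_of_limit {W : Set Y} (hW : IsOpen W) (hWc : IsPreconnected W) {p q y : Y}
    {S : Set Y} (hS : ∀ z ∈ S, Sep W p q z) (hrest : ∀ z ∈ S, Rest W p q z = ∅) (hyS : y ∈ S)
    (hyA : y ∈ closure (S ∩ connectedComponentIn (W \ {y}) p))
    (hyB : y ∈ closure (S ∩ connectedComponentIn (W \ {y}) q)) : OrderTwo y := by
  intro N hN hyN
  have hy := hS y hyS
  -- notation
  set A : Y → Set Y := fun z => connectedComponentIn (W \ {z}) p with hA
  set B : Y → Set Y := fun z => connectedComponentIn (W \ {z}) q with hB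
  have hAo : ∀ z, IsOpen (A z) := fun z => (isOpen_diff_singleton hW z).connectedComponentIn
  have hBo : ∀ z, IsOpen (B z) := fun z => (isOpen_diff_singleton hW z).connectedComponentIn
  have hAB : ∀ z ∈ S, ∀ w ∈ W, w ≠ z → w ∈ A z ∨ w ∈ B z := by
    intro z hz w hw hwz
    by_contra hcon
    push Not at hcon
    have : w ∈ Rest W p q z := ⟨⟨hw, hwz⟩, fun h => h.elim hcon.1 hcon.2⟩
    rw [hrest z hz] at this
    exact this
  have hdisj : ∀ z ∈ S, Disjoint (A z) (B z) := fun z hz => sep_disjoint (hS z hz)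
  have hAclosed : ∀ z ∈ S, ∀ w ∈ W, w ∈ closure (A z) → w ∈ A z ∨ w = z := by
    intro z _ w hw hwc
    by_cases hwz : w = z
    · exact Or.inr hwz
    · exact Or.inl (comp_closed (isOpen_diff_singleton hW z) ⟨hw, hwz⟩ hwc)
  have hBclosed : ∀ z ∈ S, ∀ w ∈ W, w ∈ closure (B z) → w ∈ B z ∨ w = z := by
    intro z _ w hw hwc
    by_cases hwz : w = z
    · exact Or.inr hwz
    · exact Or.inl (comp_closed (isOpen_diff_singleton hW z) ⟨hw, hwz⟩ hwc)
  -- the neighbourhood `U`
  obtain ⟨C, hC, hCcl, hCN⟩ := exists_mem_nhds_isClosed_subset ((hN.inter hW).mem_nhds ⟨hyN, hy.1⟩)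
  set U := interior C with hU
  have hUo : IsOpen U := isOpen_interior
  have hyU : y ∈ U := mem_interior_iff_mem_nhds.2 hC
  have hclU : closure U ⊆ C := closure_minimal interior_subset hCcl
  have hfrU : frontier U ⊆ closure U := frontier_subset_closure
  -- the covering of the frontier
  have hcov : frontier U ⊆ ⋃ i : {z // z ∈ S ∧ z ∈ A y} × {z // z ∈ S ∧ z ∈ B y},
      (A i.1.1 ∪ B i.2.1) := by
    have hneA : ∃ z, z ∈ S ∧ z ∈ A y := by
      obtain ⟨z, -, hz⟩ := mem_closure_iff.1 hyA univ isOpen_univ (mem_univ _)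
      exact ⟨z, hz⟩
    have hneB : ∃ z, z ∈ S ∧ z ∈ B y := by
      obtain ⟨z, -, hz⟩ := mem_closure_iff.1 hyB univ isOpen_univ (mem_univ _)
      exact ⟨z, hz⟩
    obtain ⟨a0, ha0⟩ := hneA
    obtain ⟨b0, hb0⟩ := hneB
    intro z hz
    have hzW : z ∈ W := (hCN (hclU (hfrU hz))).2
    have hzy : z ≠ y := by
      rintro rfl
      rw [hUo.frontier_eq] at hz
      exact hz.2 hyU
    rw [mem_iUnion]
    rcases hAB y hyS z hzW hzy with h | h
    · obtain ⟨Γ, hΓA, hΓc, hpΓ, hzΓ, hyΓ⟩ := exists_connected_avoiding (hAo y)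
        isPreconnected_connectedComponentIn
        (fun hcon => (connectedComponentIn_subset _ _ hcon).2 rfl)
        (mem_connectedComponentIn hy.2.1) h
      obtain ⟨z1, hz1, hz1S, hz1A⟩ := mem_closure_iff.1 hyA (closure Γ)ᶜ
        isClosed_closure.isOpen_compl hyΓ
      refine ⟨(⟨z1, hz1S, hz1A⟩, ⟨b0, hb0⟩), Or.inl ?_⟩
      refine hΓc.subset_connectedComponentIn hpΓ ?_ hzΓ
      intro w hw
      refine ⟨(connectedComponentIn_subset _ _ (hΓA hw)).1, ?_⟩
      rintro rfl
      exact hz1 (subset_closure hw)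
    · obtain ⟨Γ, hΓA, hΓc, hpΓ, hzΓ, hyΓ⟩ := exists_connected_avoiding (hBo y)
        isPreconnected_connectedComponentIn
        (fun hcon => (connectedComponentIn_subset _ _ hcon).2 rfl)
        (mem_connectedComponentIn hy.2.2.1) h
      obtain ⟨z1, hz1, hz1S, hz1A⟩ := mem_closure_iff.1 hyB (closure Γ)ᶜ
        isClosed_closure.isOpen_compl hyΓ
      refine ⟨(⟨a0, ha0⟩, ⟨z1, hz1S, hz1A⟩), Or.inr ?_⟩
      refine hΓc.subset_connectedComponentIn hpΓ ?_ hzΓ
      intro w hw
      refine ⟨(connectedComponentIn_subset _ _ (hΓA hw)).1, ?_⟩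
      rintro rfl
      exact hz1 (subset_closure hw)
  -- monotonicity
  have hmonoA : ∀ z ∈ S, ∀ w ∈ S, A z ⊆ A w ∨ A w ⊆ A z := by
    intro z hz w hw
    by_cases hzw : z = w
    · left; rw [hzw]
    · by_cases h : w ∈ A z
      · right
        have h1 := sep_symm_mem hW hWc (hS z hz) (hS w hw) hzw h
        have h2 : z ∉ connectedComponentIn (W \ {w}) p :=
          Set.disjoint_right.1 (sep_disjoint (hS w hw)) h1
        exact (subset_insert _ _).trans
          (sep_subset hW hWc (hS w hw).1 (hS w hw).2.1 (Ne.symm hzw) h2)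
      · left
        exact (subset_insert _ _).trans (sep_subset hW hWc (hS z hz).1 (hS z hz).2.1 hzw h)
  have hmonoB : ∀ z ∈ S, ∀ w ∈ S, B z ⊆ B w ∨ B w ⊆ B z := by
    intro z hz w hw
    by_cases hzw : z = w
    · left; rw [hzw]
    · by_cases h : w ∈ B z
      · right
        have h1 := sep_symm_mem' hW hWc (hS z hz) (hS w hw) hzw h
        have h2 : z ∉ connectedComponentIn (W \ {w}) q :=
          Set.disjoint_left.1 (sep_disjoint (hS w hw)) h1
        exact (subset_insert _ _).trans
          (sep_subset hW hWc (hS w hw).1 (hS w hw).2.2.1 (Ne.symm hzw) h2)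
      · left
        exact (subset_insert _ _).trans (sep_subset hW hWc (hS z hz).1 (hS z hz).2.2.1 hzw h)
  have hdir : Directed (· ⊆ ·) (fun i : {z // z ∈ S ∧ z ∈ A y} × {z // z ∈ S ∧ z ∈ B y} =>
      (A i.1.1 ∪ B i.2.1)) := by
    rintro ⟨⟨a, haS, haA⟩, ⟨b, hbS, hbB⟩⟩ ⟨⟨a', haS', haA'⟩, ⟨b', hbS', hbB'⟩⟩
    rcases hmonoA a haS a' haS' with h | h
    · rcases hmonoB b hbS b' hbS' with h' | h'
      · exact ⟨(⟨a', haS', haA'⟩, ⟨b', hbS', hbB'⟩), union_subset_union h h', subset_rfl⟩
      · exact ⟨(⟨a', haS', haA'⟩, ⟨b, hbS, hbB⟩), union_subset_union h subset_rfl,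
          union_subset_union subset_rfl h'⟩
    · rcases hmonoB b hbS b' hbS' with h' | h'
      · exact ⟨(⟨a, haS, haA⟩, ⟨b', hbS', hbB'⟩), union_subset_union subset_rfl h',
          union_subset_union h subset_rfl⟩
      · exact ⟨(⟨a, haS, haA⟩, ⟨b, hbS, hbB⟩), subset_rfl, union_subset_union h h'⟩
  have hne : Nonempty ({z // z ∈ S ∧ z ∈ A y} × {z // z ∈ S ∧ z ∈ B y}) := by
    obtain ⟨z, -, hz⟩ := mem_closure_iff.1 hyA univ isOpen_univ (mem_univ _)
    obtain ⟨w, -, hw⟩ := mem_closure_iff.1 hyB univ isOpen_univ (mem_univ _)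
    exact ⟨(⟨z, hz⟩, ⟨w, hw⟩)⟩
  obtain ⟨⟨⟨y1, hy1S, hy1A⟩, ⟨y2, hy2S, hy2B⟩⟩, hsub⟩ :=
    (isClosed_frontier (s := U)).isCompact.elim_directed_cover
      (fun i : {z // z ∈ S ∧ z ∈ A y} × {z // z ∈ S ∧ z ∈ B y} => (A i.1.1 ∪ B i.2.1))
      (fun i => (hAo i.1.1).union (hBo i.2.1)) hcov hdir
  simp only at hsub
  have hy1ne : y ≠ y1 := by
    rintro rfl
    exact (connectedComponentIn_subset _ _ hy1A).2 rfl
  have hy2ne : y ≠ y2 := by
    rintro rfl
    exact (connectedComponentIn_subset _ _ hy2B).2 rfl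
  have hyB1 : y ∈ B y1 := sep_symm_mem hW hWc hy (hS y1 hy1S) hy1ne hy1A
  have hyA2 : y ∈ A y2 := sep_symm_mem' hW hWc hy (hS y2 hy2S) hy2ne hy2B
  refine ⟨U ∩ (B y1 ∩ A y2), ?_, hUo.inter ((hBo y1).inter (hAo y2)), ⟨hyU, hyB1, hyA2⟩,
    y1, y2, ?_⟩
  · intro z hz
    exact (hCN (interior_subset hz.1)).1
  · intro z hz
    rw [(hUo.inter ((hBo y1).inter (hAo y2))).frontier_eq] at hz
    obtain ⟨hzc, hzn⟩ := hz
    have h1 : z ∈ closure U := closure_mono inter_subset_left hzc
    have h2 : z ∈ closure (B y1) :=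
      closure_mono (inter_subset_right.trans inter_subset_left) hzc
    have h3 : z ∈ closure (A y2) :=
      closure_mono (inter_subset_right.trans inter_subset_right) hzc
    have hzW : z ∈ W := (hCN (hclU h1)).2
    rcases hBclosed y1 hy1S z hzW h2 with h4 | h4
    · rcases hAclosed y2 hy2S z hzW h3 with h5 | h5
      · exfalso
        have h6 : z ∉ U := fun h => hzn ⟨h, h4, h5⟩
        have h7 : z ∈ frontier U := by
          rw [hUo.frontier_eq]
          exact ⟨h1, h6⟩
        rcases hsub h7 with h8 | h8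
        · exact Set.disjoint_left.1 (hdisj y1 hy1S) h8 h4
        · exact Set.disjoint_left.1 (hdisj y2 hy2S) h5 h8
      · right; exact h5
    · left; exact h4

/-- If every point is a local cut point and the space is uncountable, then some point has
order at most two. -/
theorem exists_orderTwo [SecondCountableTopology Y] (hunc : ¬ (univ : Set Y).Countable)
    (hcut : ∀ y : Y, ∃ W : Set Y, IsOpen W ∧ IsPreconnected W ∧ y ∈ W ∧
      ¬ IsPreconnected (W \ {y})) : ∃ y : Y, OrderTwo y := by
  classical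
  set B := TopologicalSpace.countableBasis Y with hB
  have hbasis := TopologicalSpace.isBasis_countableBasis Y
  have hcnt : B.Countable := TopologicalSpace.countable_countableBasis Y
  obtain ⟨D, hD, hDd⟩ := TopologicalSpace.exists_countable_dense Y
  have h1 : ∀ y : Y, ∃ U ∈ B, ∃ d ∈ D, ∃ p ∈ D, ∃ q ∈ D,
      Sep (connectedComponentIn U d) p q y := by
    intro y
    obtain ⟨W, hW, hWc, hyW, hcutW⟩ := hcut y
    obtain ⟨U, hU, hyU, hUW⟩ := hbasis.mem_nhds_iff.1 (hW.mem_nhds hyW)
    have hUo : IsOpen U := hbasis.isOpen hU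
    have hCo : IsOpen (connectedComponentIn U y) := hUo.connectedComponentIn
    have hyC : y ∈ connectedComponentIn U y := mem_connectedComponentIn hyU
    obtain ⟨d, hdC, hdD⟩ := hDd.inter_open_nonempty _ hCo ⟨y, hyC⟩
    have hCd : connectedComponentIn U d = connectedComponentIn U y :=
      (connectedComponentIn_eq hdC).symm
    have hCW : connectedComponentIn U y ⊆ W := (connectedComponentIn_subset _ _).trans hUW
    -- the separation
    unfold IsPreconnected at hcutW
    push Not at hcutW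
    obtain ⟨u, v, hu, hv, huv, hun, hvn, hne⟩ := hcutW
    have hAo : IsOpen ((W \ {y}) ∩ u) := (isOpen_diff_singleton hW y).inter hu
    have hA'o : IsOpen ((W \ {y}) ∩ v) := (isOpen_diff_singleton hW y).inter hv
    have hdis : Disjoint ((W \ {y}) ∩ u) ((W \ {y}) ∩ v) := by
      rw [Set.disjoint_left]
      rintro z ⟨hz1, hz2⟩ ⟨-, hz3⟩
      have : z ∈ (W \ {y}) ∩ (u ∩ v) := ⟨hz1, hz2, hz3⟩
      rw [hne] at this
      exact this
    have hyA : y ∈ closure ((W \ {y}) ∩ u) := by
      refine mem_closure_of_piece hWc hyW hAo inter_subset_left hun ?_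
      intro z hz hzy hzc
      rcases huv ⟨hz, hzy⟩ with h | h
      · exact ⟨⟨hz, hzy⟩, h⟩
      · exfalso
        obtain ⟨w, hw1, hw2⟩ := mem_closure_iff.1 hzc _ hA'o ⟨⟨hz, hzy⟩, h⟩
        exact Set.disjoint_left.1 hdis hw2 hw1
    have hyA' : y ∈ closure ((W \ {y}) ∩ v) := by
      refine mem_closure_of_piece hWc hyW hA'o inter_subset_left hvn ?_
      intro z hz hzy hzc
      rcases huv ⟨hz, hzy⟩ with h | h
      · exfalso
        obtain ⟨w, hw1, hw2⟩ := mem_closure_iff.1 hzc _ hAo ⟨⟨hz, hzy⟩, h⟩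
        exact Set.disjoint_left.1 hdis hw1 hw2
      · exact ⟨⟨hz, hzy⟩, h⟩
    obtain ⟨p0, hp0C, hp0A⟩ := mem_closure_iff.1 hyA _ hCo hyC
    obtain ⟨q0, hq0C, hq0A⟩ := mem_closure_iff.1 hyA' _ hCo hyC
    obtain ⟨p, ⟨hpC, hpA⟩, hpD⟩ := hDd.inter_open_nonempty _ (hCo.inter hAo) ⟨p0, hp0C, hp0A⟩
    obtain ⟨q, ⟨hqC, hqA⟩, hqD⟩ := hDd.inter_open_nonempty _ (hCo.inter hA'o) ⟨q0, hq0C, hq0A⟩
    refine ⟨U, hU, d, hdD, p, hpD, q, hqD, ?_⟩
    rw [hCd]
    refine ⟨hyC, ⟨hpC, hpA.1.2⟩, ⟨hqC, hqA.1.2⟩, ?_⟩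
    intro hcon
    have h2 : connectedComponentIn (connectedComponentIn U y \ {y}) p ⊆ (W \ {y}) ∩ u := by
      refine isPreconnected_connectedComponentIn.subset_left_of_subset_union hAo hA'o hdis ?_ ?_
      · intro z hz
        have hz1 := connectedComponentIn_subset _ _ hz
        have hz2 : z ∈ W \ {y} := ⟨hCW hz1.1, hz1.2⟩
        rcases huv hz2 with h | h
        · exact Or.inl ⟨hz2, h⟩
        · exact Or.inr ⟨hz2, h⟩
      · exact ⟨p, mem_connectedComponentIn ⟨hpC, hpA.1.2⟩, hpA⟩
    exact Set.disjoint_left.1 hdis (h2 hcon) hqA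
  -- pigeonhole
  obtain ⟨U, hU, d, hd, p, hp, q, hq, hS⟩ : ∃ U ∈ B, ∃ d ∈ D, ∃ p ∈ D, ∃ q ∈ D,
      ¬ {y | Sep (connectedComponentIn U d) p q y}.Countable := by
    by_contra hcon
    push Not at hcon
    apply hunc
    have : (univ : Set Y) ⊆ ⋃ U ∈ B, ⋃ d ∈ D, ⋃ p ∈ D, ⋃ q ∈ D,
        {y | Sep (connectedComponentIn U d) p q y} := by
      intro y _
      obtain ⟨U, hU, d, hd, p, hp, q, hq, h⟩ := h1 y
      simp only [mem_iUnion]
      exact ⟨U, hU, d, hd, p, hp, q, hq, h⟩
    refine Set.Countable.mono this ?_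
    refine hcnt.biUnion fun U hU => hD.biUnion fun d hd => hD.biUnion fun p hp =>
      hD.biUnion fun q hq => hcon U hU d hd p hp q hq
  set W := connectedComponentIn U d with hWdef
  have hW : IsOpen W := (hbasis.isOpen hU).connectedComponentIn
  have hWc : IsPreconnected W := isPreconnected_connectedComponentIn
  set S := {y | Sep W p q y} with hSdef
  have hS1 : {y ∈ S | (Rest W p q y).Nonempty}.Countable := by
    refine Set.PairwiseDisjoint.countable_of_isOpen (s := Rest W p q) ?_ ?_ ?_
    · intro y hy y' hy' hne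
      exact rest_disjoint hW hWc hy.1 hy'.1 hne
    · intro y _
      exact rest_open hW p q y
    · intro y hy
      exact hy.2
  set S' := S \ {y ∈ S | (Rest W p q y).Nonempty} with hS'
  have hS'S : ∀ y ∈ S', Sep W p q y := fun y hy => hy.1
  have hS'R : ∀ y ∈ S', Rest W p q y = ∅ := by
    intro y hy
    by_contra hcon
    exact hy.2 ⟨hy.1, nonempty_iff_ne_empty.2 hcon⟩
  have hS2 : {y ∈ S' | y ∉ closure (S' ∩ connectedComponentIn (W \ {y}) p)}.Countable := by
    apply countable_of_left_isolated (A := fun y => connectedComponentIn (W \ {y}) p)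
    intro y hy y' hy' hne
    by_cases h : y' ∈ connectedComponentIn (W \ {y}) p
    · exact Or.inr h
    · left
      exact sep_subset hW hWc (hS'S y hy).1 (hS'S y hy).2.1 hne h (mem_insert _ _)
  have hS3 : {y ∈ S' | y ∉ closure (S' ∩ connectedComponentIn (W \ {y}) q)}.Countable := by
    apply countable_of_left_isolated (A := fun y => connectedComponentIn (W \ {y}) q)
    intro y hy y' hy' hne
    by_cases h : y' ∈ connectedComponentIn (W \ {y}) q
    · exact Or.inr h
    · left
      exact sep_subset hW hWc (hS'S y hy).1 (hS'S y hy).2.2.1 hne h (mem_insert _ _)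
  obtain ⟨y, hyS', hy2, hy3⟩ : ∃ y ∈ S', y ∈ closure (S' ∩ connectedComponentIn (W \ {y}) p) ∧
      y ∈ closure (S' ∩ connectedComponentIn (W \ {y}) q) := by
    by_contra hcon
    push Not at hcon
    apply hS
    refine ((hS1.union hS2).union hS3).mono ?_
    intro y hy
    by_cases h1 : (Rest W p q y).Nonempty
    · exact Or.inl (Or.inl ⟨hy, h1⟩)
    · have hyS' : y ∈ S' := ⟨hy, fun h => h1 h.2⟩
      by_cases h2 : y ∈ closure (S' ∩ connectedComponentIn (W \ {y}) p)
      · exact Or.inr ⟨hyS', hcon y hyS' h2⟩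
      · exact Or.inl (Or.inr ⟨hyS', h2⟩)
  exact ⟨y, orderTwo_of_limit hW hWc hS'S hS'R hyS' hy2 hy3⟩

end Order

section Obstruction

/-- The frontier of the image of an open set under a continuous open map of a compact space. -/
theorem frontier_image_subset {Y X : Type*} [TopologicalSpace Y] [TopologicalSpace X]
    [CompactSpace Y] [T2Space X] {g : Y → X} (hg : Continuous g) (ho : IsOpenMap g) {V : Set Y}
    (hV : IsOpen V) : frontier (g '' V) ⊆ g '' frontier V := by
  rw [(ho V hV).frontier_eq, hV.frontier_eq]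
  rintro x ⟨hx1, hx2⟩
  have h1 : closure (g '' V) ⊆ g '' closure V := by
    apply closure_minimal (image_mono subset_closure)
    exact (isClosed_closure.isCompact.image hg).isClosed
  obtain ⟨y, hy, rfl⟩ := h1 hx1
  exact ⟨y, ⟨hy, fun h => hx2 ⟨y, h, rfl⟩⟩, rfl⟩

/-- Every point has arbitrarily small open neighbourhoods with finite frontier. -/
def Regular (y : Type*) [TopologicalSpace y] (z : y) : Prop :=
  ∀ N : Set y, IsOpen N → z ∈ N → ∃ V ⊆ N, IsOpen V ∧ z ∈ V ∧ (frontier V).Finite

/-- In a connected, locally connected space with at least two points, a point with small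
neighbourhoods of finite frontier yields a local cut point. -/
theorem exists_local_cut {Y : Type*} [TopologicalSpace Y] [T3Space Y] [ConnectedSpace Y]
    [LocallyConnectedSpace Y] [Nontrivial Y] {z : Y} (hz : Regular Y z) :
    ∃ (y : Y) (W : Set Y), IsOpen W ∧ IsPreconnected W ∧ y ∈ W ∧ ¬ IsPreconnected (W \ {y}) := by
  obtain ⟨z', hz'⟩ := exists_ne z
  obtain ⟨C, hC, hCcl, hCz'⟩ := exists_mem_nhds_isClosed_subset
    ((isOpen_compl_singleton (x := z')).mem_nhds (x := z) hz'.symm)
  obtain ⟨V, hVN, hVo, hzV, hVf⟩ := hz (interior C) isOpen_interior (mem_interior_iff_mem_nhds.2 hC)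
  set R := interior (closure V) with hR
  have hRo : IsOpen R := isOpen_interior
  have hVR : V ⊆ R := interior_maximal subset_closure hVo
  have hclR : closure R = closure V := by
    apply subset_antisymm
    · exact closure_minimal interior_subset isClosed_closure
    · exact closure_mono hVR
  have hclVC : closure V ⊆ C := closure_minimal (hVN.trans interior_subset) hCcl
  have hfr : (frontier R).Finite := by
    apply hVf.subset
    rw [hRo.frontier_eq, hVo.frontier_eq, hclR]
    exact sdiff_subset_sdiff_right hVR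
  have hne : (frontier R).Nonempty := by
    rw [nonempty_iff_ne_empty]
    intro h
    rcases isClopen_iff.1 (isClopen_iff_frontier_eq_empty.2 h) with h1 | h1
    · have : z ∈ R := hVR hzV
      rw [h1] at this
      exact this
    · have : z' ∈ closure R := subset_closure (h1 ▸ mem_univ z')
      rw [hclR] at this
      exact hCz' (hclVC this) rfl
  obtain ⟨y, hy⟩ := hne
  have hfin : (frontier R \ {y}).Finite := hfr.subset sdiff_subset
  have hopen : IsOpen (frontier R \ {y})ᶜ := hfin.isClosed.isOpen_compl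
  have hyO : y ∈ (frontier R \ {y})ᶜ := fun h => h.2 rfl
  refine ⟨y, connectedComponentIn (frontier R \ {y})ᶜ y, hopen.connectedComponentIn,
    isPreconnected_connectedComponentIn, mem_connectedComponentIn hyO, ?_⟩
  set W := connectedComponentIn (frontier R \ {y})ᶜ y with hW
  have hWo : IsOpen W := hopen.connectedComponentIn
  have hyW : y ∈ W := mem_connectedComponentIn hyO
  intro hpre
  have hyR : y ∉ R := by
    rw [hRo.frontier_eq] at hy
    exact hy.2
  have hycl : y ∈ closure R := by
    rw [hRo.frontier_eq] at hy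
    exact hy.1
  have hyext : y ∈ closure ((closure R)ᶜ) := by
    rw [closure_compl, hclR]
    exact hyR
  have hcov : W \ {y} ⊆ R ∪ (closure R)ᶜ := by
    intro w hw
    by_cases hwR : w ∈ R
    · exact Or.inl hwR
    · right
      intro hwc
      have h1 : w ∈ frontier R := by
        rw [hRo.frontier_eq]
        exact ⟨hwc, hwR⟩
      exact (connectedComponentIn_subset _ _ hw.1) ⟨h1, hw.2⟩
  obtain ⟨r, hrW, hrR⟩ := mem_closure_iff.1 hycl W hWo hyW
  obtain ⟨e, heW, heR⟩ := mem_closure_iff.1 hyext W hWo hyW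
  have h2 : W \ {y} ⊆ R := by
    refine hpre.subset_left_of_subset_union hRo isClosed_closure.isOpen_compl ?_ hcov ?_
    · rw [Set.disjoint_compl_right_iff_subset]
      exact subset_closure
    · exact ⟨r, ⟨hrW, by rintro rfl; exact hyR hrR⟩, hrR⟩
  have h3 : e ∈ W \ {y} := ⟨heW, by rintro rfl; exact heR hycl⟩
  exact heR (subset_closure (h2 h3))

/-- Every homogeneous space in which some point is regular has only points of order two. -/
theorem all_orderTwo {Y : Type*} [TopologicalSpace Y] [T3Space Y] [SecondCountableTopology Y]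
    [CompactSpace Y] [ConnectedSpace Y]
    [LocallyConnectedSpace Y] [Nontrivial Y] (hunc : ¬ (univ : Set Y).Countable)
    (hY : ∀ a b : Y, ∃ h : Y ≃ₜ Y, h a = b) {z : Y} (hz : Regular Y z) (y : Y) : OrderTwo y := by
  have hcut : ∀ y : Y, ∃ W : Set Y, IsOpen W ∧ IsPreconnected W ∧ y ∈ W ∧
      ¬ IsPreconnected (W \ {y}) := by
    intro y
    obtain ⟨y0, W, hW, hWc, hyW, hn⟩ := exists_local_cut hz
    obtain ⟨h, hh⟩ := hY y0 y
    refine ⟨h '' W, h.isOpenMap _ hW, hWc.image _ h.continuous.continuousOn, ⟨y0, hyW, hh⟩, ?_⟩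
    intro hpre
    apply hn
    have h1 : h '' W \ {y} = h '' (W \ {y0}) := by
      rw [image_sdiff h.injective, image_singleton, hh]
    rw [h1] at hpre
    have h2 := hpre.image h.symm h.symm.continuous.continuousOn
    rwa [← image_comp, Homeomorph.symm_comp_self, image_id] at h2
  obtain ⟨y1, hy1⟩ := exists_orderTwo hunc hcut
  obtain ⟨h, hh⟩ := hY y1 y
  intro N hN hyN
  obtain ⟨V, hVN, hVo, hyV, a, b, hab⟩ := hy1 (h ⁻¹' N) (hN.preimage h.continuous) (by
    show h y1 ∈ N
    rwa [hh])
  refine ⟨h '' V, ?_, h.isOpenMap _ hVo, ⟨y1, hyV, hh⟩, h a, h b, ?_⟩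
  · rintro _ ⟨v, hv, rfl⟩
    exact hVN hv
  · rw [← h.image_frontier]
    rintro _ ⟨v, hv, rfl⟩
    rcases hab hv with h3 | h3
    · left; rw [h3]
    · right
      rw [mem_singleton_iff.1 h3]
      rfl

/-- The obstruction for open mappings. -/
theorem open_obstruction {X Y : Type*} [MetricSpace X] [CompactSpace X] [Nontrivial X]
    [LocallyConnectedSpace X] [MetricSpace Y] [ConnectedSpace Y]
    {x0 : X} (hx0 : Regular X x0)
    (hX : ∀ V : Set X, IsOpen V → V.Nonempty → closure V ≠ univ → ∀ p q : X,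
      ¬ frontier V ⊆ {p, q})
    (hY : ∀ a b : Y, ∃ h : Y ≃ₜ Y, h a = b)
    {f : X → Y} (hf : Continuous f) (hfo : IsOpenMap f) (hfs : Function.Surjective f)
    {g : Y → X} (hg : Continuous g) (hgo : IsOpenMap g) (hgs : Function.Surjective g) : False := by
  have : CompactSpace Y := hfs.compactSpace hf
  have : Nontrivial Y := by
    obtain ⟨x, x', hxx'⟩ := exists_pair_ne X
    obtain ⟨y, rfl⟩ := hgs x
    obtain ⟨y', rfl⟩ := hgs x'
    exact ⟨y, y', fun h => hxx' (h ▸ rfl)⟩
  have : LocallyConnectedSpace Y := by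
    rw [locallyConnectedSpace_iff_subsets_isOpen_isConnected]
    intro y N hN
    obtain ⟨x, rfl⟩ := hfs y
    obtain ⟨V, hV1, hV2, hV3, hV4⟩ :=
      (locallyConnectedSpace_iff_subsets_isOpen_isConnected.1 inferInstance) x (f ⁻¹' N)
        (hf.continuousAt.preimage_mem_nhds hN)
    refine ⟨f '' V, ?_, hfo _ hV2, ⟨x, hV3, rfl⟩, hV4.image _ hf.continuousOn⟩
    rintro _ ⟨v, hv, rfl⟩
    exact hV1 hv
  have hunc : ¬ (univ : Set Y).Countable := by
    intro h
    have h1 : (univ : Set Y).Subsingleton :=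
      h.isTotallyDisconnected univ (subset_univ _) isPreconnected_univ
    obtain ⟨y, y', hyy'⟩ := exists_pair_ne Y
    exact hyy' (h1 (mem_univ _) (mem_univ _))
  have hreg : Regular Y (f x0) := by
    intro N hN hyN
    obtain ⟨V, hVN, hVo, hxV, hVf⟩ := hx0 (f ⁻¹' N) (hN.preimage hf) hyN
    refine ⟨f '' V, ?_, hfo _ hVo, ⟨x0, hxV, rfl⟩,
      (hVf.image f).subset (frontier_image_subset hf hfo hVo)⟩
    rintro _ ⟨v, hv, rfl⟩
    exact hVN hv
  have hord := all_orderTwo hunc hY hreg
  obtain ⟨x', hx'⟩ := exists_ne (g (f x0))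
  obtain ⟨C, hC, hCcl, hCx'⟩ := exists_mem_nhds_isClosed_subset
    ((isOpen_compl_singleton (x := x')).mem_nhds (x := g (f x0)) hx'.symm)
  obtain ⟨V, hVN, hVo, hyV, a, b, hab⟩ := hord (f x0) (g ⁻¹' interior C)
    (isOpen_interior.preimage hg) (mem_interior_iff_mem_nhds.2 hC)
  refine hX (g '' V) (hgo _ hVo) ⟨_, f x0, hyV, rfl⟩ ?_ (g a) (g b) ?_
  · intro h
    have h1 : closure (g '' V) ⊆ C := by
      apply closure_minimal _ hCcl
      rintro _ ⟨v, hv, rfl⟩
      exact interior_subset (hVN hv)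
    exact hCx' (h1 (h ▸ mem_univ x')) rfl
  · refine (frontier_image_subset hg hgo hVo).trans ?_
    rintro _ ⟨v, hv, rfl⟩
    rcases hab hv with h3 | h3
    · left; rw [h3]
    · right
      rw [mem_singleton_iff.1 h3]
      rfl

end Obstruction

end Pool.Agent.Lib.MP_861931_gt
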